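import Pool.Agent.T2H28.FS.Asm1

/-! Project FS: products, and the passage to ideals -/

namespace Pool.Agent.T2H28.FS

open MvPolynomial

universe u

theorem pw_nonempty {σ : Type} {U : Set (σ → ℕ)} (h : U.Nonempty) : ∀ k, (Pw U k).Nonempty := by
  intro k
  induction k with
  | zero => exact ⟨0, trivial⟩
  | succ k ih =>
    obtain ⟨b, hb⟩ := h
    obtain ⟨c, hc⟩ := ih
    exact ⟨b + c, b, hb, c, hc, rfl⟩

theorem pw_upper {σ : Type} {U : Set (σ → ℕ)} (h : IsUpperSet U) : ∀ k, IsUpperSet (Pw U k) := by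
  intro k
  induction k with
  | zero => intro a b _ _; exact trivial
  | succ k ih =>
    rintro a a' haa ⟨b, hb, c, hc, rfl⟩
    refine ⟨b, hb, a' - b, ih ?_ hc, ?_⟩
    · intro t
      have h1 : b t + c t ≤ a' t := haa t
      show c t ≤ a' t - b t
      omega
    · funext t
      have h1 : b t + c t ≤ a' t := haa t
      show a' t = b t + (a' t - b t)
      omega

theorem pw_one {σ : Type} {U : Set (σ → ℕ)} (h : IsUpperSet U) : Pw U 1 = U := by
  ext a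
  constructor
  · rintro ⟨b, hb, c, _, rfl⟩
    exact h (by intro t; show b t ≤ b t + c t; omega) hb
  · intro ha
    exact ⟨a, ha, 0, trivial, by simp⟩

theorem Blk.mono {σ : Type} [Fintype σ] {U : Set (σ → ℕ)} {α : ℕ} {P ρ P' ρ' : ℕ → ℕ}
    {A : ℕ → Set (Finset σ)} {lo hi lo' hi' : ℕ → Prop} (h : Blk U α P ρ A lo hi)
    (hP : ∀ k, P k = P' k) (hρ : ∀ k, ρ k = ρ' k) (h1 : ∀ k, lo' k → lo k)
    (h2 : ∀ k, hi' k → hi k) : Blk U α P' ρ' A lo' hi' := by
  obtain ⟨u1, u2⟩ := h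
  refine ⟨u1, fun k hk => ?_⟩
  obtain ⟨a1, a2, a3, a4, a5⟩ := u2 k hk
  rw [← hP, ← hρ]
  exact ⟨a1, a2, a3, fun h => a4 (h1 k h), fun h => a5 (h2 k h)⟩

theorem Blk.nonempty {σ : Type} [Fintype σ] {U : Set (σ → ℕ)} {α : ℕ} {P ρ : ℕ → ℕ}
    {A : ℕ → Set (Finset σ)} {lo hi : ℕ → Prop} (h : Blk U α P ρ A lo hi) : U.Nonempty := by
  obtain ⟨_, _, ⟨⟨a, ha, _⟩, _⟩, _⟩ := h.2 1 le_rfl
  rw [pw_one h.1] at ha
  exact ⟨a, ha⟩

theorem blk_prod (hPPQP : P_PPQP) (hPRC : P_PRC) {σ τ : Type} [Fintype σ] [Fintype τ]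
    {U : Set (σ → ℕ)} {V : Set (τ → ℕ)} {α β : ℕ} {P ρ P' ρ' : ℕ → ℕ}
    {A : ℕ → Set (Finset σ)} {B : ℕ → Set (Finset τ)} {lo hi lo' hi' : ℕ → Prop}
    (h1 : Blk U α P ρ A lo hi) (h2 : Blk V β P' ρ' B lo' hi') :
    Blk (prodU U V) (α + β) (fun k => P k + P' k) (fun k => ρ k + ρ' k)
      (fun k => prodA (A k) (B k)) (fun k => lo k ∧ lo' k) (fun k => hi k ∨ hi' k) := by
  obtain ⟨p1, p2⟩ := hPRC U V
  refine ⟨?_, fun k hk => ?_⟩
  · rintro a b hab ⟨x1, x2⟩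
    exact ⟨h1.1 (fun t => hab _) x1, h2.1 (fun t => hab _) x2⟩
  obtain ⟨a1, a2, a3, a4, a5⟩ := h1.2 k hk
  obtain ⟨b1, b2, b3, b4, b5⟩ := h2.2 k hk
  have upU := pw_upper h1.1 k
  have upV := pw_upper h2.1 k
  have neU := pw_nonempty h1.nonempty k
  have neV := pw_nonempty h2.nonempty k
  obtain ⟨q1, q2⟩ := (hPRC (Pw U k) (Pw V k)).2 upU upV neU neV
  rw [p1 k]
  refine ⟨hPPQP _ _ _ _ _ _ a1 b1, by rw [q2, a2, b2], ?_, ?_, ?_⟩
  · constructor
    · obtain ⟨x, hx, hx2⟩ := a3.1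
      obtain ⟨y, hy, hy2⟩ := b3.1
      refine ⟨Sum.elim x y, ⟨hx, hy⟩, ?_⟩
      rw [Fintype.sum_sum_type]
      simp only [Sum.elim_inl, Sum.elim_inr, hx2, hy2]
      ring
    · rintro m ⟨x, ⟨hx1, hx2⟩, rfl⟩
      have e1 := a3.2 ⟨_, hx1, rfl⟩
      have e2 := b3.2 ⟨_, hx2, rfl⟩
      rw [Fintype.sum_sum_type, add_mul]
      exact add_le_add e1 e2
  · rintro ⟨l1, l2⟩ m F hF
    rw [Fintype.sum_sum_type, add_mul]
    rcases (q1 m F).1 hF with ⟨G, _, hG, hm⟩ | ⟨G, _, hG, hm⟩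
    · exact add_le_add (a4 l1 _ _ hG) (b3.2 ⟨_, hm, rfl⟩)
    · exact add_le_add (a3.2 ⟨_, hm, rfl⟩) (b4 l2 _ _ hG)
  · rintro (l | l)
    · obtain ⟨m, F, hm, hs⟩ := a5 l
      obtain ⟨y, hy, hy2⟩ := b3.1
      refine ⟨Sum.elim m y, F.map ⟨Sum.inl, Sum.inl_injective⟩, ?_, ?_⟩
      · rw [q1]; exact Or.inl ⟨F, rfl, hm, hy⟩
      · rw [Fintype.sum_sum_type]
        simp only [Sum.elim_inl, Sum.elim_inr, hy2, add_mul, ← hs]
        ring
    · obtain ⟨m, F, hm, hs⟩ := b5 l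
      obtain ⟨y, hy, hy2⟩ := a3.1
      refine ⟨Sum.elim y m, F.map ⟨Sum.inr, Sum.inr_injective⟩, ?_, ?_⟩
      · rw [q1]; exact Or.inr ⟨F, rfl, hm, hy⟩
      · rw [Fintype.sum_sum_type]
        simp only [Sum.elim_inl, Sum.elim_inr, hy2, add_mul, ← hs]
        ring

/-- The combinatorial core: all indices prescribed at the level of exponents. -/
theorem finc (hPPQP : P_PPQP) (hPRC : P_PRC) (hRIX : P_RIX) (hBV : P_BV) (hBR : P_BR)
    (hBD : P_BD) (hBA : P_BA) (a d r v : ℕ) (ha : 1 ≤ a) (hd : 1 ≤ d) (hr : 1 ≤ r)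
    (hv : 1 ≤ v) :
    ∃ (n : ℕ) (U : Set (Fin n → ℕ)) (α c e P₀ : ℕ) (A : ℕ → Set (Finset (Fin n))),
      Blk U α (fun k => P₀ + min k d) (fun k => c * k + e + 2 * (r - k)) A
        (fun k => k < v) (fun k => v ≤ k) ∧
      (∀ k, (A k).Nonempty) ∧ IsLeast {t | 1 ≤ t ∧ ∀ k, t ≤ k → A k = A t} a := by
  obtain ⟨U1, α1, c1, e1, h1⟩ := hBV v hv
  obtain ⟨U2, α2, c2, e2, h2⟩ := hBR r hr
  obtain ⟨α3, c3, e3, A3, h3⟩ := hBD d hd
  obtain ⟨U4, α4, c4, e4, h4⟩ := hBA a ha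
  have h := blk_prod hPPQP hPRC (blk_prod hPPQP hPRC (blk_prod hPPQP hPRC h1 h2) h3) h4
  have h' := hRIX (Fintype.equivFin _) _ _ _ _ _ _ _ h
  refine ⟨_, _, _, c1 + c2 + c3 + c4, e1 + e2 + e3 + e4, 5, _,
    h'.mono (fun k => ?_) (fun k => ?_) (fun k hk => ⟨⟨⟨hk, trivial⟩, trivial⟩, trivial⟩)
      (fun k hk => Or.inl (Or.inl (Or.inl hk))), ?_, ?_⟩
  · show 1 + 1 + min k d + 3 = 5 + min k d; omega
  · show c1 * k + e1 + (c2 * k + e2 + 2 * (r - k)) + (c3 * k + e3) + (c4 * k + e4) = _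
    ring
  · intro k
    exact ⟨_, _, Or.inr ⟨{0, 1}, Or.inl rfl, rfl⟩, rfl⟩
  · constructor
    · refine ⟨ha, fun k hk => ?_⟩
      have e : ({F | F = {0, 1} ∨ F = Finset.univ ∨ (k < a ∧ F = {0, 1, 2})} :
          Set (Finset (Fin 4))) = {F | F = {0, 1} ∨ F = Finset.univ ∨ (a < a ∧ F = {0, 1, 2})} := by
        ext F
        simp only [Set.mem_ofPred_eq, lt_irrefl, false_and, or_false]
        constructor
        · rintro (h | h | ⟨h, _⟩)
          · exact Or.inl h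
          · exact Or.inr h
          · omega
        · rintro (h | h)
          · exact Or.inl h
          · exact Or.inr (Or.inl h)
      simp only [e]
    · rintro t ⟨ht1, ht2⟩
      by_contra hlt
      push Not at hlt
      have hEq := ht2 a hlt.le
      set f := (Fintype.equivFin (((Fin 2 ⊕ Fin 2) ⊕ (Fin d ⊕ Fin d)) ⊕ Fin 4)).toEmbedding
      have hmem : ((({0, 1, 2} : Finset (Fin 4)).map ⟨Sum.inr, Sum.inr_injective⟩ :
          Finset (((Fin 2 ⊕ Fin 2) ⊕ (Fin d ⊕ Fin d)) ⊕ Fin 4)).map f) ∈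
          {F | ∃ G ∈ prodA (prodA (prodA ({Finset.univ} : Set (Finset (Fin 2)))
            ({Finset.univ} : Set (Finset (Fin 2)))) A3)
            ({F | F = {0, 1} ∨ F = Finset.univ ∨ (t < a ∧ F = {0, 1, 2})} :
              Set (Finset (Fin 4))), F = G.map f} :=
        ⟨_, Or.inr ⟨{0, 1, 2}, Or.inr (Or.inr ⟨hlt, rfl⟩), rfl⟩, rfl⟩
      rw [← hEq] at hmem
      obtain ⟨G, hG, hG2⟩ := hmem
      have hG3 := Finset.map_injective f hG2
      rcases hG with ⟨H, _, rfl⟩ | ⟨H, hH, rfl⟩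
      · have : (Sum.inr (0 : Fin 4) : ((Fin 2 ⊕ Fin 2) ⊕ (Fin d ⊕ Fin d)) ⊕ Fin 4) ∈
            H.map ⟨Sum.inl, Sum.inl_injective⟩ := by
          rw [← hG3]; simp
        simp at this
      · have hH2 := Finset.map_injective _ hG3
        subst hH2
        rcases hH with h | h | ⟨h, _⟩
        · revert h; decide
        · revert h; decide
        · exact lt_irrefl _ h

theorem mon_ne_bot {σ : Type} (K : Type u) [Field K] {U : Set (σ → ℕ)} [Finite σ]
    (h : U.Nonempty) : Mon K U ≠ ⊥ := by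
  obtain ⟨a, ha⟩ := h
  intro hb
  have h1 : monomial (Finsupp.equivFunOnFinite.symm a) (1 : K) ∈ Mon K U :=
    Ideal.subset_span ⟨_, by simpa using ha, rfl⟩
  rw [hb] at h1
  have h2 : monomial (Finsupp.equivFunOnFinite.symm a) (1 : K) = 0 := h1
  rw [monomial_eq_zero] at h2
  exact one_ne_zero h2

theorem isCol_nonempty {σ : Type} {U : Set (σ → ℕ)} (hU : IsUpperSet U) (hne : U.Nonempty)
    {m : σ → ℕ} {F : Finset σ} (h : IsCol U m F) : F.Nonempty := by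
  obtain ⟨a, ha⟩ := hne
  have h1 : m + a ∈ U := hU (by intro t; show a t ≤ m t + a t; omega) ha
  obtain ⟨t, ht, _⟩ := (h a).1 h1
  exact ⟨t, ht⟩

theorem col_ge {σ : Type} [Fintype σ] {U : Set (σ → ℕ)} (hU : IsUpperSet U)
    (hne : U.Nonempty) {N : ℕ} (hN : ∀ a ∈ U, N ≤ ∑ t, a t)
    {m : σ → ℕ} {F : Finset σ} (h : IsCol U m F) : N ≤ ∑ t, m t + 1 := by
  classical
  obtain ⟨t, ht⟩ := isCol_nonempty hU hne h
  have h1 : m + Pi.single t 1 ∈ U := (h _).2 ⟨t, ht, by simp⟩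
  have h2 := hN _ h1
  simpa [Finset.sum_add_distrib, Finset.sum_pi_single'] using h2

theorem cnz_le_card {σ : Type} [Fintype σ] [LinearOrder σ] {K : Type u} [Field K]
    {U : Set (σ → ℕ)} {i : ℕ} {a : σ → ℕ} (h : CNZ K U i a) : i ≤ Fintype.card σ := by
  obtain ⟨c, h1, h2, h3⟩ := h
  by_contra hlt
  push Not at hlt
  apply h3
  refine ⟨0, fun T hT => (hT rfl).elim, ?_⟩
  have : c = 0 := by
    funext T
    by_contra hT
    have := (h1 T hT).2
    have h5 := Finset.card_le_univ T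
    omega
  rw [this]
  funext T
  simp [cd]

/-- The passage to ideals. -/
theorem fina (hMPW : P_MPW.{u}) (hCOLX : P_COLX.{u}) (hASS : P_ASS.{u}) (hPOLY : P_POLY.{u})
    (hKOS : P_KOS.{u}) (hDEP : P_DEP.{u}) (K : Type u) [Field K] {n : ℕ}
    {U : Set (Fin n → ℕ)} {α c e P₀ : ℕ} {A : ℕ → Set (Finset (Fin n))} {a d r v : ℕ}
    (hd : 1 ≤ d) (hr : 1 ≤ r) (hv : 1 ≤ v)
    (hB : Blk U α (fun k => P₀ + min k d) (fun k => c * k + e + 2 * (r - k)) A
        (fun k => k < v) (fun k => v ≤ k))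
    (hA : ∀ k, (A k).Nonempty) (hAl : IsLeast {t | 1 ≤ t ∧ ∀ k, t ≤ k → A k = A t} a) :
    ∃ I : Ideal (MvPolynomial (Fin n) K), I ≠ ⊥ ∧ I ≠ ⊤ ∧ IsGraded I ∧
      IsAstab I a ∧ IsDstab I d ∧ IsRstab I r ∧ IsVstab I v := by
  have upU := hB.1
  obtain ⟨m1, _, m3⟩ := hMPW K U upU
  have upk := pw_upper upU
  have nek := pw_nonempty hB.nonempty
  have hcol : ∀ k, 1 ≤ k → ∀ m F, IsCol (Pw U k) m F → α * k ≤ ∑ t, m t + 1 := by
    intro k hk m F hF
    exact col_ge (upk k) (nek k) (fun x hx => (hB.2 k hk).2.2.1.2 ⟨x, hx, rfl⟩) hF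
  have hassk : ∀ k, 1 ≤ k → associatedPrimes (MvPolynomial (Fin n) K)
      (MvPolynomial (Fin n) K ⧸ Mon K U ^ k) = {p | ∃ F ∈ A k, p = PF K F} := by
    intro k hk
    rw [m3 k, (hASS K (Pw U k) (upk k)).1, (hB.2 k hk).2.1]
  have hinj := (hCOLX (σ := Fin n) K).2.2
  refine ⟨Mon K U, mon_ne_bot K hB.nonempty, ?_, ?_, ?_, ?_, ?_, ?_⟩
  · intro htop
    obtain ⟨F, hF⟩ := hA 1
    rw [← (hB.2 1 le_rfl).2.1, pw_one upU] at hF
    obtain ⟨m, hm⟩ := hF
    have h1 : (1 : MvPolynomial (Fin n) K) ∈ Mon K U := by rw [htop]; trivial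
    rw [m1] at h1
    have h2 : (⇑(0 : Fin n →₀ ℕ) : Fin n → ℕ) ∈ U := h1 0 (by simp)
    have h3 : m + 0 ∈ U := upU (by intro t; simp) h2
    obtain ⟨t, _, ht⟩ := (hm 0).1 h3
    simp at ht
  · intro f hf m
    rw [m1] at hf ⊢
    intro x hx
    apply hf x
    rw [mem_support_iff, coeff_homogeneousComponent] at hx
    rw [mem_support_iff]
    split_ifs at hx with h
    · exact hx
    · exact (hx rfl).elim
  · constructor
    · refine ⟨hAl.1.1, fun k hk => ?_⟩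
      rw [hassk k (hAl.1.1.trans hk), hassk a hAl.1.1, hAl.1.2 k hk]
    · rintro t ⟨ht1, ht2⟩
      apply hAl.2
      refine ⟨ht1, fun k hk => ?_⟩
      have h1 := ht2 k hk
      rw [hassk k (ht1.trans hk), hassk t ht1] at h1
      ext F
      constructor
      · intro hF
        have h2 : PF K F ∈ {p | ∃ F ∈ A k, p = PF K F} := ⟨F, hF, rfl⟩
        rw [h1] at h2
        obtain ⟨G, hG, hG2⟩ := h2
        rw [hinj F G hG2]; exact hG
      · intro hF
        have h2 : PF K F ∈ {p | ∃ F ∈ A t, p = PF K F} := ⟨F, hF, rfl⟩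
        rw [← h1] at h2
        obtain ⟨G, hG, hG2⟩ := h2
        rw [hinj F G hG2]; exact hG
  · have hle : ∀ k, 1 ≤ k → P₀ + min k d ≤ n := by
      intro k hk
      obtain ⟨x, hx⟩ := (hKOS K (Pw U k) _ _ (hB.2 k hk).1).1.1
      simpa using cnz_le_card hx
    refine ⟨fun k => n - (P₀ + min k d), fun k hk => ?_, ⟨hd, fun k hk => ?_⟩, ?_⟩
    · have hk1 := (hKOS K (Pw U k) _ _ (hB.2 k hk).1).1
      have hpk := (hPOLY K (Pw U k) (upk k) (hMPW K (Pw U k) (upk k)).1).2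
      rw [m3 k]
      have := hDEP K (Mon K (Pw U k)) (mon_ne_bot K (nek k)) (P₀ + min k d) (by
        have e1 : {i | ¬ KZ (Fin n) K (Mon K (Pw U k)) i} = {i | ∃ a, CNZ K (Pw U k) i a} := by
          ext i
          simp only [Set.mem_ofPred_eq, hpk i]
          push Not
          rfl
        rw [e1]; exact hk1)
      simpa using this
    · show n - (P₀ + min k d) = n - (P₀ + min (k + 1) d)
      rw [min_eq_right hk, min_eq_right (by omega)]
    · rintro t ⟨ht1, ht2⟩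
      by_contra hlt
      push Not at hlt
      have h1 : n - (P₀ + min (d - 1) d) = n - (P₀ + min (d - 1 + 1) d) := ht2 (d - 1) (by omega)
      have h2 := hle d hd
      rw [min_eq_left (by omega), Nat.sub_add_cancel hd, min_self] at h1
      rw [min_self] at h2
      omega
  · refine ⟨fun k => c * k + e + 2 * (r - k), c, e, fun k hk => ?_, ?_, ⟨hr, fun k hk => ?_⟩, ?_⟩
    · have hk1 := (hKOS K (Pw U k) _ _ (hB.2 k hk).1).2
      have hpk := (hPOLY K (Pw U k) (upk k) (hMPW K (Pw U k) (upk k)).1).1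
      rw [m3 k]
      have e1 : {x | ∃ i, KosNZ (Mon K (Pw U k)) i x} =
          {x | ∃ (i : ℕ) (a : Fin n → ℕ), ∑ t, a t = x + i ∧ CNZ K (Pw U k) i a} := by
        ext x
        simp only [Set.mem_ofPred_eq, hpk]
      unfold IsReg
      rw [e1]; exact hk1
    · filter_upwards [Filter.eventually_ge_atTop r] with k hk
      have : r - k = 0 := by omega
      simp [this]
    · have : r - k = 0 := by omega
      simp [this]
    · rintro t ⟨ht1, ht2⟩
      by_contra hlt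
      push Not at hlt
      have h1 := ht2 t le_rfl
      have h2 : ((c * t + e + 2 * (r - t) : ℕ) : ℤ) = c * t + e := h1
      push_cast at h2
      omega
  · set w : ℕ → ℕ := fun k => sInf {x | ∃ m F, IsCol (Pw U k) m F ∧ ∑ t, m t = x} with hw
    have hwl : ∀ k, 1 ≤ k → IsLeast {x | ∃ m F, IsCol (Pw U k) m F ∧ ∑ t, m t = x} (w k) := by
      intro k hk
      have hne : {x | ∃ m F, IsCol (Pw U k) m F ∧ ∑ t, m t = x}.Nonempty := by
        obtain ⟨F, hF⟩ := hA k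
        rw [← (hB.2 k hk).2.1] at hF
        obtain ⟨m, hm⟩ := hF
        exact ⟨_, m, F, hm, rfl⟩
      exact ⟨Nat.sInf_mem hne, fun x hx => Nat.sInf_le hx⟩
    have hhi : ∀ k, 1 ≤ k → v ≤ k → w k + 1 = α * k := by
      intro k hk hvk
      obtain ⟨m, F, hm, hs⟩ := (hB.2 k hk).2.2.2.2 hvk
      have h1 := (hwl k hk).2 ⟨m, F, hm, rfl⟩
      obtain ⟨m', F', hm', hs'⟩ := (hwl k hk).1
      have h2 := hcol k hk m' F' hm'
      omega
    have hlo : ∀ k, 1 ≤ k → k < v → α * k ≤ w k := by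
      intro k hk hvk
      obtain ⟨m', F', hm', hs'⟩ := (hwl k hk).1
      rw [← hs']
      exact (hB.2 k hk).2.2.2.1 hvk _ _ hm'
    refine ⟨w, α, fun k hk => ?_, ?_, ⟨hv, -1, fun k hk => ?_⟩, ?_⟩
    · rw [m3 k]
      exact (hASS K (Pw U k) (upk k)).2 _ (hwl k hk)
    · have h0 := (hB.2 1 le_rfl).2.2.1
      rw [pw_one upU, mul_one] at h0
      constructor
      · obtain ⟨x, hx, hx2⟩ := h0.1
        refine ⟨monomial (Finsupp.equivFunOnFinite.symm x) 1,
          Ideal.subset_span ⟨_, by simpa using hx, rfl⟩, ?_, ?_⟩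
        · rw [Ne, monomial_eq_zero]; exact one_ne_zero
        · apply isHomogeneous_monomial
          rw [Finsupp.degree_eq_sum]
          simpa using hx2
      · rintro x ⟨f, hf, hf0, hfh⟩
        obtain ⟨m, hm⟩ := support_nonempty.2 hf0
        have h1 := (m1 f).1 hf m hm
        have h2 := hfh (mem_support_iff.1 hm)
        have h3 : ∑ t, m t = x := by
          rw [← h2, Finsupp.weight_apply, Finsupp.sum_fintype _ _ (by simp)]
          simp
        rw [← h3]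
        exact h0.2 ⟨_, h1, rfl⟩
    · have := hhi k (hv.trans hk) hk
      push_cast [← this]
      omega
    · rintro t ⟨ht1, b, hb⟩
      by_contra hlt
      push Not at hlt
      have h1 := hb (v - 1) (by omega)
      have h2 := hb v (by omega)
      have h3 := hhi v hv le_rfl
      have h4 := hlo (v - 1) (by omega) (by omega)
      have h5 : (w v : ℤ) + 1 = α * v := by exact_mod_cast h3
      have h6 : b = -1 := by linarith
      rw [h6] at h1
      have h7 : (α * (v - 1) : ℕ) ≤ (w (v - 1) : ℤ) := by exact_mod_cast h4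
      push_cast at h7
      linarith

end Pool.Agent.T2H28.FS
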