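import Pool.Agent.T2H28.FS.Stm

/-! Package ASS of project FS -/

namespace Pool.Agent.T2H28.FS

open MvPolynomial

universe u

namespace PkgASS

lemma ass_iff {σ : Type} [Fintype σ] {K : Type u} [Field K] (J p : Ideal (MvPolynomial σ K)) :
    p ∈ associatedPrimes (MvPolynomial σ K) (MvPolynomial σ K ⧸ J) ↔
      p.IsPrime ∧ ∃ f : MvPolynomial σ K, ∀ g, g ∈ p ↔ g * f ∈ J := by
  rw [AssociatedPrimes.mem_iff, isAssociatedPrime_iff]
  have key : ∀ f g : MvPolynomial σ K,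
      g ∈ (⊥ : Submodule (MvPolynomial σ K) (MvPolynomial σ K ⧸ J)).colon
        {Ideal.Quotient.mk J f} ↔ g * f ∈ J := by
    intro f g
    rw [Submodule.mem_colon_singleton, Submodule.mem_bot]
    have e : g • (Ideal.Quotient.mk J f) = Ideal.Quotient.mk J (g * f) := rfl
    rw [e, Ideal.Quotient.eq_zero_iff_mem]
  constructor
  · rintro ⟨h1, x, hx⟩
    obtain ⟨f, rfl⟩ := Ideal.Quotient.mk_surjective x
    refine ⟨h1, f, fun g => ?_⟩
    rw [← key f g, ← hx]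
  · rintro ⟨h1, f, hf⟩
    refine ⟨h1, Ideal.Quotient.mk J f, ?_⟩
    ext g
    rw [key f g, hf]

lemma hom_deg {σ : Type} [Fintype σ] {K : Type u} [Field K] {f : MvPolynomial σ K} {e : ℕ}
    (h : f.IsHomogeneous e) {m : σ →₀ ℕ} (hm : m ∈ f.support) : ∑ t, m t = e := by
  have h1 := h (mem_support_iff.1 hm)
  have h2 : Finsupp.degree m = (Finsupp.weight (1 : σ → ℕ)) m := by
    rw [Finsupp.degree_eq_weight_one]
    rfl
  rw [← h1, ← h2, Finsupp.degree_eq_sum]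

lemma mono_hom {σ : Type} [Fintype σ] (K : Type u) [Field K] (m : σ → ℕ) :
    (monomial (Finsupp.equivFunOnFinite.symm m) (1 : K)).IsHomogeneous (∑ t, m t) := by
  apply isHomogeneous_monomial
  rw [Finsupp.degree_eq_sum]
  rfl

end PkgASS

open PkgASS in
theorem T_ASS (hMPW : P_MPW.{u}) (hPRM : P_PRM.{u}) (hCOLX : P_COLX.{u}) : P_ASS.{u} := by
  intro σ _ _ K _ U hU
  obtain ⟨hm, -, -⟩ := hMPW K U hU
  obtain ⟨hc1, hc2, -⟩ := hCOLX (σ := σ) K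
  have hfun : ∀ m : σ → ℕ, (⇑(Finsupp.equivFunOnFinite.symm m) : σ → ℕ) = m := fun m => rfl
  have hass : associatedPrimes (MvPolynomial σ K) (MvPolynomial σ K ⧸ Mon K U) =
        {p | ∃ F ∈ AssU U, p = PF K F} := by
    ext p
    rw [ass_iff]
    constructor
    · rintro ⟨hp, f, hf⟩
      obtain ⟨m, -, F, hF, hpF⟩ := hPRM K U hU hm p f hp hf
      exact ⟨F, ⟨⇑m, hF⟩, hpF⟩
    · rintro ⟨F, ⟨m, hmF⟩, rfl⟩
      exact ⟨hc2 F, monomial (Finsupp.equivFunOnFinite.symm m) 1,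
        hc1 U hU hm (Finsupp.equivFunOnFinite.symm m) F (by rw [hfun]; exact hmF)⟩
  refine ⟨hass, ?_⟩
  rintro v ⟨⟨m, F, hmF, hv⟩, hlow⟩
  refine ⟨⟨PF K F, ?_, monomial (Finsupp.equivFunOnFinite.symm m) 1, ?_, ?_⟩, ?_⟩
  · rw [hass]
    exact ⟨F, ⟨m, hmF⟩, rfl⟩
  · rw [← hv]
    exact mono_hom K m
  · exact hc1 U hU hm (Finsupp.equivFunOnFinite.symm m) F (by rw [hfun]; exact hmF)
  · rintro e ⟨p, hp, f, hfe, hf⟩
    have hpp := ((ass_iff _ _).1 hp).1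
    obtain ⟨m', hm', F', hF', -⟩ := hPRM K U hU hm p f hpp hf
    exact hlow ⟨⇑m', F', hF', hom_deg hfe hm'⟩

end Pool.Agent.T2H28.FS
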