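import Pool.Agent.T2H28.FS.Stm

/-!
# Package COL2: colons in two variables
-/

set_option autoImplicit false

namespace Pool.Agent.T2H28.FS

open MvPolynomial

theorem COL2_ex (E : Set ℕ) (N e e' : ℕ) (he : e ∈ E) (he' : e' ∈ E) (hlt : e < e')
    (hN : e' ≤ N) (hc : ∀ f ∈ E, ¬ (e < f ∧ f < e')) :
    IsCol (U2 E N) ![N - e - 1, e' - 1] Finset.univ := by
  intro w
  constructor
  · rintro ⟨f, hf, h1, h2⟩
    by_contra hcon
    push Not at hcon
    have w0 := hcon 0 (Finset.mem_univ _)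
    have w1 := hcon 1 (Finset.mem_univ _)
    have h1' : N - f ≤ (N - e - 1) + w 0 := h1
    have h2' : f ≤ (e' - 1) + w 1 := h2
    exact hc f hf ⟨by omega, by omega⟩
  · rintro ⟨t, -, ht⟩
    fin_cases t
    · have ht' : 1 ≤ w 0 := ht
      refine ⟨e, he, ?_, ?_⟩
      · show N - e ≤ (N - e - 1) + w 0
        omega
      · show e ≤ (e' - 1) + w 1
        omega
    · have ht' : 1 ≤ w 1 := ht
      refine ⟨e', he', ?_, ?_⟩
      · show N - e' ≤ (N - e - 1) + w 0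
        omega
      · show e' ≤ (e' - 1) + w 1
        omega

theorem COL2_str (E : Set ℕ) (N : ℕ) (h0 : 0 ∈ E) (hNE : N ∈ E)
    (m : Fin 2 → ℕ) (F : Finset (Fin 2)) (hF : IsCol (U2 E N) m F) :
    F = Finset.univ ∧ ∃ e ∈ E, ∃ e' ∈ E, e < e' ∧ N = e + m 0 + 1 ∧ e' = m 1 + 1 := by
  have hm : ¬ ∃ e ∈ E, N - e ≤ m 0 ∧ e ≤ m 1 := by
    rintro ⟨e, he, h1, h2⟩
    have : m + 0 ∈ U2 E N := ⟨e, he, by show N - e ≤ m 0 + 0; omega, by show e ≤ m 1 + 0; omega⟩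
    obtain ⟨t, -, ht⟩ := (hF 0).1 this
    have : (0 : Fin 2 → ℕ) t = 0 := rfl
    omega
  have f0 : (0 : Fin 2) ∈ F := by
    have h1 : m + ![N, 0] ∈ U2 E N :=
      ⟨0, h0, by show N - 0 ≤ m 0 + N; omega, by show 0 ≤ m 1 + 0; omega⟩
    obtain ⟨t, ht, ht'⟩ := (hF _).1 h1
    fin_cases t
    · exact ht
    · have : 1 ≤ (0 : ℕ) := ht'
      omega
  have f1 : (1 : Fin 2) ∈ F := by
    have h1 : m + ![0, N] ∈ U2 E N :=
      ⟨N, hNE, by show N - N ≤ m 0 + 0; omega, by show N ≤ m 1 + N; omega⟩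
    obtain ⟨t, ht, ht'⟩ := (hF _).1 h1
    fin_cases t
    · have : 1 ≤ (0 : ℕ) := ht'
      omega
    · exact ht
  refine ⟨?_, ?_⟩
  · ext t
    fin_cases t
    · exact ⟨fun _ => Finset.mem_univ _, fun _ => f0⟩
    · exact ⟨fun _ => Finset.mem_univ _, fun _ => f1⟩
  · have h1 : m + ![1, 0] ∈ U2 E N := (hF _).2 ⟨0, f0, le_rfl⟩
    have h2 : m + ![0, 1] ∈ U2 E N := (hF _).2 ⟨1, f1, le_rfl⟩
    obtain ⟨e, he, g1, g2⟩ := h1
    obtain ⟨e', he', g3, g4⟩ := h2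
    have g1' : N - e ≤ m 0 + 1 := g1
    have g2' : e ≤ m 1 + 0 := g2
    have g3' : N - e' ≤ m 0 + 0 := g3
    have g4' : e' ≤ m 1 + 1 := g4
    have k1 : ¬ N - e ≤ m 0 := fun h => hm ⟨e, he, h, by omega⟩
    have k2 : ¬ e' ≤ m 1 := fun h => hm ⟨e', he', by omega, h⟩
    exact ⟨e, he, e', he', by omega, by omega, by omega⟩

theorem T_COL2 : P_COL2 := by
  classical
  intro E N hN h0 hNE hE
  refine ⟨?_, ⟨?_, ?_⟩, ?_, ?_⟩
  · ext F
    constructor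
    · rintro ⟨m, hm⟩
      exact (COL2_str E N h0 hNE m F hm).1
    · intro hF
      have hF' : F = Finset.univ := hF
      subst hF'
      have p1 : Nat.findGreatest (· ∈ E) (N - 1) ∈ E :=
        Nat.findGreatest_spec (P := (· ∈ E)) (Nat.zero_le _) h0
      have p2 : Nat.findGreatest (· ∈ E) (N - 1) ≤ N - 1 := Nat.findGreatest_le _
      have p3 : ∀ f ∈ E, f ≤ N - 1 → f ≤ Nat.findGreatest (· ∈ E) (N - 1) :=
        fun f hf hf' => Nat.le_findGreatest hf' hf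
      refine ⟨_, COL2_ex E N _ N p1 hNE (by omega) le_rfl ?_⟩
      rintro f hf ⟨h1, h2⟩
      have := p3 f hf (by omega)
      omega
  · exact ⟨![N, 0], ⟨0, h0, by show N - 0 ≤ N; omega, le_rfl⟩, by
      rw [Fin.sum_univ_two]; rfl⟩
  · rintro m ⟨a, ⟨e, he, h1, h2⟩, rfl⟩
    rw [Fin.sum_univ_two]
    omega
  · intro hgap m F hF
    obtain ⟨-, e, he, e', he', h1, h2, h3⟩ := COL2_str E N h0 hNE m F hF
    have := hgap e he e' he' h1
    rw [Fin.sum_univ_two]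
    omega
  · rintro ⟨e, he, he'⟩
    have hN' := hE _ he'
    refine ⟨_, _, COL2_ex E N e (e + 1) he he' (by omega) hN' (fun f _ => by omega), ?_⟩
    rw [Fin.sum_univ_two]
    show (N - e - 1) + (e + 1 - 1) + 1 = N
    omega

end Pool.Agent.T2H28.FS
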