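import Pool.Agent.T2H28.FS.Stm

/-! Package COLA of project FS -/

namespace Pool.Agent.T2H28.FS

open MvPolynomial

universe u

private theorem cola_le {m v : Fin 4 → ℕ} (h0 : m 0 ≤ v 0) (h1 : m 1 ≤ v 1) (h2 : m 2 ≤ v 2) (h3 : m 3 ≤ v 3) :
    m ≤ v := by
  intro t
  fin_cases t
  · exact h0
  · exact h1
  · exact h2
  · exact h3

theorem T_COLA (hJA2 : P_JA2) : P_COLA := by
  intro a k ha hk hup hss
  obtain ⟨hA, hB, hC, hD, hE, hF, hG⟩ := hJA2 a k ha hk
  obtain ⟨q, hq⟩ : ∃ q, q = (a + 2) * k := ⟨_, rfl⟩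
  have hq1 : 1 ≤ q := by rw [hq]; exact Nat.mul_pos (by omega) hk
  have hq2 : 2 * (a + 2) * k = 2 * q := by rw [hq]; ring
  rw [hq2] at hA hB hE
  rw [← hq] at hD hF
  have hW : ∀ m : Fin 4 → ℕ, m ∈ WA a k ↔ m ∈ Pw (JA (a + 2)) k ∧ 2 * q ≤ m 0 + m 1 + m 2 + m 3 := by
    intro m
    change (m ∈ Pw (JA (a + 2)) k ∧ 2 * (a + 2) * k ≤ ∑ t, m t) ↔ _
    rw [hq2, Fin.sum_univ_four]
  ext F
  constructor
  · rintro ⟨m, hm⟩
    -- initial segment
    have hinit : ∀ s t : Fin 4, s < t → t ∈ F → s ∈ F := by
      intro s t hst ht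
      have h1 : m + Pi.single t 1 ∈ WA a k := (hm _).2 ⟨t, ht, by simp⟩
      have h2 := hss _ h1 s t hst (by simp)
      have h3 : m + Pi.single t 1 - Pi.single t 1 = m := add_tsub_cancel_right m _
      rw [h3] at h2
      obtain ⟨f, hf, hw⟩ := (hm _).1 h2
      by_cases hfs : f = s
      · rwa [← hfs]
      · rw [Pi.single_eq_of_ne hfs] at hw
        omega
    have h1F : (1 : Fin 4) ∈ F := by
      have h1 : m + ![0, 2 * q, 0, 0] ∈ WA a k := by
        rw [hW]
        refine ⟨hE _ (by simp), ?_⟩
        simp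
        omega
      obtain ⟨f, hf, hw⟩ := (hm _).1 h1
      fin_cases f
      · simp at hw
      · exact hf
      · simp at hw
      · simp at hw
    have h0F : (0 : Fin 4) ∈ F := hinit 0 1 (by decide) h1F
    by_cases h3F : (3 : Fin 4) ∈ F
    · have h2F : (2 : Fin 4) ∈ F := hinit 2 3 (by decide) h3F
      right; left
      ext t
      simp only [Finset.mem_univ, iff_true]
      fin_cases t
      · exact h0F
      · exact h1F
      · exact h2F
      · exact h3F
    · by_cases h2F : (2 : Fin 4) ∈ F
      · right; right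
        have hFe : F = {0, 1, 2} := by
          ext t
          fin_cases t
          · simpa using h0F
          · simpa using h1F
          · simpa using h2F
          · simpa using h3F
        refine ⟨?_, hFe⟩
        by_contra hka
        push Not at hka
        have h1 : m + ![0, 0, 1, 2 * q] ∈ WA a k := (hm _).2 ⟨2, h2F, by simp⟩
        have h2 := hA _ ((hW _).1 h1).1
        simp only [Pi.add_apply] at h2
        have h3 : m + ![0, 0, 0, 2 * q + 1] ∈ WA a k := by
          rw [hW]
          refine ⟨hB hka _ ?_, ?_⟩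
          · simp at h2 ⊢
            omega
          · simp
            omega
        obtain ⟨f, hf, hw⟩ := (hm _).1 h3
        fin_cases f
        · simp at hw
        · simp at hw
        · simp at hw
        · exact h3F hf
      · left
        ext t
        fin_cases t
        · simpa using h0F
        · simpa using h1F
        · simpa using h2F
        · simpa using h3F
  · rintro (rfl | rfl | ⟨hka, rfl⟩)
    · refine ⟨![q - 1, 1, 0, 2 * q], fun w => ?_⟩
      have hex : (∃ t ∈ ({0, 1} : Finset (Fin 4)), 1 ≤ w t) ↔ 1 ≤ w 0 ∨ 1 ≤ w 1 := by simp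
      rw [hex, hW]
      constructor
      · rintro ⟨h1, -⟩
        have h2 := hA _ h1
        simp at h2
        omega
      · intro h1
        constructor
        · by_cases h0 : 1 ≤ w 0
          · refine hD _ ?_
            simp
            omega
          · refine hF _ ?_ ?_
            · simp
              omega
            · simp
              omega
        · simp
          omega
    · refine ⟨![2 * q - 1, 0, 0, 0], fun w => ?_⟩
      have hex : (∃ t ∈ (Finset.univ : Finset (Fin 4)), 1 ≤ w t) ↔
          1 ≤ w 0 ∨ 1 ≤ w 1 ∨ 1 ≤ w 2 ∨ 1 ≤ w 3 := by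
        simp [Fin.exists_fin_succ]
      rw [hex, hW]
      constructor
      · rintro ⟨-, h1⟩
        simp at h1
        omega
      · intro h1
        constructor
        · refine hD _ ?_
          simp
          omega
        · simp
          omega
    · obtain ⟨c0, c1, c2, c3⟩ := hC hka (2 * q)
      refine ⟨![(a + 2) * (k - 1) + 2, 2 * a, 0, 2 * q], fun w => ?_⟩
      have hex : (∃ t ∈ ({0, 1, 2} : Finset (Fin 4)), 1 ≤ w t) ↔ 1 ≤ w 0 ∨ 1 ≤ w 1 ∨ 1 ≤ w 2 := by simp
      rw [hex]
      constructor
      · intro h1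
        by_contra hc
        push Not at hc
        obtain ⟨z0, z1, z2⟩ := hc
        have h2 := ((hW _).1 h1).1
        refine c0 (hG _ _ ?_ ?_ ?_ h2)
        · simp
          omega
        · simp
          omega
        · simp
          omega
      · rintro (h1 | h1 | h1)
        · refine hup (a := ![(a + 2) * (k - 1) + 3, 2 * a, 0, 2 * q]) (cola_le ?_ ?_ ?_ ?_) ((hW _).2 ⟨c1, ?_⟩) <;>
            simp <;> omega
        · refine hup (a := ![(a + 2) * (k - 1) + 2, 2 * a + 1, 0, 2 * q]) (cola_le ?_ ?_ ?_ ?_) ((hW _).2 ⟨c2, ?_⟩) <;>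
            simp <;> omega
        · refine hup (a := ![(a + 2) * (k - 1) + 2, 2 * a, 1, 2 * q]) (cola_le ?_ ?_ ?_ ?_) ((hW _).2 ⟨c3, ?_⟩) <;>
            simp <;> omega

end Pool.Agent.T2H28.FS
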