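import Pool.Agent.T2H28.FS.Stm

namespace Pool.Agent.T2H28.FS

open MvPolynomial

noncomputable section

universe u

private abbrev SD (d k : ℕ) : Set (Fin d ⊕ Fin d → ℕ) :=
  {a | ∀ s t : Fin d, s ≤ t → k ≤ a (Sum.inl s) + a (Sum.inr t) / 2}

/-- a violated pair determines the colon -/
private theorem cold_viol {d k : ℕ} {m : Fin d ⊕ Fin d → ℕ} {F : Finset (Fin d ⊕ Fin d)}
    (h : IsCol (SD d k) m F) {s t : Fin d} (hst : s ≤ t) (hv : m (Sum.inl s) + m (Sum.inr t) / 2 < k) :
    F = {Sum.inl s, Sum.inr t} := by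
  have hsub : ∀ f ∈ F, f = Sum.inl s ∨ f = Sum.inr t := by
    intro f hf
    by_contra hne
    push Not at hne
    have h1 := (h (Pi.single f 1)).2 ⟨f, hf, by simp⟩
    have h2 := h1 s t hst
    simp only [Pi.add_apply, Pi.single_eq_of_ne hne.1.symm, Pi.single_eq_of_ne hne.2.symm, add_zero] at h2
    omega
  have hl : Sum.inl s ∈ F := by
    have h1 : m + (Sum.elim (fun _ => k) (fun _ => 0)) ∈ SD d k := by
      intro x y _
      simp only [Pi.add_apply, Sum.elim_inl]
      omega
    obtain ⟨f, hf, hw⟩ := (h _).1 h1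
    rcases hsub f hf with rfl | rfl
    · exact hf
    · simp at hw
  have hr : Sum.inr t ∈ F := by
    have h1 : m + (Sum.elim (fun _ => 0) (fun _ => 2 * k)) ∈ SD d k := by
      intro x y _
      simp only [Pi.add_apply, Sum.elim_inl, Sum.elim_inr]
      omega
    obtain ⟨f, hf, hw⟩ := (h _).1 h1
    rcases hsub f hf with rfl | rfl
    · simp at hw
    · exact hf
  ext f
  simp only [Finset.mem_insert, Finset.mem_singleton]
  constructor
  · exact hsub f
  · rintro (rfl | rfl)
    · exact hl
    · exact hr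

private theorem cold_struct {d k : ℕ} {m : Fin d ⊕ Fin d → ℕ} {F : Finset (Fin d ⊕ Fin d)}
    (h : IsCol (SD d k) m F) : ∃ s t : Fin d, s ≤ t ∧ F = {Sum.inl s, Sum.inr t} ∧
      m (Sum.inl s) + m (Sum.inr t) / 2 < k ∧ k ≤ m (Sum.inl s) + (m (Sum.inr t) + 1) / 2 := by
  have h0 : m ∉ SD d k := by
    intro h1
    have h2 : m + 0 ∈ SD d k := by rwa [add_zero]
    obtain ⟨f, _, hw⟩ := (h 0).1 h2
    simp at hw
  have h1 : ∃ s t : Fin d, s ≤ t ∧ m (Sum.inl s) + m (Sum.inr t) / 2 < k := by
    by_contra hc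
    push Not at hc
    exact h0 hc
  obtain ⟨s, t, hst, hv⟩ := h1
  have hF := cold_viol h hst hv
  refine ⟨s, t, hst, hF, hv, ?_⟩
  have h2 := (h (Pi.single (Sum.inr t) 1)).2 ⟨Sum.inr t, by rw [hF]; simp, by simp⟩ s t hst
  simpa [Pi.add_apply, Pi.single_apply] using h2

private theorem cold_exists {d k : ℕ} (hk : 1 ≤ k) (s t : Fin d) (hst : s ≤ t) :
    IsCol (SD d k) (Sum.elim (fun x => if x = s then k - 1 else k) (fun y => if y = t then 1 else 2))
      {Sum.inl s, Sum.inr t} := by
  intro w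
  have hex : (∃ f ∈ ({Sum.inl s, Sum.inr t} : Finset (Fin d ⊕ Fin d)), 1 ≤ w f) ↔
      1 ≤ w (Sum.inl s) ∨ 1 ≤ w (Sum.inr t) := by
    simp
  rw [hex]
  constructor
  · intro h1
    have h2 := h1 s t hst
    simp only [Pi.add_apply, Sum.elim_inl, Sum.elim_inr, if_true] at h2
    omega
  · intro h1 x y hxy
    simp only [Pi.add_apply, Sum.elim_inl, Sum.elim_inr]
    by_cases hx : x = s
    · subst hx
      by_cases hy : y = t
      · subst hy
        simp only [if_true]
        omega
      · simp only [if_true, if_neg hy]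
        omega
    · simp only [if_neg hx]
      omega

theorem T_COLD : P_COLD := by
  intro d k hd hk
  refine ⟨?_, ⟨?_, ?_⟩, ?_⟩
  · ext F
    constructor
    · rintro ⟨m, hm⟩
      obtain ⟨s, t, hst, hF, -, -⟩ := cold_struct (d := d) (k := k) hm
      exact ⟨s, t, hst, hF⟩
    · rintro ⟨s, t, hst, rfl⟩
      exact ⟨_, cold_exists hk s t hst⟩
  · refine ⟨Sum.elim (fun _ => k) (fun _ => 0), fun s t _ => by simp, ?_⟩
    simp [Fintype.sum_sum_type]
  · rintro m ⟨a, ha, rfl⟩
    rw [Fintype.sum_sum_type, ← Finset.sum_add_distrib]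
    calc d * k = ∑ _x : Fin d, k := by simp
      _ ≤ ∑ x : Fin d, (a (Sum.inl x) + a (Sum.inr x)) := Finset.sum_le_sum fun x _ => by
          have := ha x x le_rfl
          omega
  · intro m F h
    obtain ⟨s, t, hst, hF, hv, hv'⟩ := cold_struct (d := d) (k := k) h
    rw [Fintype.sum_sum_type, ← Finset.sum_add_distrib]
    calc d * k = ∑ _x : Fin d, k := by simp
      _ ≤ ∑ x : Fin d, (m (Sum.inl x) + m (Sum.inr x)) := Finset.sum_le_sum fun x _ => by
          by_cases hx : m (Sum.inl x) + m (Sum.inr x) / 2 < k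
          · have hF' := cold_viol (d := d) (k := k) h (le_refl x) hx
            rw [hF] at hF'
            have h1 : Sum.inl s ∈ ({Sum.inl x, Sum.inr x} : Finset (Fin d ⊕ Fin d)) := by
              rw [← hF']; simp
            have h2 : Sum.inr t ∈ ({Sum.inl x, Sum.inr x} : Finset (Fin d ⊕ Fin d)) := by
              rw [← hF']; simp
            have h3 : s = x := by simpa using h1
            have h4 : t = x := by simpa using h2
            subst h3
            subst h4
            omega
          · omega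

end

end Pool.Agent.T2H28.FS
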