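import Pool.Agent.T2H28.FS.Stm

/-! Package COLX of project FS -/

namespace Pool.Agent.T2H28.FS

open MvPolynomial

universe u

namespace PkgCOLX

variable {σ : Type} (K : Type u) [Field K]

open scoped Classical in
/-- the map sending the variables in `F` to zero -/
noncomputable def phi (F : Finset σ) : MvPolynomial σ K →ₐ[K] MvPolynomial σ K :=
  aeval (fun t => if t ∈ F then 0 else X t)

lemma ker_phi (F : Finset σ) : PF K F = RingHom.ker (phi K F) := by
  classical
  apply le_antisymm
  · unfold PF
    rw [Ideal.span_le]
    rintro _ ⟨t, ht, rfl⟩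
    have ht' : t ∈ F := ht
    show X t ∈ RingHom.ker (phi K F)
    rw [RingHom.mem_ker]
    unfold phi
    rw [aeval_X, if_pos ht']
  · intro g hg
    rw [RingHom.mem_ker] at hg
    have h1 : ∀ g : MvPolynomial σ K, Ideal.Quotient.mkₐ K (PF K F) (phi K F g) =
        Ideal.Quotient.mkₐ K (PF K F) g := by
      intro g
      have h2 : (Ideal.Quotient.mkₐ K (PF K F)).comp (phi K F) =
          Ideal.Quotient.mkₐ K (PF K F) := by
        apply MvPolynomial.algHom_ext
        intro t
        rw [AlgHom.comp_apply]
        unfold phi
        rw [aeval_X]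
        split_ifs with ht
        · rw [map_zero]
          symm
          rw [Ideal.Quotient.mkₐ_eq_mk, Ideal.Quotient.eq_zero_iff_mem]
          exact Ideal.subset_span ⟨t, ht, rfl⟩
        · rfl
      exact AlgHom.congr_fun h2 g
    have h2 := h1 g
    rw [hg, map_zero] at h2
    rw [← Ideal.Quotient.eq_zero_iff_mem]
    exact h2.symm

end PkgCOLX

open PkgCOLX in
theorem T_COLX : P_COLX.{u} := by
  classical
  intro σ _ K _
  refine ⟨?_, ?_, ?_⟩
  · intro U hU hm m F hF g
    unfold PF
    rw [mem_ideal_span_X_image, hm]
    constructor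
    · intro h n hn
      rw [mem_support_iff, coeff_mul_monomial'] at hn
      split_ifs at hn with hmn
      · rw [mul_one] at hn
        obtain ⟨t, ht, ht2⟩ := h (n - m) (mem_support_iff.2 hn)
        have h1 := (hF (⇑(n - m))).2 ⟨t, ht, Nat.one_le_iff_ne_zero.2 ht2⟩
        have e : (⇑m + ⇑(n - m) : σ → ℕ) = ⇑n := by
          rw [← Finsupp.coe_add, add_tsub_cancel_of_le hmn]
        rwa [e] at h1
      · exact absurd rfl hn
    · intro h w hw
      have h1 := h (w + m) (by
        rw [mem_support_iff, coeff_mul_monomial, mul_one]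
        exact mem_support_iff.1 hw)
      rw [Finsupp.coe_add, add_comm] at h1
      obtain ⟨t, ht, ht2⟩ := (hF (⇑w)).1 h1
      exact ⟨t, ht, by omega⟩
  · intro F
    rw [ker_phi]
    exact RingHom.ker_isPrime (phi K F)
  · intro F G hFG
    have key : ∀ (F : Finset σ) (t : σ), (X t : MvPolynomial σ K) ∈ PF K F ↔ t ∈ F := by
      intro F t
      unfold PF
      rw [mem_ideal_span_X_image]
      have hs : (X t : MvPolynomial σ K).support = {Finsupp.single t 1} := support_X
      rw [hs]
      simp only [Finset.mem_singleton, forall_eq]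
      constructor
      · rintro ⟨i, hi, hi2⟩
        rw [Finsupp.single_apply] at hi2
        split_ifs at hi2 with hti
        · rw [hti]; exact hi
        · exact absurd rfl hi2
      · intro ht
        exact ⟨t, ht, by simp⟩
    ext t
    rw [← key F t, hFG, key G t]

end Pool.Agent.T2H28.FS
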