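import Pool.Agent.T2H28.FS.Stm

/-! Package DEP of project FS -/

namespace Pool.Agent.T2H28.FS

open MvPolynomial

universe u

namespace DEPx

variable {σ : Type} [Fintype σ] [LinearOrder σ] (K : Type u) [Field K]

theorem notOne (r : MvPolynomial σ K) (h : r - 1 ∈ mm σ K) : r ≠ 0 := by
  rintro rfl
  have h1 : mm σ K ≤ RingHom.ker (constantCoeff : MvPolynomial σ K →+* K) := by
    unfold mm
    rw [Ideal.span_le]
    rintro _ ⟨t, rfl⟩
    simp [RingHom.mem_ker]
  have h2 := h1 h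
  rw [RingHom.mem_ker] at h2
  simp at h2

theorem kzbig (J : Ideal (MvPolynomial σ K)) (i : ℕ) (hi : Fintype.card σ < i) : KZ σ K J i := by
  intro c hc _
  refine ⟨fun _ => 0, fun _ _ => rfl, ?_⟩
  funext T
  rw [hc T (by have := Finset.card_le_univ T; omega)]
  simp [kd]

theorem reg (J : Ideal (MvPolynomial σ K)) (hJ : J ≠ ⊥) (rs : List (MvPolynomial σ K))
    (hrs : ∀ r ∈ rs, r ∈ mm σ K) (h : RingTheory.Sequence.IsWeaklyRegular J rs) :
    RingTheory.Sequence.IsRegular J rs := by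
  refine ⟨h, fun htop => ?_⟩
  have hle : Ideal.ofList rs ≤ mm σ K := by
    unfold Ideal.ofList
    rw [Ideal.span_le]
    intro r hr
    exact hrs r hr
  have hle2 : (⊤ : Submodule (MvPolynomial σ K) J) ≤ mm σ K • ⊤ := by
    calc (⊤ : Submodule (MvPolynomial σ K) J) = Ideal.ofList rs • ⊤ := htop
      _ ≤ mm σ K • ⊤ := Submodule.smul_mono_left hle
  have hfg : (⊤ : Submodule (MvPolynomial σ K) J).FG := IsNoetherian.noetherian _
  obtain ⟨r, hr, hr'⟩ := Submodule.exists_sub_one_mem_and_smul_eq_zero_of_fg_of_le_smul _ _ hfg hle2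
  obtain ⟨j, hj, hj0⟩ := Submodule.exists_mem_ne_zero_of_ne_bot hJ
  have h1 := hr' ⟨j, hj⟩ trivial
  have h2 : r * j = 0 := by
    have := congrArg Subtype.val h1
    simpa using this
  rcases mul_eq_zero.mp h2 with h3 | h3
  · exact notOne K r hr h3
  · exact hj0 h3

end DEPx

theorem T_DEP (hDU : P_DU.{u}) (hDL : P_DL.{u}) : P_DEP.{u} := by
  intro σ _ _ K _ J hJ P hP
  have hPn : P ≤ Fintype.card σ := by
    by_contra hlt
    exact hP.1 (DEPx.kzbig K J P (by omega))
  constructor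
  · obtain ⟨rs, hlen, hrs, hreg⟩ := hDL (σ := σ) K J inferInstance (Fintype.card σ - P) (Nat.sub_le _ _) (fun i hi => by
      by_contra hnot
      have := hP.2 hnot
      omega)
    exact ⟨rs, hlen, hrs, DEPx.reg K J hJ rs hrs hreg⟩
  · rintro l ⟨rs, hlen, hrs, hreg⟩
    by_contra hlt
    have h1 : KZ σ K J P := hDU K J rs hrs hreg.toIsWeaklyRegular P (by omega)
    exact hP.1 h1

end Pool.Agent.T2H28.FS
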