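import Pool.Agent.T2H28.FS.T_DU

/-! Package DL of project FS -/

namespace Pool.Agent.T2H28.FS

open MvPolynomial

universe u

namespace DLx

variable {σ : Type} [Fintype σ] [LinearOrder σ] (K : Type u) [Field K]
variable {M : Type u} [AddCommGroup M] [Module (MvPolynomial σ K) M]
variable {N : Type u} [AddCommGroup N] [Module (MvPolynomial σ K) N]

theorem soc (hKZ : KZ σ K M (Fintype.card σ)) (x : M) (hx : ∀ t : σ, (X t : MvPolynomial σ K) • x = 0) :
    x = 0 := by
  classical
  obtain ⟨b, hb, hb'⟩ := hKZ (fun T => if T = Finset.univ then x else 0)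
    (fun T hT => by
      rw [if_neg]
      rintro rfl
      exact hT Finset.card_univ)
    (by
      funext T
      simp only [kd]
      apply Finset.sum_eq_zero
      intro t _
      split_ifs with h
      · rw [hx t]; simp
      · simp)
  have h0 : b = 0 := by
    funext T
    exact hb T (by have := Finset.card_le_univ T; omega)
  have h1 := congrFun hb' Finset.univ
  simp only [if_true] at h1
  rw [← h1, h0]
  simp [kd]

theorem exreg [Module.Finite (MvPolynomial σ K) M] (hKZ : KZ σ K M (Fintype.card σ)) :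
    ∃ y ∈ mm σ K, IsSMulRegular M y := by
  by_contra hcon
  push Not at hcon
  have hsub : ((mm σ K : Ideal (MvPolynomial σ K)) : Set (MvPolynomial σ K)) ⊆
      ⋃ p ∈ associatedPrimes (MvPolynomial σ K) M, ((fun q : Ideal (MvPolynomial σ K) => q) p : Set (MvPolynomial σ K)) := by
    rw [biUnion_associatedPrimes_eq_compl_regular (MvPolynomial σ K) M]
    intro y hy
    exact hcon y hy
  obtain ⟨p, hp, hle⟩ := (Ideal.subset_union_prime_finite (associatedPrimes.finite (MvPolynomial σ K) M)
    (f := fun q : Ideal (MvPolynomial σ K) => q) ⊥ ⊥ (fun q hq _ _ => IsAssociatedPrime.isPrime hq)).mp hsub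
  have hp' : IsAssociatedPrime p M := hp
  obtain ⟨hprime, x, hx⟩ := isAssociatedPrime_iff.mp hp'
  have hx0 : x = 0 := by
    apply soc K hKZ x
    intro t
    have h1 : (X t : MvPolynomial σ K) ∈ p := hle (Ideal.subset_span ⟨t, rfl⟩)
    rw [hx] at h1
    simpa using h1
  apply hprime.ne_top
  rw [hx, hx0, Ideal.eq_top_iff_one]
  simp

theorem step (hSGN : P_SGN.{u}) (y : MvPolynomial σ K) (hy : IsSMulRegular M y)
    (π : M →ₗ[MvPolynomial σ K] N) (hπ : DUx.IsQ K y π) (i : ℕ)
    (h1 : KZ σ K M i) (h2 : KZ σ K M (i + 1)) : KZ σ K N (i + 1) := by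
  intro c' hc' hz'
  obtain ⟨c, hc, hcc⟩ := DUx.lift K π hπ.1 c' (i + 1) hc'
  have hcf : (fun T => π (c T)) = c' := funext hcc
  have hd : ∀ T, π (kd K c T) = 0 := by
    intro T
    have h3 := HTPx.kd_map K π c
    rw [hcf, hz'] at h3
    exact (congrFun h3 T).symm
  obtain ⟨g, hg, hg'⟩ := DUx.div K y hy π hπ (kd K c) i (HTPx.kd_supp K c i hc) hd
  have hgf : kd K c = fun T => y • g T := funext hg'
  have hgz : kd K g = 0 := by
    have h4 : kd K (kd K c) = 0 := hSGN.2.2.2 K M c
    rw [hgf, HTPx.kd_smul] at h4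
    funext T
    apply hy
    have h5 := congrFun h4 T
    simpa using h5
  obtain ⟨e, he, he'⟩ := h1 g hg hgz
  have hcz : kd K (fun T => c T - y • e T) = 0 := by
    rw [HTPx.kd_sub, HTPx.kd_smul, he', hgf]
    funext T
    simp
  obtain ⟨f, hf, hf'⟩ := h2 (fun T => c T - y • e T)
    (fun T hT => by simp only [hc T hT, he T hT, smul_zero, sub_zero]) hcz
  refine ⟨fun T => π (f T), fun T hT => by simp only [hf T hT, map_zero], ?_⟩
  rw [HTPx.kd_map K π f, hf']
  funext T
  have h6 : π (y • e T) = 0 := (hπ.2 _).mpr ⟨_, rfl⟩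
  simp only [map_sub, h6, sub_zero, hcc T]

end DLx

theorem T_DL (hSGN : P_SGN.{u}) : P_DL.{u} := by
  intro σ _ _ K _ M _ _ hfin l
  induction l generalizing M with
  | zero =>
    intro _ _
    exact ⟨[], rfl, by simp, RingTheory.Sequence.IsWeaklyRegular.nil _ _⟩
  | succ l ih =>
    intro hl hKZ
    have h0 : KZ σ K M (Fintype.card σ) := hKZ _ (by omega)
    obtain ⟨y, hym, hy⟩ := DLx.exreg K h0
    obtain ⟨π, hπ⟩ := DUx.exQ K y M
    have hfin' : Module.Finite (MvPolynomial σ K) (QuotSMulTop y M) := Module.Finite.of_surjective π hπ.1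
    obtain ⟨rs, hlen, hrs, hreg⟩ := ih (QuotSMulTop y M) hfin' (by omega) (fun i hi => by
      obtain ⟨j, rfl⟩ : ∃ j, i = j + 1 := ⟨i - 1, by omega⟩
      exact DLx.step K hSGN y hy π hπ j (hKZ j (by omega)) (hKZ (j + 1) (by omega)))
    refine ⟨y :: rs, by simp [hlen], ?_, ?_⟩
    · intro r hr
      rcases List.mem_cons.mp hr with h | h
      · rw [h]; exact hym
      · exact hrs r h
    · rw [RingTheory.Sequence.isWeaklyRegular_cons_iff]
      exact ⟨hy, hreg⟩

end Pool.Agent.T2H28.FS
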