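import Pool.Agent.T2H28.FS.Stm

/-! Package EK2 of project FS: Eliahou-Kervaire with squared variables. -/

namespace Pool.Agent.T2H28.FS

open MvPolynomial

universe u

namespace EK2

lemma sum_bump {σ : Type} [Fintype σ] (F : Finset σ) (e : σ → ℕ) :
    ∑ t, bump F e t = ∑ t ∈ F, e t := by
  classical
  simp only [bump, Finset.sum_ite_mem, Finset.univ_inter]

lemma fin_idx (n N : ℕ) (W : Set (Fin (n + 1) → ℕ)) :
    {g : Fin (n + 1) → ℕ | g ∈ W ∧ ∑ t, g t = N}.Finite := by
  refine (Set.finite_Iic (fun _ : Fin (n + 1) => N)).subset ?_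
  rintro g ⟨-, hg⟩ t
  rw [← hg]
  exact Finset.single_le_sum (f := g) (fun _ _ => Nat.zero_le _) (Finset.mem_univ t)

end EK2

open EK2 in
theorem T_EK2 : P_EK2 := by
  classical
  intro n N W hW hSS hgen hlast
  have hfin := fin_idx n N W
  refine ⟨{g : Fin (n + 1) → ℕ // g ∈ W ∧ ∑ t, g t = N}, hfin.fintype,
    LinearOrder.lift' (fun g => OrderDual.toDual (toLex g.1))
      (fun g g' h => Subtype.ext (toLex.injective (OrderDual.toDual.injective h))),
    fun g t => 2 * g.1 t, fun g => Finset.univ.filter (fun t => ∃ s, t < s ∧ 1 ≤ g.1 s),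
    fun _ _ => 2, ?_, fun _ _ _ => by norm_num, ?_, ?_, ?_, ?_, ?_, ?_⟩
  · intro a
    constructor
    · intro ha
      obtain ⟨g, hg, hga, hN⟩ := hgen _ ha
      refine ⟨⟨g, hg, hN⟩, fun t => ?_⟩
      have := hga t
      simp only at this ⊢
      omega
    · rintro ⟨⟨g, hg, hN⟩, hga⟩
      refine hW (a := g) (fun t => ?_) hg
      have := hga t
      simp only at this ⊢
      omega
  · rintro ⟨g, hg, hN⟩ w
    constructor
    · rintro ⟨⟨g', hg', hN'⟩, hlt, hle⟩
      have hlt' : toLex g < toLex g' := hlt
      obtain ⟨t, ht1, ht2⟩ := hlt'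
      have ht1' : ∀ j, j < t → g j = g' j := ht1
      have ht2' : g t < g' t := ht2
      refine ⟨t, ?_, ?_⟩
      · rw [Finset.mem_filter]
        refine ⟨Finset.mem_univ _, ?_⟩
        by_contra hno
        push Not at hno
        have h1 : ∑ s, g s < ∑ s, g' s := by
          refine Finset.sum_lt_sum (fun s _ => ?_) ⟨t, Finset.mem_univ _, ht2'⟩
          rcases lt_trichotomy s t with h | h | h
          · exact (ht1' s h).le
          · rw [h]
            exact ht2'.le
          · have h0 : g s < 1 := hno s h
            omega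
        omega
      · have h0 : 2 * g' t ≤ 2 * g t + w t := hle t
        show 2 ≤ w t
        omega
    · rintro ⟨t, ht, hw⟩
      rw [Finset.mem_filter] at ht
      obtain ⟨-, s, hts, hs⟩ := ht
      change 1 ≤ g s at hs
      change 2 ≤ w t at hw
      have hg'W := hSS g hg t s hts hs
      set g' : Fin (n + 1) → ℕ := g - Pi.single s 1 + Pi.single t 1 with hg'
      have hval : ∀ x, g' x = g x - (if x = s then 1 else 0) + (if x = t then 1 else 0) := by
        intro x
        rw [hg']
        simp only [Pi.add_apply, Pi.sub_apply, Pi.single_apply]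
      have hsum : ∑ x, g' x = N := by
        have h1 : ∑ x, (g' x + (if x = s then 1 else 0)) = ∑ x, (g x + (if x = t then 1 else 0)) := by
          refine Finset.sum_congr rfl fun x _ => ?_
          rw [hval]
          by_cases hx : x = s
          · subst hx
            simp only [if_true]
            omega
          · simp only [if_neg hx]
            omega
        rw [Finset.sum_add_distrib, Finset.sum_add_distrib] at h1
        simp at h1
        omega
      refine ⟨⟨g', hg'W, hsum⟩, ?_, ?_⟩
      · show toLex g < toLex g'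
        refine ⟨t, fun x hx => ?_, ?_⟩
        · show g x = g' x
          have hx' : x < t := hx
          rw [hval, if_neg (hx'.trans hts).ne, if_neg hx'.ne]
          omega
        · show g t < g' t
          rw [hval, if_neg hts.ne, if_pos rfl]
          omega
      · intro x
        show 2 * g' x ≤ 2 * g x + w x
        rw [hval]
        by_cases hx : x = t
        · subst hx
          rw [if_neg hts.ne, if_pos rfl]
          omega
        · rw [if_neg hx]
          omega
  · rintro ⟨g, hg, hN⟩ ⟨g', hg', hN'⟩ F G hF hG he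
    have h1 : ∑ t, ((fun t => 2 * g t) + bump F (fun _ => 2)) t =
        ∑ t, ((fun t => 2 * g' t) + bump G (fun _ => 2)) t := by
      exact congrArg (fun f : Fin (n + 1) → ℕ => ∑ t, f t) he
    simp only [Pi.add_apply, Finset.sum_add_distrib, sum_bump, ← Finset.mul_sum, hN, hN',
      Finset.sum_const, smul_eq_mul] at h1
    omega
  · intro i
    have h1 : (Finset.univ.filter (fun t => ∃ s, t < s ∧ 1 ≤ i.1 s)) ⊆
        Finset.univ.erase (Fin.last n) := by
      intro t ht
      rw [Finset.mem_filter] at ht
      obtain ⟨-, s, hts, -⟩ := ht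
      rw [Finset.mem_erase]
      exact ⟨(hts.trans_le (Fin.le_last s)).ne, Finset.mem_univ _⟩
    refine (Finset.card_le_card h1).trans ?_
    rw [Finset.card_erase_of_mem (Finset.mem_univ _)]
    simp
  · obtain ⟨g, hg, hN, hl⟩ := hlast
    refine ⟨⟨g, hg, hN⟩, ?_⟩
    have h1 : (Finset.univ.filter (fun t => ∃ s, t < s ∧ 1 ≤ g s)) =
        Finset.univ.erase (Fin.last n) := by
      ext t
      rw [Finset.mem_filter, Finset.mem_erase]
      constructor
      · rintro ⟨-, s, hts, -⟩
        exact ⟨(hts.trans_le (Fin.le_last s)).ne, Finset.mem_univ _⟩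
      · rintro ⟨ht, -⟩
        exact ⟨Finset.mem_univ _, Fin.last n, lt_of_le_of_ne (Fin.le_last t) ht, hl⟩
    show (Finset.univ.filter (fun t => ∃ s, t < s ∧ 1 ≤ g s)).card = n
    rw [h1, Finset.card_erase_of_mem (Finset.mem_univ _)]
    simp
  · rintro ⟨g, hg, hN⟩
    have h1 : (Finset.univ.filter (fun t => ∃ s, t < s ∧ 1 ≤ g s)) ⊆
        Finset.univ.erase (Fin.last n) := by
      intro t ht
      rw [Finset.mem_filter] at ht
      obtain ⟨-, s, hts, -⟩ := ht
      rw [Finset.mem_erase]
      exact ⟨(hts.trans_le (Fin.le_last s)).ne, Finset.mem_univ _⟩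
    have h2 := Finset.card_le_card h1
    rw [Finset.card_erase_of_mem (Finset.mem_univ _)] at h2
    simp only [Finset.card_univ, Fintype.card_fin] at h2
    simp only [← Finset.mul_sum, hN, Finset.sum_const, smul_eq_mul]
    omega
  · obtain ⟨g, hg, hN, hl⟩ := hlast
    refine ⟨⟨g, hg, hN⟩, ?_⟩
    have h1 : (Finset.univ.filter (fun t => ∃ s, t < s ∧ 1 ≤ g s)) =
        Finset.univ.erase (Fin.last n) := by
      ext t
      rw [Finset.mem_filter, Finset.mem_erase]
      constructor
      · rintro ⟨-, s, hts, -⟩
        exact ⟨(hts.trans_le (Fin.le_last s)).ne, Finset.mem_univ _⟩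
      · rintro ⟨ht, -⟩
        exact ⟨Finset.mem_univ _, Fin.last n, lt_of_le_of_ne (Fin.le_last t) ht, hl⟩
    simp only [← Finset.mul_sum, hN, Finset.sum_const, smul_eq_mul]
    rw [h1, Finset.card_erase_of_mem (Finset.mem_univ _)]
    simp

end Pool.Agent.T2H28.FS
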