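import Pool.Agent.T2H28.FS.Stm

/-! Package HTP of project FS -/

namespace Pool.Agent.T2H28.FS

open MvPolynomial

universe u

namespace HTPx

variable {σ : Type} [Fintype σ] [LinearOrder σ] (K : Type u) [Field K]
variable {M : Type u} [AddCommGroup M] [Module (MvPolynomial σ K) M]
variable {N : Type u} [AddCommGroup N] [Module (MvPolynomial σ K) N]

theorem kd_map (f : M →ₗ[MvPolynomial σ K] N) (c : Finset σ → M) :
    kd K (fun T => f (c T)) = fun T => f (kd K c T) := by
  funext T
  simp only [kd, map_sum, map_zsmul, map_smul]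

theorem kd_smul (y : MvPolynomial σ K) (c : Finset σ → M) :
    kd K (fun T => y • c T) = fun T => y • kd K c T := by
  have := kd_map K (LinearMap.lsmul (MvPolynomial σ K) M y) c
  simpa using this

theorem kd_add (c d : Finset σ → M) :
    kd K (fun T => c T + d T) = fun T => kd K c T + kd K d T := by
  funext T
  simp only [kd, smul_add, Finset.sum_add_distrib]

theorem kd_sub (c d : Finset σ → M) :
    kd K (fun T => c T - d T) = fun T => kd K c T - kd K d T := by
  funext T
  simp only [kd, smul_sub, Finset.sum_sub_distrib]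

theorem kd_zero : kd K (fun _ : Finset σ => (0 : M)) = 0 := by
  funext T
  simp [kd]

theorem kd_supp (c : Finset σ → M) (i : ℕ) (hc : ∀ T, T.card ≠ i + 1 → c T = 0) :
    ∀ T, T.card ≠ i → kd K c T = 0 := by
  intro T hT
  simp only [kd]
  apply Finset.sum_eq_zero
  intro t ht
  have htT : t ∉ T := by simpa using ht
  rw [hc (insert t T) (by rw [Finset.card_insert_of_notMem htT]; omega)]
  simp

/-- the homotopy of `X s` -/
noncomputable def ht (s : σ) (c : Finset σ → M) : Finset σ → M :=
  fun T => if s ∈ T then sg s (T.erase s) • c (T.erase s) else 0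

theorem ht_supp (s : σ) (c : Finset σ → M) (i : ℕ) (hc : ∀ T, T.card ≠ i → c T = 0) :
    ∀ T, T.card ≠ i + 1 → ht s c T = 0 := by
  intro T hT
  unfold ht
  split_ifs with h
  · rw [hc (T.erase s) (by rw [Finset.card_erase_of_mem h]; have := Finset.card_pos.mpr ⟨s, h⟩; omega)]
    simp
  · rfl

theorem ht_kd (hSGN : P_SGN.{u}) (s : σ) (c : Finset σ → M) (hz : kd K c = 0) :
    kd K (ht s c) = fun T => (X s : MvPolynomial σ K) • c T := by
  funext T
  by_cases hs : s ∈ T
  · set Q := T.erase s with hQ
    have hsQ : s ∉ Q := by simp [hQ]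
    have hT : T = insert s Q := by rw [hQ, Finset.insert_erase hs]
    have h0 : kd K c Q = 0 := by rw [hz]; rfl
    have hU : (Finset.univ \ Q : Finset σ) = insert s (Finset.univ \ T) := by
      ext t
      simp only [Finset.mem_sdiff, Finset.mem_univ, true_and, Finset.mem_insert, hT]
      by_cases hts : t = s
      · subst hts; simp [hsQ]
      · simp [hts]
    simp only [kd] at h0
    rw [hU, Finset.sum_insert (by simp [hs]), ← hT] at h0
    have h1 : kd K (ht s c) T = - (sg s Q • ∑ t ∈ Finset.univ \ T,
        sg t Q • ((X t : MvPolynomial σ K) • c (insert t Q))) := by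
      simp only [kd]
      rw [Finset.smul_sum, ← Finset.sum_neg_distrib]
      apply Finset.sum_congr rfl
      intro t ht'
      have htT : t ∉ T := by simpa using ht'
      have hts : t ≠ s := fun h => htT (h ▸ hs)
      have htQ : t ∉ Q := fun h => htT (by rw [hT]; exact Finset.mem_insert_of_mem h)
      have he : (insert t T).erase s = insert t Q := by
        rw [hT, Finset.insert_comm, Finset.erase_insert (by simp [hsQ, Ne.symm hts])]
      have hm : s ∈ insert t T := Finset.mem_insert_of_mem hs
      have hS := hSGN.2.1 s t Q (Ne.symm hts) hsQ htQ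
      unfold ht
      rw [if_pos hm, he, smul_comm (X t : MvPolynomial σ K) (sg s (insert t Q)) (c (insert t Q)), smul_smul]
      have h3 : sg t T * sg s (insert t Q) = - (sg s Q * sg t Q) := by
        rw [hT, hS, mul_comm]
      rw [h3, neg_smul, mul_smul]
    rw [h1]
    have h2 : ∑ t ∈ Finset.univ \ T, sg t Q • ((X t : MvPolynomial σ K) • c (insert t Q)) =
        - (sg s Q • ((X s : MvPolynomial σ K) • c T)) := by
      rw [eq_neg_iff_add_eq_zero, add_comm]; exact h0
    rw [h2, smul_neg, neg_neg, smul_smul, hSGN.1, one_smul]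
  · simp only [kd]
    rw [Finset.sum_eq_single s]
    · unfold ht
      rw [if_pos (Finset.mem_insert_self s T), Finset.erase_insert hs,
        smul_comm (X s : MvPolynomial σ K) (sg s T) (c T), smul_smul, hSGN.1, one_smul]
    · intro t ht' hts
      unfold ht
      rw [if_neg (by simp [hs, Ne.symm hts])]
      simp
    · intro h
      exact absurd (by simp [hs]) h

end HTPx

theorem T_HTP (hSGN : P_SGN.{u}) : P_HTP.{u} := by
  intro σ _ _ K _ M _ _ i c hc hz y hy
  refine Submodule.span_induction (p := fun y _ => ∃ b : Finset σ → M,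
    (∀ T, T.card ≠ i + 1 → b T = 0) ∧ kd K b = fun T => y • c T) ?_ ?_ ?_ ?_ hy
  · rintro _ ⟨s, rfl⟩
    exact ⟨HTPx.ht s c, HTPx.ht_supp s c i hc, HTPx.ht_kd K hSGN s c hz⟩
  · exact ⟨fun _ => 0, fun _ _ => rfl, by rw [HTPx.kd_zero]; funext T; simp⟩
  · rintro a b _ _ ⟨p, hp, hp'⟩ ⟨q, hq, hq'⟩
    refine ⟨fun T => p T + q T, fun T hT => by simp only [hp T hT, hq T hT, add_zero], ?_⟩
    rw [HTPx.kd_add, hp', hq']
    funext T
    rw [add_smul]
  · rintro a b _ ⟨p, hp, hp'⟩
    refine ⟨fun T => a • p T, fun T hT => by simp only [hp T hT, smul_zero], ?_⟩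
    rw [HTPx.kd_smul, hp']
    funext T
    rw [smul_eq_mul, mul_smul]

end Pool.Agent.T2H28.FS
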