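import Pool.Agent.T2H28.FS.Stm

/-! Package JA1 of project FS -/

namespace Pool.Agent.T2H28.FS

open MvPolynomial

universe u

theorem T_JA1 : P_JA1 := by
  intro p hp
  have key : ∀ m : Fin 4 → ℕ, m ∈ JA p ↔ (p ≤ m 0 ∨ 2 * p ≤ m 1 ∨ (p ≤ m 0 + 1 ∧ 2 ≤ m 1) ∨
    (1 ≤ m 0 ∧ p + 1 ≤ m 1 ∧ 2 * p ≤ m 0 + m 1 + 1) ∨
    (1 ≤ m 2 ∧ 2 ≤ m 0 ∧ 2 * p ≤ m 0 + m 1 + 2)) := fun m => Iff.rfl
  refine ⟨?_, ?_, ?_, ?_⟩
  · intro a b hab ha
    rw [key] at ha ⊢
    have h0 : a 0 ≤ b 0 := hab 0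
    have h1 : a 1 ≤ b 1 := hab 1
    have h2 : a 2 ≤ b 2 := hab 2
    omega
  · intro m hm s t hst ht
    rw [key] at hm ⊢
    simp only [Pi.add_apply, Pi.sub_apply]
    fin_cases s <;> fin_cases t <;> simp at hst ht ⊢ <;> omega
  · intro m hm
    rw [key] at hm
    have mk : ∀ x y z : ℕ, x ≤ m 0 → y ≤ m 1 → z ≤ m 2 → x + y + z ≤ 2 * p →
        (![x, y, z, 0] : Fin 4 → ℕ) ∈ JA p → ∃ g ∈ JA p, g ≤ m ∧ ∑ t, g t ≤ 2 * p := by
      intro x y z hx hy hz hs hmem
      refine ⟨_, hmem, ?_, ?_⟩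
      · intro t
        fin_cases t
        · exact hx
        · exact hy
        · exact hz
        · exact Nat.zero_le _
      · simp [Fin.sum_univ_four]; omega
    rcases hm with h | h | h | h | h
    · exact mk p 0 0 h (by omega) (by omega) (by omega) (by rw [key]; simp)
    · exact mk 0 (2 * p) 0 (by omega) h (by omega) (by omega) (by rw [key]; simp)
    · exact mk (p - 1) 2 0 (by omega) (by omega) (by omega) (by omega) (by rw [key]; simp; omega)
    · -- i = min (m 0) (p - 2), j = 2 p - 1 - i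
      by_cases h1 : m 0 ≤ p - 2
      · exact mk (m 0) (2 * p - 1 - m 0) 0 le_rfl (by omega) (by omega) (by omega)
          (by rw [key]; simp; omega)
      · exact mk (p - 2) (p + 1) 0 (by omega) (by omega) (by omega) (by omega)
          (by rw [key]; simp; omega)
    · by_cases h1 : p ≤ m 0
      · exact mk p 0 0 h1 (by omega) (by omega) (by omega) (by rw [key]; simp)
      · exact mk (m 0) (2 * p - 2 - m 0) 1 le_rfl (by omega) (by omega) (by omega)
          (by rw [key]; simp; omega)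
  · intro m hm
    rw [key] at hm
    omega

end Pool.Agent.T2H28.FS
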