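import Pool.Agent.T2H28.FS.Stm

/-! Package JA2 of project FS. -/

namespace Pool.Agent.T2H28.FS

open MvPolynomial

universe u

namespace JA2

lemma pw_up {σ : Type} {U : Set (σ → ℕ)} : ∀ k, IsUpperSet (Pw U k)
  | 0 => fun _ _ _ _ => trivial
  | k + 1 => by
    rintro x y hxy ⟨b, hb, c, hc, rfl⟩
    refine ⟨b, hb, c + (y - (b + c)), pw_up k (a := c) ?_ hc, ?_⟩
    · intro t
      simp
    · funext t
      have h1 := hxy t
      simp only [Pi.add_apply, Pi.sub_apply] at h1 ⊢
      omega

/-- sums of `k` numbers from `{0, 1, a + 1, a + 2}` -/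
lemma rep (a : ℕ) (ha : 1 ≤ a) : ∀ (k s q : ℕ), s ≤ k → q ≤ k → ∀ m : Fin 4 → ℕ,
    (a + 2) * k ≤ m 0 + (s + q * (a + 1)) → 2 * (s + q * (a + 1)) ≤ m 1 →
    m ∈ Pw (JA (a + 2)) k
  | 0 => fun _ _ _ _ _ _ _ => trivial
  | k + 1 => by
    intro s q hs hq m h1 h2
    rcases Nat.lt_or_ge k s with hs' | hs'
    · obtain rfl : s = k + 1 := by omega
      rcases Nat.lt_or_ge k q with hq' | hq'
      · obtain rfl : q = k + 1 := by omega
        have e1 : (k + 1) + (k + 1) * (a + 1) = (k + k * (a + 1)) + (a + 2) := by ring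
        rw [e1] at h1 h2
        refine ⟨![0, 2 * (a + 2), 0, 0], ?_, fun t => m t - (![0, 2 * (a + 2), 0, 0] : Fin 4 → ℕ) t,
          rep a ha k k k le_rfl le_rfl _ ?_ ?_, ?_⟩
        · refine Or.inr (Or.inl ?_)
          simp
        · simp only [Matrix.cons_val_zero]
          have e2 : k + k * (a + 1) = (a + 2) * k := by ring
          omega
        · simp only [Matrix.cons_val_one, Matrix.cons_val_zero]
          omega
        · funext t
          fin_cases t
          · simp
          · simp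
            omega
          · simp
          · simp
      · have e1 : (a + 2) * (k + 1) = (a + 2) * k + (a + 2) := by ring
        have e3 : q * (a + 1) ≤ k * (a + 1) := Nat.mul_le_mul_right _ hq'
        have e4 : (a + 2) * k = k * (a + 1) + k := by ring
        refine ⟨![a + 1, 2, 0, 0], ?_, fun t => m t - (![a + 1, 2, 0, 0] : Fin 4 → ℕ) t,
          rep a ha k k q le_rfl hq' _ ?_ ?_, ?_⟩
        · refine Or.inr (Or.inr (Or.inl ?_))
          simp
        · simp only [Matrix.cons_val_zero]
          omega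
        · simp only [Matrix.cons_val_one, Matrix.cons_val_zero]
          omega
        · funext t
          fin_cases t
          · simp
            omega
          · simp
            omega
          · simp
          · simp
    · rcases Nat.lt_or_ge k q with hq' | hq'
      · obtain rfl : q = k + 1 := by omega
        have e1 : (k + 1) * (a + 1) = k * (a + 1) + (a + 1) := by ring
        have e2 : (a + 2) * (k + 1) = (a + 2) * k + (a + 2) := by ring
        have e4 : (a + 2) * k = k * (a + 1) + k := by ring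
        rw [e1] at h1 h2
        refine ⟨![1, 2 * (a + 1), 0, 0], ?_, fun t => m t - (![1, 2 * (a + 1), 0, 0] : Fin 4 → ℕ) t,
          rep a ha k s k hs' le_rfl _ ?_ ?_, ?_⟩
        · refine Or.inr (Or.inr (Or.inr (Or.inl ?_)))
          simp
          omega
        · simp only [Matrix.cons_val_zero]
          omega
        · simp only [Matrix.cons_val_one, Matrix.cons_val_zero]
          omega
        · funext t
          fin_cases t
          · simp
            omega
          · simp
            omega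
          · simp
          · simp
      · have e1 : (a + 2) * (k + 1) = (a + 2) * k + (a + 2) := by ring
        have e3 : q * (a + 1) ≤ k * (a + 1) := Nat.mul_le_mul_right _ hq'
        have e4 : (a + 2) * k = k * (a + 1) + k := by ring
        refine ⟨![a + 2, 0, 0, 0], ?_, fun t => m t - (![a + 2, 0, 0, 0] : Fin 4 → ℕ) t,
          rep a ha k s q hs' hq' _ ?_ ?_, ?_⟩
        · refine Or.inl ?_
          simp
        · simp only [Matrix.cons_val_zero]
          omega
        · simp only [Matrix.cons_val_one, Matrix.cons_val_zero]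
          omega
        · funext t
          fin_cases t
          · simp
            omega
          · simp
          · simp
          · simp

lemma weight (p : ℕ) (h : ∀ m ∈ JA p, 2 * p ≤ 2 * m 0 + m 1) : ∀ k, ∀ m ∈ Pw (JA p) k,
    2 * p * k ≤ 2 * m 0 + m 1
  | 0 => fun m _ => by simp
  | k + 1 => by
    rintro m ⟨b, hb, c, hc, rfl⟩
    have h1 := h b hb
    have h2 := weight p h k c hc
    have e : 2 * p * (k + 1) = 2 * p * k + 2 * p := by ring
    simp only [Pi.add_apply]
    omega

lemma inv (p : ℕ) (hp : 3 ≤ p) (h : ∀ m ∈ JA p, 2 * p ≤ 2 * m 0 + m 1) : ∀ k, ∀ m ∈ Pw (JA p) k,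
    1 ≤ k → 2 * m 0 + m 1 = 2 * p * k → m 2 = 0 → m 1 ≤ 2 * k ∨ 2 * p ≤ m 1 + 2
  | 0 => fun m _ h0 => by omega
  | k + 1 => by
    rintro m ⟨b, hb, c, hc, rfl⟩ - h1 h2
    have h3 := h b hb
    have h4 := weight p h k c hc
    have e : 2 * p * (k + 1) = 2 * p * k + 2 * p := by ring
    simp only [Pi.add_apply] at h1 h2 ⊢
    rw [e] at h1
    have hb1 : b 1 ≤ 2 ∨ 2 * p ≤ b 1 + 2 := by
      rcases hb with hb | hb | hb | hb | hb <;> omega
    rcases Nat.eq_zero_or_pos k with hk | hk
    · subst hk
      simp only [mul_zero] at h1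
      omega
    · have h5 := inv p hp h k c hc hk (by omega) (by omega)
      omega

lemma base (p : ℕ) (g : Fin 4 → ℕ) (hg : g ∈ JA p) : ∀ j : ℕ,
    (fun t => (if t = 0 then p * j else 0) + g t) ∈ Pw (JA p) (j + 1)
  | 0 => ⟨g, hg, 0, trivial, by funext t; simp⟩
  | j + 1 => by
    refine ⟨![p, 0, 0, 0], Or.inl (by simp), _, base p g hg j, ?_⟩
    funext t
    fin_cases t
    · simp
      ring
    · simp
    · simp
    · simp

lemma free (p : ℕ) : ∀ k, ∀ m m' : Fin 4 → ℕ, m 0 = m' 0 → m 1 = m' 1 → m 2 = m' 2 →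
    m ∈ Pw (JA p) k → m' ∈ Pw (JA p) k
  | 0 => fun _ _ _ _ _ _ => trivial
  | k + 1 => by
    rintro m m' h0 h1 h2 ⟨b, hb, c, hc, rfl⟩
    simp only [Pi.add_apply] at h0 h1 h2
    refine ⟨![b 0, b 1, b 2, 0], hb, ![c 0, c 1, c 2, m' 3], free p k c _ rfl rfl rfl hc, ?_⟩
    funext t
    fin_cases t
    · simp [h0]
    · simp [h1]
    · simp [h2]
    · simp

end JA2

open JA2 in
theorem T_JA2 (hJA1 : P_JA1) : P_JA2 := by
  intro a k ha hk
  obtain ⟨-, -, -, hw⟩ := hJA1 (a + 2) (by omega)
  refine ⟨fun m hm => weight (a + 2) hw k m hm, fun hak m hm => ?_, fun hka w => ⟨fun hm => ?_, ?_, ?_, ?_⟩,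
    fun m hm => rep a ha k 0 0 (by omega) (by omega) m (by simpa using hm) (by simp),
    fun m hm => rep a ha k k k le_rfl le_rfl m ?_ ?_,
    fun m h1 h2 => rep a ha k 1 0 hk (by omega) m (by simpa using h1) (by simpa using h2),
    fun m m' => free (a + 2) k m m'⟩
  · obtain ⟨X, hX⟩ : ∃ X, X = (a + 2) * k := ⟨_, rfl⟩
    have e1 : 2 * (a + 2) * k = 2 * X := by rw [hX]; ring
    rw [e1] at hm
    obtain ⟨e, he, he1, he2⟩ : ∃ e, e ≤ X ∧ X ≤ m 0 + e ∧ 2 * e ≤ m 1 :=
      ⟨min (m 1 / 2) X, by omega, by omega, by omega⟩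
    obtain ⟨s, q, hs, hq, hsq⟩ : ∃ s q, s ≤ k ∧ q ≤ k ∧ e = s + q * (a + 1) := by
      rcases Nat.lt_or_ge k (e / (a + 1)) with h | h
      · refine ⟨e - k * (a + 1), k, ?_, le_rfl, ?_⟩
        · have : X = k * (a + 1) + k := by rw [hX]; ring
          omega
        · have h1 : k * (a + 1) ≤ e / (a + 1) * (a + 1) := Nat.mul_le_mul_right _ h.le
          have h2 := Nat.div_mul_le_self e (a + 1)
          omega
      · refine ⟨e % (a + 1), e / (a + 1), ?_, h, ?_⟩
        · have := Nat.mod_lt e (show 0 < a + 1 by omega)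
          omega
        · exact (Nat.mod_add_div' e (a + 1)).symm
    refine rep a ha k s q hs hq m ?_ ?_
    · rw [← hX, ← hsq]
      exact he1
    · rw [← hsq]
      exact he2
  · obtain ⟨j, rfl⟩ : ∃ j, k = j + 1 := ⟨k - 1, by omega⟩
    have h1 := inv (a + 2) (by omega) hw (j + 1) _ hm hk ?_ (by simp)
    · simp at h1
      omega
    · simp
      ring
  · obtain ⟨j, rfl⟩ : ∃ j, k = j + 1 := ⟨k - 1, by omega⟩
    have h1 := base (a + 2) ![3, 2 * a, 0, w] ?_ j
    · convert h1 using 1
      funext t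
      fin_cases t <;> simp
    · rcases Nat.lt_or_ge a 3 with h | h
      · refine Or.inr (Or.inr (Or.inl ?_))
        simp
        omega
      · refine Or.inr (Or.inr (Or.inr (Or.inl ?_)))
        simp
        omega
  · obtain ⟨j, rfl⟩ : ∃ j, k = j + 1 := ⟨k - 1, by omega⟩
    have h1 := base (a + 2) ![2, 2 * a + 1, 0, w] ?_ j
    · convert h1 using 1
      funext t
      fin_cases t <;> simp
    · refine Or.inr (Or.inr (Or.inr (Or.inl ?_)))
      simp
      omega
  · obtain ⟨j, rfl⟩ : ∃ j, k = j + 1 := ⟨k - 1, by omega⟩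
    have h1 := base (a + 2) ![2, 2 * a, 1, w] ?_ j
    · convert h1 using 1
      funext t
      fin_cases t <;> simp
    · refine Or.inr (Or.inr (Or.inr (Or.inr ?_)))
      simp
      omega
  · have : (a + 2) * k = k + k * (a + 1) := by ring
    omega
  · have : 2 * (a + 2) * k = 2 * (k + k * (a + 1)) := by ring
    omega

end Pool.Agent.T2H28.FS
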