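import Pool.Agent.T2H28.FS.Stm

/-! Package KOS of project FS -/

namespace Pool.Agent.T2H28.FS

open MvPolynomial

universe u

namespace PkgKOS

theorem sum_bump {σ : Type} [Fintype σ] (F : Finset σ) (e : σ → ℕ) (he : ∀ t ∈ F, 1 ≤ e t) :
    ∑ t, bump F e t = ∑ t ∈ F, (e t - 1) + F.card := by
  classical
  unfold bump
  rw [Finset.sum_ite_mem, Finset.univ_inter, Finset.card_eq_sum_ones, ← Finset.sum_add_distrib]
  apply Finset.sum_congr rfl
  intro t ht
  have := he t ht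
  omega

end PkgKOS

theorem T_KOS (hVAN : P_VAN.{u}) (hNV : P_NV.{u}) : P_KOS.{u} := by
  classical
  intro σ _ _ K _ U P ρ h
  obtain ⟨ι, _, _, u, T, e, h1, h2, h3, h4, h5, ⟨j5, h6⟩, h7, ⟨j7, h8⟩⟩ := h
  have hU : U = {b | ∃ j, u j ≤ b} := by ext a; exact h1 a
  have hU' : U = {b | ∃ j ∈ (Finset.univ : Finset ι), u j ≤ b} := by
    rw [hU]; ext b; simp
  have van : ∀ i a, CNZ K U i a → ∃ j, ∃ F ⊆ T j, F.card = i ∧ a = u j + bump F (e j) := by
    intro i a hnz
    rw [hU'] at hnz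
    obtain ⟨j, _, hF⟩ := hVAN K u T e h2 h3 Finset.univ (fun _ _ _ _ => Finset.mem_univ _) i a hnz
    exact ⟨j, hF⟩
  have nv : ∀ j, CNZ K U (T j).card (u j + bump (T j) (e j)) := by
    intro j
    rw [hU]
    refine hNV K u T e h2 h3 j (T j) _ _ subset_rfl rfl rfl ?_
    intro j' F' hF' hEq
    exact h4 j' j F' (T j) hF' subset_rfl hEq.symm
  have sumeq : ∀ j F, F ⊆ T j → ∑ t, (u j + bump F (e j)) t =
      (∑ t, u j t + ∑ t ∈ F, (e j t - 1)) + F.card := by
    intro j F hF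
    simp only [Pi.add_apply, Finset.sum_add_distrib]
    rw [PkgKOS.sum_bump F (e j) (fun t ht => h2 j t (hF ht))]
    ring
  constructor
  · constructor
    · exact ⟨_, h6 ▸ nv j5⟩
    · rintro i ⟨a, hnz⟩
      obtain ⟨j, F, hF, rfl, _⟩ := van i a hnz
      exact (Finset.card_le_card hF).trans (h5 j)
  · constructor
    · refine ⟨(T j7).card, _, ?_, nv j7⟩
      rw [sumeq j7 _ subset_rfl, h8]
    · rintro x ⟨i, a, hs, hnz⟩
      obtain ⟨j, F, hF, rfl, rfl⟩ := van i a hnz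
      rw [sumeq j F hF] at hs
      have h9 : ∑ t ∈ F, (e j t - 1) ≤ ∑ t ∈ T j, (e j t - 1) :=
        Finset.sum_le_sum_of_subset hF
      have h10 := h7 j
      omega

end Pool.Agent.T2H28.FS
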