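import Pool.Agent.T2H28.FS.Stm

/-! Package MPW of project FS -/

namespace Pool.Agent.T2H28.FS

open MvPolynomial

universe u

namespace PkgMPW

variable {σ : Type} (K : Type u) [Field K]

lemma mon_eq (U : Set (σ → ℕ)) : Mon K U =
    Ideal.span ((fun s : σ →₀ ℕ => (monomial s (1 : K))) '' {m : σ →₀ ℕ | (⇑m : σ → ℕ) ∈ U}) := by
  unfold Mon
  congr 1
  ext f
  constructor
  · rintro ⟨m, hm, rfl⟩
    exact ⟨m, hm, rfl⟩
  · rintro ⟨m, hm, rfl⟩
    exact ⟨m, hm, rfl⟩

lemma mem_mon {U : Set (σ → ℕ)} (hU : IsUpperSet U) (f : MvPolynomial σ K) :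
    f ∈ Mon K U ↔ ∀ m ∈ f.support, (⇑m : σ → ℕ) ∈ U := by
  rw [mon_eq, mem_ideal_span_monomial_image]
  constructor
  · intro h m hm
    obtain ⟨i, hi, him⟩ := h m hm
    exact hU (fun t => him t) hi
  · intro h m hm
    exact ⟨m, h m hm, le_rfl⟩

lemma upper {U : Set (σ → ℕ)} : ∀ k, IsUpperSet (Pw U k) := by
  intro k
  induction k with
  | zero => exact isUpperSet_univ
  | succ k ih =>
    rintro a a' haa' ⟨b, hb, c, hc, rfl⟩
    refine ⟨b, hb, fun t => c t + (a' t - (b t + c t)), ?_, ?_⟩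
    · refine ih ?_ hc
      intro t
      exact Nat.le_add_right _ _
    · funext t
      have := haa' t
      simp only [Pi.add_apply] at this ⊢
      omega

end PkgMPW

open PkgMPW in
theorem T_MPW : P_MPW.{u} := by
  intro σ _ K _ U hU
  refine ⟨mem_mon K hU, upper, ?_⟩
  intro k
  induction k with
  | zero =>
    rw [pow_zero, Ideal.one_eq_top]
    symm
    rw [Ideal.eq_top_iff_one]
    refine Ideal.subset_span ⟨0, trivial, ?_⟩
    rfl
  | succ k ih =>
    rw [pow_succ, ih]
    unfold Mon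
    rw [Ideal.span_mul_span']
    apply le_antisymm
    · rw [Ideal.span_le]
      rintro f ⟨g, ⟨m, hm, rfl⟩, h, ⟨n, hn, rfl⟩, rfl⟩
      refine Ideal.subset_span ⟨m + n, ⟨⇑n, hn, ⇑m, hm, ?_⟩, ?_⟩
      · rw [Finsupp.coe_add, add_comm]
      · show monomial m (1 : K) * monomial n (1 : K) = monomial (m + n) 1
        rw [monomial_mul, one_mul]
    · rw [Ideal.span_le]
      rintro f ⟨m, ⟨b, hb, c, hc, hm⟩, rfl⟩
      refine Ideal.subset_span ⟨monomial (Finsupp.equivFunOnFinite.symm c) 1,
        ⟨Finsupp.equivFunOnFinite.symm c, by simpa using hc, rfl⟩,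
        monomial (Finsupp.equivFunOnFinite.symm b) 1,
        ⟨Finsupp.equivFunOnFinite.symm b, by simpa using hb, rfl⟩, ?_⟩
      show monomial (Finsupp.equivFunOnFinite.symm c) (1 : K) *
        monomial (Finsupp.equivFunOnFinite.symm b) (1 : K) = monomial m 1
      rw [monomial_mul, one_mul]
      have e : Finsupp.equivFunOnFinite.symm c + Finsupp.equivFunOnFinite.symm b = m := by
        ext t
        rw [Finsupp.add_apply]
        have := congrFun hm t
        simp only [Pi.add_apply] at this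
        simp only [Finsupp.equivFunOnFinite_symm_apply_apply, this]
        omega
      rw [e]

end Pool.Agent.T2H28.FS
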