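import Pool.Agent.T2H28.FS.Stm

/-! Package NUMR of project FS -/

namespace Pool.Agent.T2H28.FS

open MvPolynomial

universe u

lemma numr_mem (r : ℕ) : ∀ (k e : ℕ), e ∈ kS {0, 2, 2 * (r + 1), 2 * (r + 2)} k ↔
    ∃ s m, s ≤ k ∧ m ≤ k ∧ e = 2 * (s + m * (r + 1)) := by
  intro k
  induction k with
  | zero =>
    intro e
    constructor
    · intro h
      have h0 : e = 0 := h
      exact ⟨0, 0, le_refl _, le_refl _, by simp [h0]⟩
    · rintro ⟨s, m, hs, hm, rfl⟩
      have hs' : s = 0 := by omega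
      have hm' : m = 0 := by omega
      subst hs' hm'
      show (2 * (0 + 0 * (r + 1))) ∈ ({0} : Set ℕ)
      simp
  | succ k ih =>
    intro e
    constructor
    · rintro ⟨a, ha, b, hb, rfl⟩
      obtain ⟨s, m, hs, hm, rfl⟩ := (ih b).1 hb
      rcases ha with rfl | rfl | rfl | ha
      · exact ⟨s, m, by omega, by omega, by ring⟩
      · exact ⟨s + 1, m, by omega, by omega, by ring⟩
      · exact ⟨s, m + 1, by omega, by omega, by ring⟩
      · have ha' : a = 2 * (r + 2) := ha
        subst ha'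
        exact ⟨s + 1, m + 1, by omega, by omega, by ring⟩
    · rintro ⟨s, m, hs, hm, rfl⟩
      rcases Nat.eq_zero_or_pos s with hs0 | hs0
      · rcases Nat.eq_zero_or_pos m with hm0 | hm0
        · subst hs0 hm0
          exact ⟨0, Or.inl rfl, 0, (ih 0).2 ⟨0, 0, by omega, by omega, by omega⟩, by simp⟩
        · obtain ⟨m', rfl⟩ : ∃ m', m = m' + 1 := ⟨m - 1, by omega⟩
          subst hs0
          exact ⟨2 * (r + 1), Or.inr (Or.inr (Or.inl rfl)), 2 * (0 + m' * (r + 1)),
            (ih _).2 ⟨0, m', by omega, by omega, rfl⟩, by ring⟩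
      · obtain ⟨s', rfl⟩ : ∃ s', s = s' + 1 := ⟨s - 1, by omega⟩
        rcases Nat.eq_zero_or_pos m with hm0 | hm0
        · subst hm0
          exact ⟨2, Or.inr (Or.inl rfl), 2 * (s' + 0 * (r + 1)),
            (ih _).2 ⟨s', 0, by omega, by omega, rfl⟩, by ring⟩
        · obtain ⟨m', rfl⟩ : ∃ m', m = m' + 1 := ⟨m - 1, by omega⟩
          exact ⟨2 * (r + 2), Or.inr (Or.inr (Or.inr rfl)), 2 * (s' + m' * (r + 1)),
            (ih _).2 ⟨s', m', by omega, by omega, rfl⟩, by ring⟩

theorem T_NUMR : P_NUMR := by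
  intro r k hr hk
  have M := numr_mem r k
  refine ⟨?_, ?_, ?_⟩
  · intro e he hlt
    obtain ⟨s, m, hs, hm, rfl⟩ := (M e).1 he
    rcases Nat.lt_or_ge s k with h | h
    · refine ⟨2 * (s + 1 + m * (r + 1)), (M _).2 ⟨s + 1, m, by omega, hm, rfl⟩, by omega, ?_⟩
      omega
    · have hsk : s = k := by omega
      subst hsk
      have hmk : m < s := by
        rcases Nat.lt_or_ge m s with h' | h'
        · exact h'
        · have : m = s := by omega
          subst this
          exfalso
          have : 2 * (m + m * (r + 1)) = 2 * (r + 2) * m := by ring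
          omega
      have hexp : (m + 1) * (r + 1) = m * (r + 1) + (r + 1) := by ring
      rcases Nat.lt_or_ge r s with h' | h'
      · refine ⟨2 * (s - r + (m + 1) * (r + 1)), (M _).2 ⟨s - r, m + 1, by omega, by omega, rfl⟩,
          ?_, ?_⟩
        · rw [hexp]
          omega
        · rw [hexp]
          omega
      · refine ⟨2 * (0 + (m + 1) * (r + 1)), (M _).2 ⟨0, m + 1, by omega, by omega, rfl⟩,
          ?_, ?_⟩
        · rw [hexp]
          omega
        · rw [hexp]
          omega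
  · rcases Nat.lt_or_ge r k with h | h
    · refine ⟨0, (M _).2 ⟨0, 0, by omega, by omega, by omega⟩,
        (M _).2 ⟨1, 0, by omega, by omega, by omega⟩, ?_⟩
      rintro e' he' ⟨h1, h2⟩
      obtain ⟨s, m, hs, hm, rfl⟩ := (M e').1 he'
      omega
    · refine ⟨2 * k, (M _).2 ⟨k, 0, by omega, by omega, by omega⟩,
        (M _).2 ⟨0, 1, by omega, by omega, by omega⟩, ?_⟩
      rintro e' he' ⟨h1, h2⟩
      obtain ⟨s, m, hs, hm, rfl⟩ := (M e').1 he'
      rcases Nat.eq_zero_or_pos m with hm0 | hm0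
      · subst hm0
        omega
      · have : 1 * (r + 1) ≤ m * (r + 1) := Nat.mul_le_mul_right _ hm0
        omega
  · intro e he e' he' hlt
    obtain ⟨s, m, hs, hm, rfl⟩ := (M e).1 he
    obtain ⟨s', m', hs', hm', rfl⟩ := (M e').1 he'
    omega

end Pool.Agent.T2H28.FS
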