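import Pool.Agent.T2H28.FS.Stm

/-! Package NUMV of project FS -/

namespace Pool.Agent.T2H28.FS

open MvPolynomial

universe u

lemma numv_mem (g : ℕ) : ∀ (k e : ℕ), e ∈ kS {0, 3, g} k ↔ ∃ i j, i + j ≤ k ∧ e = 3 * i + g * j := by
  intro k
  induction k with
  | zero =>
    intro e
    constructor
    · intro h
      have h0 : e = 0 := h
      exact ⟨0, 0, le_refl _, by simp [h0]⟩
    · rintro ⟨i, j, hij, rfl⟩
      have hi : i = 0 := by omega
      have hj : j = 0 := by omega
      subst hi hj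
      show (3 * 0 + g * 0) ∈ ({0} : Set ℕ)
      simp
  | succ k ih =>
    intro e
    constructor
    · rintro ⟨a, ha, b, hb, rfl⟩
      obtain ⟨i, j, hij, rfl⟩ := (ih b).1 hb
      rcases ha with rfl | rfl | ha
      · exact ⟨i, j, by omega, by omega⟩
      · exact ⟨i + 1, j, by omega, by ring⟩
      · have ha' : a = g := ha
        subst ha'
        exact ⟨i, j + 1, by omega, by ring⟩
    · rintro ⟨i, j, hij, rfl⟩
      rcases Nat.eq_zero_or_pos i with hi | hi
      · rcases Nat.eq_zero_or_pos j with hj | hj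
        · subst hi hj
          exact ⟨0, Or.inl rfl, 0, (ih 0).2 ⟨0, 0, by omega, by omega⟩, by simp⟩
        · obtain ⟨j', rfl⟩ : ∃ j', j = j' + 1 := ⟨j - 1, by omega⟩
          subst hi
          exact ⟨g, Or.inr (Or.inr rfl), 3 * 0 + g * j', (ih _).2 ⟨0, j', by omega, rfl⟩, by ring⟩
      · obtain ⟨i', rfl⟩ : ∃ i', i = i' + 1 := ⟨i - 1, by omega⟩
        exact ⟨3, Or.inr (Or.inl rfl), 3 * i' + g * j, (ih _).2 ⟨i', j, by omega, rfl⟩, by ring⟩

theorem T_NUMV : P_NUMV := by
  intro v k hv hk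
  have hg : ∃ g, g = 3 * v - 1 := ⟨_, rfl⟩
  obtain ⟨g, hg⟩ := hg
  have hg3 : 3 * v - 4 = g - 3 := by omega
  have hg5 : 5 ≤ g := by omega
  rw [← hg, hg3]
  have M := numv_mem g k
  refine ⟨?_, ?_, ?_, ?_⟩
  · intro e he hlt
    obtain ⟨i, j, hij, rfl⟩ := (M e).1 he
    rcases Nat.lt_or_ge (i + j) k with h | h
    · refine ⟨3 * (i + 1) + g * j, (M _).2 ⟨i + 1, j, by omega, rfl⟩, by omega, ?_⟩
      have := le_max_left 3 (g - 3)
      omega
    · have hi : 1 ≤ i := by
        rcases Nat.eq_zero_or_pos i with hi | hi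
        · have : j = k := by omega
          subst this hi
          omega
        · exact hi
      refine ⟨3 * (i - 1) + g * (j + 1), (M _).2 ⟨i - 1, j + 1, by omega, rfl⟩, ?_, ?_⟩
      · rw [mul_add, mul_one]
        omega
      · have := le_max_right 3 (g - 3)
        rw [mul_add, mul_one]
        omega
  · rcases Nat.lt_or_ge v 3 with h | h
    · have hv2 : v = 2 := by omega
      have hg' : g = 5 := by omega
      refine ⟨0, (M _).2 ⟨0, 0, by omega, by omega⟩, ?_, ?_⟩
      · rw [hg']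
        rw [hg'] at M
        exact (M _).2 ⟨1, 0, by omega, by simp⟩
      · rintro e' he' ⟨h1, h2⟩
        rw [hg'] at h2
        obtain ⟨i, j, hij, rfl⟩ := (M e').1 he'
        rw [hg'] at h1 h2
        have h3 : max 3 (5 - 3) = 3 := by decide
        rw [h3] at h2
        rcases Nat.eq_zero_or_pos j with hj | hj
        · subst hj
          omega
        · omega
    · have h8 : 8 ≤ g := by omega
      have hmx : max 3 (g - 3) = g - 3 := max_eq_right (by omega)
      rw [hmx]
      obtain ⟨k', rfl⟩ : ∃ k', k = k' + 1 := ⟨k - 1, by omega⟩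
      refine ⟨3 * 1 + g * k', (M _).2 ⟨1, k', by omega, rfl⟩, ?_, ?_⟩
      · refine (M _).2 ⟨0, k' + 1, by omega, ?_⟩
        rw [mul_add g, mul_one g]
        omega
      · rintro e' he' ⟨h1, h2⟩
        obtain ⟨i, j, hij, rfl⟩ := (M e').1 he'
        rcases Nat.lt_or_ge k' j with hj | hj
        · have : g * (k' + 1) ≤ g * j := Nat.mul_le_mul_left _ hj
          rw [mul_add g, mul_one g] at this
          omega
        · obtain ⟨d, rfl⟩ : ∃ d, k' = j + d := ⟨k' - j, by omega⟩
          have h3 : 3 * d ≤ g * d := Nat.mul_le_mul_right _ (by omega)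
          rw [mul_add g] at h1
          omega
  · intro hkv e he e' he' hlt
    obtain ⟨i, j, hij, rfl⟩ := (M e).1 he
    obtain ⟨i', j', hij', rfl⟩ := (M e').1 he'
    by_contra hcon
    have heq : 3 * i' + g * j' = 3 * i + g * j + 1 := by omega
    have hgZ : (g : ℤ) = 3 * v - 1 := by omega
    have hZ : (3 * i' + g * j' : ℤ) = 3 * i + g * j + 1 := by exact_mod_cast heq
    rw [hgZ] at hZ
    -- 3 (i' - i) = 1 + (3 v - 1)(j - j')
    have hmod : ∃ t : ℤ, (j : ℤ) - j' = 1 + 3 * t := by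
      refine ⟨v * (j - j') - (i' - i), ?_⟩
      linarith [hZ]
    obtain ⟨t, ht⟩ := hmod
    have hI : (i' : ℤ) - i = v + t * (3 * v - 1) := by
      have : 3 * ((i' : ℤ) - i) = 1 + (3 * v - 1) * (j - j') := by linarith [hZ]
      rw [ht] at this
      linarith
    rcases le_or_gt 0 t with h0 | h0
    · have : 0 ≤ t * (3 * (v : ℤ) - 1) := mul_nonneg h0 (by omega)
      omega
    · have : t * (3 * (v : ℤ) - 1) ≤ (-1) * (3 * (v : ℤ) - 1) :=
        mul_le_mul_of_nonneg_right (by omega) (by omega)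
      omega
  · intro hvk
    refine ⟨g, (M _).2 ⟨0, 1, by omega, by simp⟩, (M _).2 ⟨v, 0, by omega, by omega⟩⟩

end Pool.Agent.T2H28.FS
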