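import Pool.Agent.T2H28.FS.Stm

/-! Package VAN of project FS -/

namespace Pool.Agent.T2H28.FS

open MvPolynomial

universe u

namespace PkgVAN

theorem upL {σ ι : Type} (u : ι → σ → ℕ) (L : Finset ι) :
    IsUpperSet {b : σ → ℕ | ∃ j ∈ L, u j ≤ b} := by
  rintro x y hxy ⟨j, hj, h⟩
  exact ⟨j, hj, h.trans hxy⟩

theorem colL {σ ι : Type} [LinearOrder ι] (u : ι → σ → ℕ) (T : ι → Finset σ)
    (e : ι → σ → ℕ)
    (hcol : ∀ i w, (∃ j < i, u j ≤ u i + w) ↔ ∃ t ∈ T i, e i t ≤ w t) (L : Finset ι)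
    (hL : ∀ j ∈ L, ∀ j' < j, j' ∈ L) (j : ι) (hj : j ∈ L) (hmax : ∀ j' ∈ L, j' ≤ j)
    (w : σ → ℕ) :
    u j + w ∈ {b : σ → ℕ | ∃ j' ∈ L.erase j, u j' ≤ b} ↔ ∃ t ∈ T j, e j t ≤ w t := by
  rw [← hcol]
  constructor
  · rintro ⟨j', hj', h⟩
    rw [Finset.mem_erase] at hj'
    exact ⟨j', lt_of_le_of_ne (hmax _ hj'.2) hj'.1, h⟩
  · rintro ⟨j', hj', h⟩
    exact ⟨j', Finset.mem_erase.2 ⟨hj'.ne, hL j hj j' hj'⟩, h⟩

theorem splitL {σ ι : Type} [LinearOrder ι] (u : ι → σ → ℕ) (L : Finset ι) (j : ι)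
    (hj : j ∈ L) (a : σ → ℕ) :
    a ∈ {b : σ → ℕ | ∃ j' ∈ L, u j' ≤ b} ↔
      a ∈ {b : σ → ℕ | ∃ j' ∈ L.erase j, u j' ≤ b} ∨ u j ≤ a := by
  constructor
  · rintro ⟨j', hj', h⟩
    by_cases hjj : j' = j
    · subst hjj; exact Or.inr h
    · exact Or.inl ⟨j', Finset.mem_erase.2 ⟨hjj, hj'⟩, h⟩
  · rintro (⟨j', hj', h⟩ | h)
    · exact ⟨j', Finset.mem_of_mem_erase hj', h⟩
    · exact ⟨j, hj, h⟩

theorem initL {ι : Type} [LinearOrder ι] (L : Finset ι) (hL : ∀ j ∈ L, ∀ j' < j, j' ∈ L)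
    (j : ι) (hmax : ∀ j' ∈ L, j' ≤ j) : ∀ i ∈ L.erase j, ∀ j' < i, j' ∈ L.erase j := by
  intro i hi j' hj'
  rw [Finset.mem_erase] at hi ⊢
  exact ⟨(lt_of_lt_of_le hj' (hmax i hi.2)).ne, hL i hi.2 j' hj'⟩

theorem cd_sub {σ : Type} [Fintype σ] [LinearOrder σ] {K : Type u} [Field K]
    (c b : Finset σ → K) : cd (c - b) = cd c - cd b := by
  funext T
  simp only [cd, Pi.sub_apply, smul_sub, Finset.sum_sub_distrib]

theorem cd_add {σ : Type} [Fintype σ] [LinearOrder σ] {K : Type u} [Field K]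
    (c b : Finset σ → K) : cd (c + b) = cd c + cd b := by
  funext T
  simp only [cd, Pi.add_apply, smul_add, Finset.sum_add_distrib]

theorem adm_mono {σ : Type} {K : Type u} [Field K] {U' U : Set (σ → ℕ)} (h : U' ⊆ U)
    {a : σ → ℕ} {i : ℕ} {c : Finset σ → K} (hc : Adm U' a i c) : Adm U a i c := by
  intro R hR
  obtain ⟨⟨b, hb, hb2⟩, h2⟩ := hc R hR
  exact ⟨⟨b, h hb, hb2⟩, h2⟩

theorem adm_add {σ : Type} {K : Type u} [Field K] {U : Set (σ → ℕ)}
    {a : σ → ℕ} {i : ℕ} {c b : Finset σ → K} (hc : Adm U a i c) (hb : Adm U a i b) :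
    Adm U a i (c + b) := by
  intro R hR
  by_cases h : c R = 0
  · apply hb R
    intro h2
    apply hR
    rw [Pi.add_apply, h, h2, add_zero]
  · exact hc R h

end PkgVAN

open PkgVAN in
theorem T_VAN (hSGN : P_SGN.{u}) (hSTEP : P_STEP.{u}) : P_VAN.{u} := by
  classical
  intro σ _ _ K _ ι _ _ u T e he hcol L
  induction L using Finset.strongInduction with
  | H L ih =>
    intro hL i a hnz
    obtain ⟨c, hc, hcc, hcb⟩ := hnz
    by_cases hne : L.Nonempty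
    swap
    · exfalso
      rw [Finset.not_nonempty_iff_eq_empty] at hne
      subst hne
      apply hcb
      refine ⟨0, fun R hR => (hR rfl).elim, ?_⟩
      have : c = 0 := by
        funext R
        by_contra h
        obtain ⟨⟨b, ⟨j, hj, _⟩, _⟩, _⟩ := hc R h
        simp at hj
      rw [this]
      funext R; simp [cd]
    · set j := L.max' hne with hjdef
      have hj : j ∈ L := Finset.max'_mem _ _
      have hmax : ∀ j' ∈ L, j' ≤ j := fun j' h => Finset.le_max' _ _ h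
      by_cases hF : ∃ F ⊆ T j, F.card = i ∧ a = u j + bump F (e j)
      · obtain ⟨F, h1, h2, h3⟩ := hF
        exact ⟨j, hj, F, h1, h2, h3⟩
      push Not at hF
      obtain ⟨b, hb, hb2⟩ := hSTEP K {b : σ → ℕ | ∃ j' ∈ L.erase j, u j' ≤ b}
        {b : σ → ℕ | ∃ j' ∈ L, u j' ≤ b} (u j) (T j) (e j) (upL u _) (he j)
        (colL u T e hcol L hL j hj hmax) (splitL u L j hj) a i c hc
        (by intro R hR; rw [hcc] at hR; exact (hR rfl).elim) hF
      by_cases hex : ∃ b' : Finset σ → K,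
          Adm {b : σ → ℕ | ∃ j' ∈ L.erase j, u j' ≤ b} a (i + 1) b' ∧ cd b' = c - cd b
      · exfalso
        obtain ⟨b', h1, h2⟩ := hex
        apply hcb
        refine ⟨b' + b, adm_add (adm_mono ?_ h1) hb, ?_⟩
        · rintro x ⟨j', hj', h⟩
          exact ⟨j', Finset.mem_of_mem_erase hj', h⟩
        · rw [cd_add, h2, sub_add_cancel]
      · obtain ⟨j', hj', F, h1, h2, h3⟩ := ih (L.erase j) (Finset.erase_ssubset hj)
          (initL L hL j hmax) i a ⟨c - cd b, hb2, by rw [cd_sub, hcc, hSGN.2.2.1, sub_zero], hex⟩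
        exact ⟨j', Finset.mem_of_mem_erase hj', F, h1, h2, h3⟩

end Pool.Agent.T2H28.FS
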