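import Pool.Agent.T2H28.FS.T_STEP
import Pool.Agent.T2H28.FS.T_VAN

/-! Package NV of project FS -/

namespace Pool.Agent.T2H28.FS

open MvPolynomial

universe u

open PkgSTEP PkgVAN in
theorem T_NV (hSGN : P_SGN.{u}) (hSTEP : P_STEP.{u}) (hVAN : P_VAN.{u}) : P_NV.{u} := by
  classical
  intro σ _ _ K _ ι _ _ u T e he hcol j F i a hFT hFc ha huniq
  set L₀ : Finset ι := Finset.univ.filter (fun x => x ≤ j) with hL₀
  have memL₀ : ∀ x, x ∈ L₀ ↔ x ≤ j := by intro x; simp [hL₀]
  have hjL : j ∈ L₀ := (memL₀ j).2 le_rfl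
  have hmax : ∀ j' ∈ L₀, j' ≤ j := fun j' h => (memL₀ j').1 h
  have hL₀i : ∀ x ∈ L₀, ∀ j' < x, j' ∈ L₀ := by
    intro x hx j' hj'
    rw [memL₀] at hx ⊢
    exact hj'.le.trans hx
  set U1 : Set (σ → ℕ) := {b : σ → ℕ | ∃ j' ∈ L₀.erase j, u j' ≤ b} with hU1
  set U2 : Set (σ → ℕ) := {b : σ → ℕ | ∃ j' ∈ L₀, u j' ≤ b} with hU2
  have up1 : IsUpperSet U1 := upL u _
  have up2 : IsUpperSet U2 := upL u _
  have hc1 := colL u T e hcol L₀ hL₀i j hjL hmax
  have hs1 := splitL u L₀ j hjL
  have hni := new_iff hc1 hs1 a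
  have bmem : ∀ t, t ∈ F → bump F (e j) t = e j t := by
    intro t ht; unfold bump; exact if_pos ht
  have bnot : ∀ t, t ∉ F → bump F (e j) t = 0 := by
    intro t ht; unfold bump; exact if_neg ht
  have hat : ∀ t, a t = u j t + bump F (e j) t := fun t => congrFun ha t
  -- `F` is the only new face
  have hnewF : ∀ R, (Dl U2 a R ∧ ¬ Dl U1 a R) ↔ R = F := by
    intro R
    rw [hni]
    constructor
    · rintro ⟨h1, h2⟩
      apply Finset.Subset.antisymm
      · intro t ht
        by_contra hF
        have h3 := h1 t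
        rw [ind_mem ht, hat, bnot t hF] at h3
        omega
      · intro t ht
        by_contra hR
        have h3 := h2 t (hFT ht)
        rw [ind_not hR, hat, bmem t ht] at h3
        omega
    · rintro rfl
      constructor
      · intro t
        by_cases ht : t ∈ R
        · rw [ind_mem ht, hat, bmem t ht]
          have := he j t (hFT ht)
          omega
        · rw [ind_not ht, hat]; omega
      · intro t htT
        have := he j t htT
        by_cases ht : t ∈ R
        · rw [ind_mem ht, hat, bmem t ht]; omega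
        · rw [ind_not ht, hat, bnot t ht]; omega
  have hF2 : Dl U2 a F := ((hnewF F).2 rfl).1
  have hF1 : ¬ Dl U1 a F := ((hnewF F).2 rfl).2
  have hold : ∀ R, Dl U2 a R → R ≠ F → Dl U1 a R := by
    intro R h1 h2
    by_contra h3
    exact h2 ((hnewF R).1 ⟨h1, h3⟩)
  set s : Finset σ → K := fun R => if R = F then 1 else 0 with hs
  have hsF : s F = 1 := by simp [hs]
  have hsR : ∀ R, s R ≠ 0 → R = F := by
    intro R hR
    by_contra h
    exact hR (by simp [hs, h])
  have hsAdm : Adm U2 a i s := by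
    intro R hR
    rw [hsR R hR]
    exact ⟨hF2, hFc⟩
  -- a correction living on the old faces
  obtain ⟨c1, hc1A, hc1c⟩ : ∃ c1 : Finset σ → K, Adm U1 a i c1 ∧ cd c1 = cd s := by
    have hcds : ∀ R, cd s R ≠ 0 → Dl U1 a R ∧ R.card + 1 = i := by
      intro R hR
      obtain ⟨t, ht, hbt⟩ := Finset.exists_ne_zero_of_sum_ne_zero hR
      simp only [Finset.mem_sdiff, Finset.mem_univ, true_and] at ht
      have h3 : insert t R = F := by
        apply hsR
        intro h; exact hbt (by rw [h, smul_zero])
      have hRF : R ≠ F := by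
        intro h
        apply ht
        rw [h, ← h3]
        exact Finset.mem_insert_self _ _
      refine ⟨hold R (dl_sub up2 (by rw [← h3]; exact Finset.subset_insert _ _) hF2) hRF, ?_⟩
      rw [← hFc, ← h3, Finset.card_insert_of_notMem ht]
    rcases Nat.eq_zero_or_pos i with hi | hi
    · refine ⟨0, fun R hR => (hR rfl).elim, ?_⟩
      funext R
      have h1 : (cd (0 : Finset σ → K)) R = 0 := by simp [cd]
      rw [h1]
      by_contra h
      have := (hcds R (Ne.symm h)).2
      omega
    · obtain ⟨i', rfl⟩ : ∃ i', i = i' + 1 := ⟨i - 1, by omega⟩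
      by_contra hno
      have hnz : CNZ K U1 i' a := by
        refine ⟨cd s, fun R hR => ⟨(hcds R hR).1, by have := (hcds R hR).2; omega⟩,
          hSGN.2.2.1 K s, ?_⟩
        rintro ⟨b, hb1, hb2⟩
        exact hno ⟨b, hb1, hb2⟩
      obtain ⟨j', hj', F', h1, h2, h3⟩ := hVAN K u T e he hcol (L₀.erase j)
        (initL L₀ hL₀i j hmax) i' a hnz
      have := huniq j' F' h1 h3
      omega
  have hU12 : U1 ⊆ U2 := by
    rintro x ⟨j', hj', h⟩
    exact ⟨j', Finset.mem_of_mem_erase hj', h⟩
  set z : Finset σ → K := s - c1 with hz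
  have hzcd : cd z = 0 := by rw [hz, cd_sub, hc1c, sub_self]
  have hc1F : c1 F = 0 := by
    by_contra h
    exact hF1 (hc1A F h).1
  have hzF : z F = 1 := by rw [hz, Pi.sub_apply, hsF, hc1F, sub_zero]
  have hzA : Adm U2 a i z := by
    intro R hR
    by_cases h : s R = 0
    · have h2 : c1 R ≠ 0 := by
        intro h2; apply hR; rw [hz, Pi.sub_apply, h, h2, sub_zero]
      exact adm_mono hU12 hc1A R h2
    · exact hsAdm R h
  -- the class survives
  have claim : ∀ L : Finset ι, L₀ ⊆ L → (∀ x ∈ L, ∀ j' < x, j' ∈ L) →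
      ¬ ∃ y : Finset σ → K, Adm {b : σ → ℕ | ∃ j' ∈ L, u j' ≤ b} a (i + 1) y ∧ cd y = z := by
    intro L
    induction L using Finset.strongInduction with
    | H L ih =>
      rintro hsub hLi ⟨y, hy, hyz⟩
      by_cases hLL : L = L₀
      · subst hLL
        have h1 : cd y F = 0 := by
          apply Finset.sum_eq_zero
          intro t ht
          simp only [Finset.mem_sdiff, Finset.mem_univ, true_and] at ht
          by_cases h2 : y (insert t F) = 0
          · rw [h2, smul_zero]
          · exfalso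
            have h3 := (hy _ h2).1
            have h4 : insert t F ≠ F := by
              intro h; apply ht; rw [← h]; exact Finset.mem_insert_self _ _
            exact hF1 (dl_sub up1 (Finset.subset_insert _ _) (hold _ h3 h4))
        rw [hyz, hzF] at h1
        exact one_ne_zero h1
      · have hne : L.Nonempty := ⟨j, hsub hjL⟩
        set j2 := L.max' hne with hj2
        have hj2L : j2 ∈ L := Finset.max'_mem _ _
        have hmax2 : ∀ j' ∈ L, j' ≤ j2 := fun j' h => Finset.le_max' _ _ h
        have hj2n : j2 ∉ L₀ := by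
          intro h
          apply hLL
          apply Finset.Subset.antisymm _ hsub
          intro x hx
          rw [memL₀] at h ⊢
          exact (hmax2 x hx).trans h
        have hsub2 : L₀ ⊆ L.erase j2 := by
          intro x hx
          exact Finset.mem_erase.2 ⟨fun h => hj2n (h ▸ hx), hsub hx⟩
        obtain ⟨b, hb, hb2⟩ := hSTEP K {b : σ → ℕ | ∃ j' ∈ L.erase j2, u j' ≤ b}
          {b : σ → ℕ | ∃ j' ∈ L, u j' ≤ b} (u j2) (T j2) (e j2) (upL u _) (he j2)
          (colL u T e hcol L hLi j2 hj2L hmax2) (splitL u L j2 hj2L) a (i + 1) y hy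
          (by
            intro R hR
            rw [hyz] at hR
            obtain ⟨⟨b, ⟨j', hj', h1⟩, h2⟩, _⟩ := hzA R hR
            exact ⟨b, ⟨j', hsub2 hj', h1⟩, h2⟩)
          (by
            intro F' h1 h2 h3
            have := huniq j2 F' h1 h3
            omega)
        refine ih (L.erase j2) (Finset.erase_ssubset hj2L) hsub2 (initL L hLi j2 hmax2)
          ⟨y - cd b, hb2, ?_⟩
        rw [cd_sub, hSGN.2.2.1, sub_zero, hyz]
  have huniv : {b : σ → ℕ | ∃ j, u j ≤ b} =
      {b : σ → ℕ | ∃ j' ∈ (Finset.univ : Finset ι), u j' ≤ b} := by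
    ext b; simp
  rw [huniv]
  refine ⟨z, adm_mono ?_ hzA, hzcd, claim Finset.univ (Finset.subset_univ _)
    (fun _ _ _ _ => Finset.mem_univ _)⟩
  rintro x ⟨j', _, h⟩
  exact ⟨j', Finset.mem_univ _, h⟩

end Pool.Agent.T2H28.FS
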