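import Pool.Agent.T2H28.FS.Stm

/-! Package POLY of project FS: the Koszul homology of a monomial ideal, multidegree by
multidegree. -/

namespace Pool.Agent.T2H28.FS

open MvPolynomial

universe u

namespace Poly

noncomputable section

variable {σ : Type}

theorem ind_mem {T : Finset σ} {t : σ} (h : t ∈ T) : ind T t = 1 := by
  unfold ind
  exact if_pos h

theorem ind_not {T : Finset σ} {t : σ} (h : t ∉ T) : ind T t = 0 := by
  unfold ind
  exact if_neg h

variable [Fintype σ]

/-- the finitely supported function -/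
def tf (a : σ → ℕ) : σ →₀ ℕ := Finsupp.equivFunOnFinite.symm a

theorem tf_apply (a : σ → ℕ) (t : σ) : tf a t = a t := rfl

theorem tf_coe (m : σ →₀ ℕ) : tf (⇑m) = m := by
  ext t
  rfl

theorem coe_tf (a : σ → ℕ) : ⇑(tf a) = a := rfl

theorem sum_ind (T : Finset σ) : ∑ t, ind T t = T.card := by
  classical
  have h : ∀ t ∈ Finset.univ, ind T t = if t ∈ T then 1 else 0 := by
    intro t _
    by_cases h : t ∈ T
    · rw [ind_mem h, if_pos h]
    · rw [ind_not h, if_neg h]
  rw [Finset.sum_congr rfl h, Finset.sum_ite_mem, Finset.univ_inter, Finset.sum_const,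
    smul_eq_mul, mul_one]

variable [LinearOrder σ] {K : Type u} [Field K]

omit [Fintype σ] in
theorem ind_insert {T : Finset σ} {t : σ} (h : t ∉ T) (s : σ) :
    ind (insert t T) s = ind T s + (Finsupp.single t 1 : σ →₀ ℕ) s := by
  by_cases hs : s = t
  · subst hs
    rw [ind_mem (Finset.mem_insert_self _ _), ind_not h, Finsupp.single_eq_same]
  · rw [Finsupp.single_eq_of_ne hs, add_zero]
    by_cases h1 : s ∈ T
    · rw [ind_mem h1, ind_mem (Finset.mem_insert_of_mem h1)]
    · rw [ind_not h1, ind_not (by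
        rw [Finset.mem_insert]
        rintro (h2 | h2)
        · exact hs h2
        · exact h1 h2)]

omit [Fintype σ] in
theorem ins_le {T : Finset σ} {t : σ} (h : t ∉ T) (a : σ → ℕ) :
    ind (insert t T) ≤ a ↔ ind T ≤ a ∧ 1 ≤ a t := by
  constructor
  · intro h1
    refine ⟨fun s => ?_, ?_⟩
    · have h2 : ind (insert t T) s ≤ a s := h1 s
      rw [ind_insert h] at h2
      show ind T s ≤ a s
      omega
    · have h2 : ind (insert t T) t ≤ a t := h1 t
      rwa [ind_mem (Finset.mem_insert_self _ _)] at h2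
  · rintro ⟨h1, h2⟩ s
    by_cases hs : s = t
    · subst hs
      rwa [ind_mem (Finset.mem_insert_self _ _)]
    · rw [ind_insert h, Finsupp.single_eq_of_ne hs, add_zero]
      exact h1 s

theorem tf_sub {T : Finset σ} {t : σ} (h : t ∉ T) (a : σ → ℕ) :
    tf (a - ind T) - Finsupp.single t 1 = tf (a - ind (insert t T)) := by
  ext s
  rw [Finsupp.tsub_apply, tf_apply, tf_apply, Pi.sub_apply, Pi.sub_apply, ind_insert h]
  omega

theorem tf_add {T : Finset σ} {t : σ} (h : t ∉ T) {a : σ → ℕ} (ha : ind (insert t T) ≤ a) :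
    Finsupp.single t 1 + tf (a - ind (insert t T)) = tf (a - ind T) := by
  ext s
  have h1 : ind (insert t T) s ≤ a s := ha s
  rw [Finsupp.add_apply, tf_apply, tf_apply, Pi.sub_apply, Pi.sub_apply]
  rw [ind_insert h] at h1 ⊢
  omega

omit [Fintype σ] [LinearOrder σ] in
theorem coeff_zs (m : σ →₀ ℕ) (z : ℤ) (f : MvPolynomial σ K) :
    coeff m (z • f) = z • coeff m f := map_zsmul (coeffAddMonoidHom m) z f

open scoped Classical in
/-- the part of multidegree `a` -/
def pr (a : σ → ℕ) (c : Finset σ → MvPolynomial σ K) : Finset σ → K :=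
  fun T => if ind T ≤ a then coeff (tf (a - ind T)) (c T) else 0

omit [LinearOrder σ] in
theorem pr_zero (a : σ → ℕ) : pr a (0 : Finset σ → MvPolynomial σ K) = 0 := by
  funext T
  unfold pr
  simp

theorem cd_zero : cd (0 : Finset σ → K) = 0 := by
  funext T
  unfold cd
  simp

theorem pr_kd (a : σ → ℕ) (c : Finset σ → MvPolynomial σ K) : pr a (kd K c) = cd (pr a c) := by
  classical
  funext T
  unfold pr kd cd
  by_cases h : ind T ≤ a
  · rw [if_pos h, coeff_sum]
    refine Finset.sum_congr rfl fun t ht => ?_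
    have ht' : t ∉ T := (Finset.mem_sdiff.1 ht).2
    rw [coeff_zs, smul_eq_mul, coeff_X_mul']
    congr 1
    show _ = if ind (insert t T) ≤ a then coeff (tf (a - ind (insert t T))) (c (insert t T)) else 0
    have e1 : (tf (a - ind T)) t = a t := by
      rw [tf_apply, Pi.sub_apply, ind_not ht', Nat.sub_zero]
    by_cases h1 : 1 ≤ a t
    · rw [if_pos (by rw [Finsupp.mem_support_iff, e1]; omega), if_pos ((ins_le ht' a).2 ⟨h, h1⟩),
        tf_sub ht']
    · rw [if_neg (by rw [Finsupp.mem_support_iff, e1]; omega),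
        if_neg (fun h2 => h1 ((ins_le ht' a).1 h2).2)]
  · rw [if_neg h]
    symm
    refine Finset.sum_eq_zero fun t ht => ?_
    have ht' : t ∉ T := (Finset.mem_sdiff.1 ht).2
    show sg t T • (if ind (insert t T) ≤ a then
      coeff (tf (a - ind (insert t T))) (c (insert t T)) else 0) = 0
    rw [if_neg (fun h2 => h ((ins_le ht' a).1 h2).1), smul_zero]

/-- the chain with values in the monomials -/
def em (a : σ → ℕ) (b : Finset σ → K) : Finset σ → MvPolynomial σ K :=
  fun T => monomial (tf (a - ind T)) (b T)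

theorem kd_em (a : σ → ℕ) (b : Finset σ → K) (hb : ∀ T, b T ≠ 0 → ind T ≤ a) :
    kd K (em a b) = em a (cd b) := by
  funext T
  unfold kd em cd
  rw [map_sum]
  refine Finset.sum_congr rfl fun t ht => ?_
  have ht' : t ∉ T := (Finset.mem_sdiff.1 ht).2
  rw [map_zsmul]
  congr 1
  rw [smul_eq_mul, X, monomial_mul, one_mul]
  by_cases h0 : b (insert t T) = 0
  · rw [h0, map_zero, map_zero]
  · rw [tf_add ht' (hb _ h0)]

omit [Fintype σ] [LinearOrder σ] in
theorem adm_le {U : Set (σ → ℕ)} {a : σ → ℕ} {i : ℕ} {b : Finset σ → K} (h : Adm U a i b)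
    (T : Finset σ) (hT : b T ≠ 0) : ind T ≤ a := by
  obtain ⟨⟨d, _, hd⟩, _⟩ := h T hT
  intro s
  rw [← hd, Pi.add_apply]
  exact Nat.le_add_left _ _

omit [Fintype σ] [LinearOrder σ] in
theorem dl_sub {U : Set (σ → ℕ)} {a : σ → ℕ} {T : Finset σ} (h : Dl U a T) : a - ind T ∈ U := by
  obtain ⟨d, hd, rfl⟩ := h
  have : d + ind T - ind T = d := by
    funext s
    simp
  rwa [this]

theorem pr_em (a : σ → ℕ) (b : Finset σ → K) (hb : ∀ T, b T ≠ 0 → ind T ≤ a) :
    pr a (em a b) = b := by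
  classical
  funext T
  unfold pr em
  by_cases h : ind T ≤ a
  · rw [if_pos h, coeff_monomial, if_pos rfl]
  · rw [if_neg h]
    by_contra hne
    exact h (hb T (Ne.symm hne))

omit [LinearOrder σ] in
theorem em_mem {U : Set (σ → ℕ)}
    (hm : ∀ f : MvPolynomial σ K, f ∈ Mon K U ↔ ∀ m ∈ f.support, (⇑m : σ → ℕ) ∈ U)
    {a : σ → ℕ} {i : ℕ} {b : Finset σ → K} (h : Adm U a i b) (T : Finset σ) :
    em a b T ∈ Mon K U := by
  unfold em
  by_cases h0 : b T = 0
  · rw [h0, map_zero]
    exact (Mon K U).zero_mem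
  · rw [hm]
    intro m hmm
    have h1 := support_monomial_subset hmm
    rw [Finset.mem_singleton] at h1
    rw [h1, coe_tf]
    exact dl_sub (h T h0).1

omit [LinearOrder σ] in
theorem em_card {U : Set (σ → ℕ)} {a : σ → ℕ} {i : ℕ} {b : Finset σ → K} (h : Adm U a i b)
    (T : Finset σ) (hT : T.card ≠ i) : em a b T = 0 := by
  unfold em
  by_cases h0 : b T = 0
  · rw [h0, map_zero]
  · exact absurd (h T h0).2 hT

omit [LinearOrder σ] in
theorem pr_adm {U : Set (σ → ℕ)}
    (hm : ∀ f : MvPolynomial σ K, f ∈ Mon K U ↔ ∀ m ∈ f.support, (⇑m : σ → ℕ) ∈ U)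
    (a : σ → ℕ) {i : ℕ} {c : Finset σ → MvPolynomial σ K} (h1 : ∀ T, c T ∈ Mon K U)
    (h2 : ∀ T, T.card ≠ i → c T = 0) : Adm U a i (pr a c) := by
  classical
  intro T hT
  unfold pr at hT
  by_cases h : ind T ≤ a
  · rw [if_pos h] at hT
    refine ⟨⟨a - ind T, ?_, ?_⟩, ?_⟩
    · have := (hm _).1 (h1 T) _ (mem_support_iff.2 hT)
      rwa [coe_tf] at this
    · funext s
      have h3 : ind T s ≤ a s := h s
      rw [Pi.add_apply, Pi.sub_apply]
      omega
    · by_contra hcard
      apply hT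
      rw [h2 T hcard, coeff_zero]
  · rw [if_neg h] at hT
    exact absurd rfl hT

theorem decomp (c : Finset σ → MvPolynomial σ K) (S : Finset (σ → ℕ))
    (hS : ∀ T, ∀ m ∈ (c T).support, ⇑m + ind T ∈ S) (T : Finset σ) :
    ∑ a ∈ S, em a (pr a c) T = c T := by
  classical
  apply MvPolynomial.ext
  intro m
  rw [coeff_sum]
  have e0 : ⇑m + ind T - ind T = ⇑m := by
    funext s
    simp
  have e1 : ind T ≤ ⇑m + ind T := by
    intro s
    rw [Pi.add_apply]
    exact Nat.le_add_left _ _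
  have e2 : pr (⇑m + ind T) c T = coeff m (c T) := by
    unfold pr
    rw [if_pos e1, e0, tf_coe]
  rw [Finset.sum_eq_single (⇑m + ind T)]
  · unfold em
    rw [coeff_monomial, e0, tf_coe, if_pos rfl, e2]
  · intro a _ ha
    unfold em
    rw [coeff_monomial]
    split_ifs with h
    · unfold pr
      by_cases h1 : ind T ≤ a
      · exfalso
        apply ha
        funext s
        have h2 : ind T s ≤ a s := h1 s
        have h3 := DFunLike.congr_fun h s
        rw [tf_apply, Pi.sub_apply] at h3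
        rw [Pi.add_apply]
        omega
      · rw [if_neg h1]
    · rfl
  · intro h
    unfold em
    rw [coeff_monomial, e0, tf_coe, if_pos rfl, e2]
    by_contra hne
    exact h (hS T m (mem_support_iff.2 hne))

theorem kd_sum {α : Type} (S : Finset α) (f : α → Finset σ → MvPolynomial σ K) :
    kd K (fun T => ∑ a ∈ S, f a T) = fun T => ∑ a ∈ S, kd K (f a) T := by
  funext T
  unfold kd
  rw [Finset.sum_comm]
  refine Finset.sum_congr rfl fun t _ => ?_
  rw [Finset.smul_sum, Finset.smul_sum]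

/-- a cycle all of whose parts are boundaries is a boundary -/
theorem main1 {U : Set (σ → ℕ)}
    (hm : ∀ f : MvPolynomial σ K, f ∈ Mon K U ↔ ∀ m ∈ f.support, (⇑m : σ → ℕ) ∈ U)
    {i : ℕ} {c : Finset σ → MvPolynomial σ K} (h1 : ∀ T, c T ∈ Mon K U)
    (h2 : ∀ T, T.card ≠ i → c T = 0) (h3 : kd K c = 0)
    (h4 : ∀ a, pr a c ≠ 0 → ¬ CNZ K U i a) :
    ∃ b : Finset σ → MvPolynomial σ K,
      (∀ T, b T ∈ Mon K U) ∧ (∀ T, T.card ≠ i + 1 → b T = 0) ∧ kd K b = c := by
  classical
  have hb : ∀ a, ∃ b : Finset σ → K, Adm U a (i + 1) b ∧ cd b = pr a c := by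
    intro a
    by_cases h0 : pr a c = 0
    · refine ⟨0, fun T h => absurd rfl h, ?_⟩
      rw [h0, cd_zero]
    · by_contra hcon
      exact h4 a h0 ⟨pr a c, pr_adm hm a h1 h2, by rw [← pr_kd, h3, pr_zero], hcon⟩
  choose b hb1 hb2 using hb
  set S : Finset (σ → ℕ) := Finset.univ.biUnion fun T : Finset σ =>
    (c T).support.image fun m : σ →₀ ℕ => ⇑m + ind T with hS
  have hSm : ∀ T, ∀ m ∈ (c T).support, ⇑m + ind T ∈ S := by
    intro T m hmm
    rw [hS, Finset.mem_biUnion]
    exact ⟨T, Finset.mem_univ _, Finset.mem_image.2 ⟨m, hmm, rfl⟩⟩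
  refine ⟨fun T => ∑ a ∈ S, em a (b a) T, ?_, ?_, ?_⟩
  · intro T
    exact (Mon K U).sum_mem fun a _ => em_mem hm (hb1 a) T
  · intro T hT
    exact Finset.sum_eq_zero fun a _ => em_card (hb1 a) T hT
  · rw [kd_sum]
    funext T
    rw [← decomp c S hSm T]
    refine Finset.sum_congr rfl fun a _ => ?_
    rw [kd_em a (b a) (adm_le (hb1 a)), hb2 a]

theorem main2 {U : Set (σ → ℕ)}
    (hm : ∀ f : MvPolynomial σ K, f ∈ Mon K U ↔ ∀ m ∈ f.support, (⇑m : σ → ℕ) ∈ U)
    {i : ℕ} {a : σ → ℕ} (h : CNZ K U i a) :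
    ∃ c : Finset σ → MvPolynomial σ K,
      (∀ T, c T ∈ Mon K U) ∧ (∀ T, T.card ≠ i → c T = 0) ∧ kd K c = 0 ∧
      (∀ e, ∑ t, a t = e + i → ∀ T, (c T).IsHomogeneous e) ∧
      ¬ ∃ b : Finset σ → MvPolynomial σ K,
        (∀ T, b T ∈ Mon K U) ∧ (∀ T, T.card ≠ i + 1 → b T = 0) ∧ kd K b = c := by
  obtain ⟨c, h1, h2, h3⟩ := h
  refine ⟨em a c, em_mem hm h1, em_card h1, ?_, ?_, ?_⟩
  · rw [kd_em a c (adm_le h1), h2]
    funext T
    unfold em
    simp
  · intro e he T
    unfold em
    by_cases h0 : c T = 0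
    · rw [h0, map_zero]
      exact isHomogeneous_zero _ _ _
    · apply isHomogeneous_monomial
      have h4 := adm_le h1 T h0
      have h5 := (h1 T h0).2
      have h6 : ∑ t, a t = ∑ t, (tf (a - ind T)) t + ∑ t, ind T t := by
        rw [← Finset.sum_add_distrib]
        refine Finset.sum_congr rfl fun t _ => ?_
        have h7 : ind T t ≤ a t := h4 t
        rw [tf_apply, Pi.sub_apply]
        omega
      rw [sum_ind, h5, he] at h6
      rw [Finsupp.degree_eq_sum]
      omega
  · rintro ⟨b, hb1, hb2, hb3⟩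
    refine h3 ⟨pr a b, pr_adm hm a hb1 hb2, ?_⟩
    rw [← pr_kd, hb3, pr_em a c (adm_le h1)]

omit [LinearOrder σ] in
theorem pr_deg {i e : ℕ} {c : Finset σ → MvPolynomial σ K}
    (h2 : ∀ T, T.card ≠ i → c T = 0) (h3 : ∀ T, (c T).IsHomogeneous e) {a : σ → ℕ}
    (h : pr a c ≠ 0) : ∑ t, a t = e + i := by
  classical
  obtain ⟨T, hT⟩ := Function.ne_iff.1 h
  unfold pr at hT
  by_cases h4 : ind T ≤ a
  · rw [if_pos h4] at hT
    have hT' : coeff (tf (a - ind T)) (c T) ≠ 0 := hT
    have h5 : T.card = i := by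
      by_contra hc
      apply hT'
      rw [h2 T hc, coeff_zero]
    have h6 : ∑ t, a t = ∑ t, (tf (a - ind T)) t + ∑ t, ind T t := by
      rw [← Finset.sum_add_distrib]
      refine Finset.sum_congr rfl fun t _ => ?_
      have h7 : ind T t ≤ a t := h4 t
      rw [tf_apply, Pi.sub_apply]
      omega
    have h7 := h3 T hT'
    rw [sum_ind, h5] at h6
    have h8 : Finsupp.weight 1 (tf (a - ind T)) = ∑ t, (tf (a - ind T)) t := by
      rw [Finsupp.weight_apply, Finsupp.sum_fintype]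
      · simp
      · simp
    rw [h8] at h7
    omega
  · rw [if_neg h4] at hT
    exact absurd rfl hT

theorem kd_coe {U : Set (σ → ℕ)} (c : Finset σ → Mon K U) (T : Finset σ) :
    ((kd K c T : Mon K U) : MvPolynomial σ K) =
      kd K (fun T => ((c T : Mon K U) : MvPolynomial σ K)) T := by
  have h : ∀ x : Mon K U, (x : MvPolynomial σ K) = (Mon K U).subtype x := fun _ => rfl
  unfold kd
  rw [h, map_sum]
  refine Finset.sum_congr rfl fun t _ => ?_
  rw [map_zsmul, map_smul]
  rfl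

end

end Poly

open Pool.Agent.T2H28.FS.Poly in
theorem T_POLY : P_POLY.{u} := by
  intro σ _ _ K _ U _ hm
  refine ⟨fun i e => ⟨?_, ?_⟩, fun i => ⟨?_, ?_⟩⟩
  · rintro ⟨c, h1, h2, h3, h4, h5⟩
    by_contra hcon
    apply h5
    refine main1 hm h1 h3 h4 fun a ha hC => hcon ⟨a, pr_deg h3 h2 ha, hC⟩
  · rintro ⟨a, ha, hC⟩
    obtain ⟨c, h1, h2, h3, h4, h5⟩ := main2 hm hC
    exact ⟨c, h1, h4 e ha, h2, h3, h5⟩
  · intro hKZ a hC
    obtain ⟨c, h1, h2, h3, _, h5⟩ := main2 hm hC
    apply h5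
    set c' : Finset σ → Mon K U := fun T => ⟨c T, h1 T⟩ with hc'
    obtain ⟨b, hb1, hb2⟩ := hKZ c' (fun T hT => Subtype.ext (h2 T hT)) (by
      funext T
      apply Subtype.ext
      rw [kd_coe]
      exact congrFun h3 T)
    refine ⟨fun T => (b T : MvPolynomial σ K), fun T => (b T).2, fun T hT => ?_, ?_⟩
    · show ((b T : Mon K U) : MvPolynomial σ K) = 0
      rw [hb1 T hT]
      rfl
    · funext T
      rw [← kd_coe, hb2]
  · intro hC c hc1 hc2
    obtain ⟨b, hb1, hb2, hb3⟩ := main1 hm (c := fun T => (c T : MvPolynomial σ K))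
      (fun T => (c T).2) (fun T hT => by
        show ((c T : Mon K U) : MvPolynomial σ K) = 0
        rw [hc1 T hT]
        rfl) (by
        funext T
        rw [← kd_coe, hc2]
        rfl) (fun a _ => hC a)
    refine ⟨fun T => ⟨b T, hb1 T⟩, fun T hT => Subtype.ext (hb2 T hT), ?_⟩
    funext T
    apply Subtype.ext
    rw [kd_coe]
    exact congrFun hb3 T

end Pool.Agent.T2H28.FS
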