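import Pool.Agent.T2H28.FS.Stm

/-!
# Package PPQ2: linear quotients in two variables
-/

set_option autoImplicit false

namespace Pool.Agent.T2H28.FS

open MvPolynomial

namespace PkgPPQ2

/-- the predecessor in `E` -/
noncomputable def pd (E : Set ℕ) (i : ℕ) : ℕ := by
  classical exact Nat.findGreatest (· ∈ E) (i - 1)

theorem pd_mem (E : Set ℕ) (h0 : 0 ∈ E) (i : ℕ) : pd E i ∈ E := by
  classical
  exact Nat.findGreatest_spec (P := (· ∈ E)) (Nat.zero_le _) h0

theorem pd_lt (E : Set ℕ) (i : ℕ) (hi : 0 < i) : pd E i < i := by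
  classical
  have : pd E i ≤ i - 1 := Nat.findGreatest_le _
  omega

theorem le_pd (E : Set ℕ) (i f : ℕ) (hf : f ∈ E) (h : f < i) : f ≤ pd E i := by
  classical
  exact Nat.le_findGreatest (P := (· ∈ E)) (by omega) hf

/-- the variables of the colon ideals -/
def TT (i : ℕ) : Finset (Fin 2) := if i = 0 then ∅ else {0}

/-- the exponents of the colon ideals -/
noncomputable def ex (E : Set ℕ) (i : ℕ) : Fin 2 → ℕ := fun _ => i - pd E i

theorem mem_TT {i : ℕ} {t : Fin 2} : t ∈ TT i ↔ 0 < i ∧ t = 0 := by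
  unfold TT
  split_ifs with h
  · simp [h]
  · simp only [Finset.mem_singleton]
    constructor
    · intro ht
      exact ⟨by omega, ht⟩
    · exact fun ht => ht.2

theorem card_TT (i : ℕ) : (TT i).card = if i = 0 then 0 else 1 := by
  unfold TT
  split_ifs <;> simp

theorem sum_TT (i : ℕ) (f : Fin 2 → ℕ) : ∑ t ∈ TT i, f t = if i = 0 then 0 else f 0 := by
  unfold TT
  split_ifs <;> simp

end PkgPPQ2

open PkgPPQ2

theorem T_PPQ2 : P_PPQ2 := by
  classical
  intro E N G hN hG h0 hNE hE hgap hex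
  have hgap' : ∀ i, 0 < i → i ≤ N → i - pd E i ≤ G := by
    intro i hi hiN
    obtain ⟨e', he', h1, h2⟩ := hgap (pd E i) (pd_mem E h0 i)
      (lt_of_lt_of_le (pd_lt E i hi) hiN)
    have h3 : ¬ e' < i := fun h => by
      have := le_pd E i e' he' h
      omega
    omega
  refine ⟨{x : Fin (N + 1) // x.val ∈ E}, inferInstance, inferInstance,
    fun i => ![N - i.1.val, i.1.val], fun i => TT i.1.val, fun i => ex E i.1.val,
    ?_, ?_, ?_, ?_, ?_, ?_, ?_, ?_⟩
  · intro a
    constructor
    · rintro ⟨e, he, h1, h2⟩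
      refine ⟨⟨⟨e, Nat.lt_succ_of_le (hE e he)⟩, he⟩, ?_⟩
      intro t
      fin_cases t
      · exact h1
      · exact h2
    · rintro ⟨i, hi⟩
      exact ⟨i.1.val, i.2, hi 0, hi 1⟩
  · intro i t ht
    have h1 := (mem_TT.1 ht).1
    have h2 := pd_lt E _ h1
    show 1 ≤ i.1.val - pd E i.1.val
    omega
  · intro i w
    have hiN := hE _ i.2
    constructor
    · rintro ⟨j, hj, h⟩
      have hj' : j.1.val < i.1.val := hj
      have h1 : N - j.1.val ≤ (N - i.1.val) + w 0 := h 0
      have h2 := le_pd E i.1.val j.1.val j.2 hj'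
      have h3 := pd_lt E i.1.val (by omega)
      refine ⟨0, mem_TT.2 ⟨by omega, rfl⟩, ?_⟩
      show i.1.val - pd E i.1.val ≤ w 0
      omega
    · rintro ⟨t, ht, h⟩
      obtain ⟨h1, rfl⟩ := mem_TT.1 ht
      have h2 := pd_lt E i.1.val h1
      have h' : i.1.val - pd E i.1.val ≤ w 0 := h
      refine ⟨⟨⟨pd E i.1.val, by omega⟩, pd_mem E h0 _⟩, h2, ?_⟩
      intro t
      fin_cases t
      · show N - pd E i.1.val ≤ (N - i.1.val) + w 0
        omega
      · show pd E i.1.val ≤ i.1.val + w 1
        omega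
  · intro i j F G' hF hG' heq
    have hb : ∀ (S : Finset (Fin 2)) (e : Fin 2 → ℕ) (t : Fin 2),
        bump S e t = if t ∈ S then e t else 0 := by
      intro S e t
      unfold bump
      congr 1
    have h1 : ∀ (i : {x : Fin (N + 1) // x.val ∈ E}) (S : Finset (Fin 2)), S ⊆ TT i.1.val →
        (1 : Fin 2) ∉ S := by
      intro i S hS h
      have := (mem_TT.1 (hS h)).2
      exact absurd this (by decide)
    have e1 := congrFun heq 1
    rw [Pi.add_apply, Pi.add_apply, hb, hb, if_neg (h1 i F hF), if_neg (h1 j G' hG')] at e1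
    have e1' : i.1.val = j.1.val := e1
    have e0 := congrFun heq 0
    rw [Pi.add_apply, Pi.add_apply, hb, hb] at e0
    have e0' : (N - i.1.val) + (if (0 : Fin 2) ∈ F then i.1.val - pd E i.1.val else 0) =
      (N - j.1.val) + (if (0 : Fin 2) ∈ G' then j.1.val - pd E j.1.val else 0) := e0
    rw [← e1'] at e0'
    have hiff : (0 : Fin 2) ∈ F ↔ (0 : Fin 2) ∈ G' := by
      constructor
      · intro h
        by_contra hc
        rw [if_pos h, if_neg hc] at e0'
        have := pd_lt E i.1.val (mem_TT.1 (hF h)).1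
        omega
      · intro h
        by_contra hc
        rw [if_neg hc, if_pos h] at e0'
        have h2 := (mem_TT.1 (hG' h)).1
        have := pd_lt E i.1.val (by omega)
        omega
    congr 1
    ext t
    fin_cases t
    · exact hiff
    · exact ⟨fun h => absurd h (h1 i F hF), fun h => absurd h (h1 j G' hG')⟩
  · intro i
    rw [card_TT]
    split_ifs <;> omega
  · refine ⟨⟨⟨N, by omega⟩, hNE⟩, ?_⟩
    rw [card_TT]
    rw [if_neg (by show ¬ N = 0; omega)]
  · intro i
    have hiN := hE _ i.2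
    rw [Fin.sum_univ_two, sum_TT]
    show (N - i.1.val) + i.1.val + (if i.1.val = 0 then 0 else (i.1.val - pd E i.1.val) - 1) ≤
      N + G - 1
    split_ifs with h
    · omega
    · have := hgap' i.1.val (by omega) hiN
      omega
  · obtain ⟨e, he, heG, hno⟩ := hex
    have hN' := hE _ heG
    refine ⟨⟨⟨e + G, by omega⟩, heG⟩, ?_⟩
    rw [Fin.sum_univ_two, sum_TT]
    show (N - (e + G)) + (e + G) + (if e + G = 0 then 0 else (e + G - pd E (e + G)) - 1) =
      N + G - 1
    have h1 : pd E (e + G) = e := by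
      have h2 := le_pd E (e + G) e he (by omega)
      have h3 := pd_lt E (e + G) (by omega)
      have h4 := hno _ (pd_mem E h0 (e + G))
      omega
    rw [h1, if_neg (by omega)]
    omega

end Pool.Agent.T2H28.FS
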