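import Pool.Agent.T2H28.FS.Stm

/-! Package PPQD of project FS: generator data of block D. -/

namespace Pool.Agent.T2H28.FS

open MvPolynomial

universe u

namespace PPQD

lemma sum_bump {σ : Type} [Fintype σ] (F : Finset σ) (e : σ → ℕ) :
    ∑ t, bump F e t = ∑ t ∈ F, e t := by
  classical
  simp only [bump, Finset.sum_ite_mem, Finset.univ_inter]

lemma fin_idx (d k : ℕ) : {c : Fin d → ℕ | Monotone c ∧ ∀ t, c t ≤ k}.Finite := by
  refine (Set.finite_Iic (fun _ : Fin d => k)).subset ?_
  rintro g ⟨-, hg⟩ t
  exact hg t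

/-- the generator of `c` -/
def gen (d k : ℕ) (c : Fin d → ℕ) : Fin d ⊕ Fin d → ℕ := Sum.elim (fun t => k - c t) (fun t => 2 * c t)

/-- the jumps of `c` -/
def jmp (d : ℕ) (c : Fin d → ℕ) : Finset (Fin d) := by
  classical exact Finset.univ.filter (fun t => 0 < c t ∧ ∀ s, s < t → c s < c t)

lemma mem_jmp (d : ℕ) (c : Fin d → ℕ) (t : Fin d) :
    t ∈ jmp d c ↔ 0 < c t ∧ ∀ s, s < t → c s < c t := by
  classical
  simp [jmp]

lemma sum_gen (d k : ℕ) (c : Fin d → ℕ) (hc : ∀ t, c t ≤ k) :
    ∑ x, gen d k c x = ∑ t, (k + c t) := by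
  rw [Fintype.sum_sum_type, ← Finset.sum_add_distrib]
  refine Finset.sum_congr rfl fun t _ => ?_
  have := hc t
  simp only [gen, Sum.elim_inl, Sum.elim_inr]
  omega

lemma card_jmp (d k : ℕ) (c : Fin d → ℕ) (hc : ∀ t, c t ≤ k) : (jmp d c).card ≤ min k d := by
  classical
  refine le_min ?_ ?_
  · have h1 : ((jmp d c).image c).card = (jmp d c).card := by
      refine Finset.card_image_of_injOn fun s hs t ht hst => ?_
      have hs' := (mem_jmp d c s).1 hs
      have ht' := (mem_jmp d c t).1 ht
      rcases lt_trichotomy s t with h | h | h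
      · have := ht'.2 s h
        omega
      · exact h
      · have := hs'.2 t h
        omega
    have h2 : (jmp d c).image c ⊆ Finset.Icc 1 k := by
      intro x hx
      rw [Finset.mem_image] at hx
      obtain ⟨t, ht, rfl⟩ := hx
      rw [Finset.mem_Icc]
      exact ⟨((mem_jmp d c t).1 ht).1, hc t⟩
    have h3 := Finset.card_le_card h2
    rw [h1, Nat.card_Icc] at h3
    omega
  · have := Finset.card_le_univ (jmp d c)
    simpa using this

lemma card_filter_lt (d k : ℕ) : (Finset.univ.filter (fun t : Fin d => t.val < k)).card = min k d := by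
  classical
  have h1 : (Finset.univ.filter (fun t : Fin d => t.val < k)).map Fin.valEmbedding =
      Finset.range (min k d) := by
    ext x
    simp only [Finset.mem_map, Finset.mem_filter, Finset.mem_univ, true_and, Fin.valEmbedding_apply,
      Finset.mem_range, lt_min_iff]
    constructor
    · rintro ⟨t, ht, rfl⟩
      exact ⟨ht, t.2⟩
    · rintro ⟨h, h'⟩
      exact ⟨⟨x, h'⟩, h, rfl⟩
  have h2 := congrArg Finset.card h1
  rwa [Finset.card_map, Finset.card_range] at h2

end PPQD

open PPQD in
theorem T_PPQD : P_PPQD := by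
  classical
  intro d k hd hk
  have hfin := fin_idx d k
  refine ⟨{c : Fin d → ℕ // Monotone c ∧ ∀ t, c t ≤ k}, hfin.fintype,
    LinearOrder.lift' (fun g => toLex g.1) (fun g g' h => Subtype.ext (toLex.injective h)),
    fun c => gen d k c.1, fun c => (jmp d c.1).map Function.Embedding.inl, fun _ _ => 1,
    ?_, fun _ _ _ => le_rfl, ?_, ?_, ?_, ?_, ?_, ?_⟩
  · intro a
    constructor
    · intro ha
      have ha' : ∀ s t : Fin d, s ≤ t → k ≤ a (Sum.inl s) + a (Sum.inr t) / 2 := ha
      refine ⟨⟨fun t => (Finset.Iic t).sup (fun s => k - a (Sum.inl s)), ?_, ?_⟩, ?_⟩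
      · intro s t hst
        exact Finset.sup_mono (Finset.Iic_subset_Iic.2 hst)
      · intro t
        exact Finset.sup_le fun s _ => Nat.sub_le _ _
      · rintro (t | t)
        · have h1 : k - a (Sum.inl t) ≤ (Finset.Iic t).sup (fun s => k - a (Sum.inl s)) :=
            Finset.le_sup (f := fun s => k - a (Sum.inl s)) (Finset.mem_Iic.2 le_rfl)
          show k - (Finset.Iic t).sup (fun s => k - a (Sum.inl s)) ≤ a (Sum.inl t)
          omega
        · have h1 : (Finset.Iic t).sup (fun s => k - a (Sum.inl s)) ≤ a (Sum.inr t) / 2 := by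
            refine Finset.sup_le fun s hs => ?_
            have := ha' s t (Finset.mem_Iic.1 hs)
            omega
          show 2 * (Finset.Iic t).sup (fun s => k - a (Sum.inl s)) ≤ a (Sum.inr t)
          omega
    · rintro ⟨⟨c, hc, hck⟩, hle⟩ s t hst
      have h1 : k - c s ≤ a (Sum.inl s) := hle (Sum.inl s)
      have h2 : 2 * c t ≤ a (Sum.inr t) := hle (Sum.inr t)
      have h3 := hc hst
      omega
  · rintro ⟨c, hc, hck⟩ w
    constructor
    · rintro ⟨⟨c', hc', hck'⟩, hlt, hle⟩
      have hlt' : toLex c' < toLex c := hlt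
      obtain ⟨t, ht1, ht2⟩ := hlt'
      have ht1' : ∀ j, j < t → c' j = c j := ht1
      have ht2' : c' t < c t := ht2
      refine ⟨Sum.inl t, ?_, ?_⟩
      · refine Finset.mem_map.2 ⟨t, (mem_jmp d c t).2 ⟨by omega, fun s hs => ?_⟩, rfl⟩
        rw [← ht1' s hs]
        exact (hc' hs.le).trans_lt ht2'
      · have h1 : k - c' t ≤ (k - c t) + w (Sum.inl t) := hle (Sum.inl t)
        have h2 := hck t
        show 1 ≤ w (Sum.inl t)
        omega
    · rintro ⟨x, hx, hw⟩
      obtain ⟨t, ht, rfl⟩ := Finset.mem_map.1 hx
      have ht' := (mem_jmp d c t).1 ht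
      have hw' : 1 ≤ w (Sum.inl t) := hw
      have hval : ∀ s, (fun s => c s - (if s = t then 1 else 0)) s = c s - (if s = t then 1 else 0) :=
        fun _ => rfl
      refine ⟨⟨fun s => c s - (if s = t then 1 else 0), ?_, ?_⟩, ?_, ?_⟩
      · intro x y hxy
        show c x - (if x = t then 1 else 0) ≤ c y - (if y = t then 1 else 0)
        have h1 := hc hxy
        by_cases hy : y = t
        · subst hy
          by_cases hx' : x = y
          · subst hx'
            exact le_rfl
          · have := ht'.2 x (lt_of_le_of_ne hxy hx')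
            rw [if_neg hx', if_pos rfl]
            omega
        · rw [if_neg hy]
          omega
      · intro s
        have := hck s
        show c s - (if s = t then 1 else 0) ≤ k
        omega
      · show toLex (fun s => c s - (if s = t then 1 else 0)) < toLex c
        refine ⟨t, fun s hs => ?_, ?_⟩
        · show c s - (if s = t then 1 else 0) = c s
          rw [if_neg (ne_of_lt hs)]
          omega
        · show c t - (if t = t then 1 else 0) < c t
          rw [if_pos rfl]
          omega
      · rintro (s | s)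
        · show k - (c s - (if s = t then 1 else 0)) ≤ (k - c s) + w (Sum.inl s)
          have := hck s
          by_cases hs : s = t
          · subst hs
            rw [if_pos rfl]
            omega
          · rw [if_neg hs]
            omega
        · show 2 * (c s - (if s = t then 1 else 0)) ≤ 2 * c s + w (Sum.inr s)
          omega
  · rintro ⟨c, hc, hck⟩ ⟨c', hc', hck'⟩ F G hF hG he
    have hb : ∀ (F : Finset (Fin d ⊕ Fin d)) (c : Fin d → ℕ), F ⊆ (jmp d c).map Function.Embedding.inl →
        ∀ t, bump F (fun _ => 1) (Sum.inr t) = 0 := by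
      intro F c hF t
      have h1 : (Sum.inr t : Fin d ⊕ Fin d) ∉ F := by
        intro h
        obtain ⟨s, -, hs⟩ := Finset.mem_map.1 (hF h)
        exact Sum.inl_ne_inr hs
      simp [bump, h1]
    have hcc : c = c' := by
      funext t
      have h1 : 2 * c t + bump F (fun _ => 1) (Sum.inr t) = 2 * c' t + bump G (fun _ => 1) (Sum.inr t) :=
        congrFun he (Sum.inr t)
      rw [hb F c hF, hb G c' hG] at h1
      omega
    subst hcc
    have h1 : bump F (fun _ => 1) = bump G (fun _ => 1) := add_left_cancel he
    have h2 : ∑ t, bump F (fun _ => 1) t = ∑ t, bump G (fun _ => 1) t := by rw [h1]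
    rw [sum_bump, sum_bump] at h2
    simpa using h2
  · rintro ⟨c, hc, hck⟩
    rw [Finset.card_map]
    exact card_jmp d k c hck
  · refine ⟨⟨fun t => min (t.val + 1) k, ?_, fun t => min_le_right _ _⟩, ?_⟩
    · intro s t hst
      have : s.val ≤ t.val := hst
      show min (s.val + 1) k ≤ min (t.val + 1) k
      omega
    · rw [Finset.card_map, ← card_filter_lt d k]
      congr 1
      ext t
      rw [mem_jmp, Finset.mem_filter]
      constructor
      · rintro ⟨h1, h2⟩
        refine ⟨Finset.mem_univ _, ?_⟩
        by_contra hno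
        push Not at hno
        have h3 := h2 ⟨t.val - 1, by omega⟩ (by rw [Fin.lt_def]; show t.val - 1 < t.val; omega)
        simp only at h3
        omega
      · rintro ⟨-, h⟩
        refine ⟨by show 0 < min (t.val + 1) k; omega, fun s hs => ?_⟩
        have : s.val < t.val := hs
        show min (s.val + 1) k < min (t.val + 1) k
        omega
  · rintro ⟨c, hc, hck⟩
    rw [sum_gen d k c hck]
    simp only [Nat.sub_self, Finset.sum_const_zero, add_zero]
    calc ∑ t, (k + c t) ≤ ∑ _t : Fin d, (k + k) := Finset.sum_le_sum fun t _ => by have := hck t; omega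
      _ = 2 * d * k := by simp; ring
  · refine ⟨⟨fun _ => k, monotone_const, fun _ => le_rfl⟩, ?_⟩
    rw [sum_gen d k _ (fun _ => le_rfl)]
    simp
    ring

end Pool.Agent.T2H28.FS
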