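import Pool.Agent.T2H28.FS.Stm

/-! Package PPQP of project FS -/

namespace Pool.Agent.T2H28.FS

open MvPolynomial

universe u

namespace PkgPPQP

theorem bump_inl {σ τ : Type} (F : Finset (σ ⊕ τ)) (e1 : σ → ℕ) (e2 : τ → ℕ) (t : σ) :
    bump F (Sum.elim e1 e2) (Sum.inl t) = bump F.toLeft e1 t := by
  classical
  unfold bump
  by_cases h : Sum.inl t ∈ F
  · rw [if_pos h, if_pos (by simpa using h)]; rfl
  · rw [if_neg h, if_neg (by simpa using h)]

theorem bump_inr {σ τ : Type} (F : Finset (σ ⊕ τ)) (e1 : σ → ℕ) (e2 : τ → ℕ) (t : τ) :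
    bump F (Sum.elim e1 e2) (Sum.inr t) = bump F.toRight e2 t := by
  classical
  unfold bump
  by_cases h : Sum.inr t ∈ F
  · rw [if_pos h, if_pos (by simpa using h)]; rfl
  · rw [if_neg h, if_neg (by simpa using h)]

end PkgPPQP

open PkgPPQP in
theorem T_PPQP : P_PPQP := by
  classical
  intro σ τ _ _ U V P₁ ρ₁ P₂ ρ₂ h1 h2
  obtain ⟨ι₁, _, _, u₁, T₁, e₁, a1, a2, a3, a4, a5, ⟨i5, a6⟩, a7, ⟨i7, a8⟩⟩ := h1
  obtain ⟨ι₂, _, _, u₂, T₂, e₂, b1, b2, b3, b4, b5, ⟨j5, b6⟩, b7, ⟨j7, b8⟩⟩ := h2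
  refine ⟨Lex (ι₁ × ι₂), Fintype.ofEquiv (ι₁ × ι₂) toLex, inferInstance,
    fun p => Sum.elim (u₁ (ofLex p).1) (u₂ (ofLex p).2),
    fun p => (T₁ (ofLex p).1).disjSum (T₂ (ofLex p).2),
    fun p => Sum.elim (e₁ (ofLex p).1) (e₂ (ofLex p).2), ?_, ?_, ?_, ?_, ?_, ?_, ?_, ?_⟩
  · intro a
    constructor
    · rintro ⟨x1, x2⟩
      obtain ⟨i, hi⟩ := (a1 _).1 x1
      obtain ⟨j, hj⟩ := (b1 _).1 x2
      refine ⟨toLex (i, j), ?_⟩
      rintro (t | t)
      · exact hi t
      · exact hj t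
    · rintro ⟨p, hp⟩
      exact ⟨(a1 _).2 ⟨(ofLex p).1, fun t => hp (Sum.inl t)⟩,
        (b1 _).2 ⟨(ofLex p).2, fun t => hp (Sum.inr t)⟩⟩
  · rintro p (t | t) ht
    · exact a2 _ t (by simpa using ht)
    · exact b2 _ t (by simpa using ht)
  · intro p w
    constructor
    · rintro ⟨q, hq, hle⟩
      rw [Prod.Lex.lt_iff] at hq
      rcases hq with hq | ⟨hq1, hq2⟩
      · obtain ⟨t, ht, he⟩ := (a3 (ofLex p).1 (fun t => w (Sum.inl t))).1
          ⟨(ofLex q).1, hq, fun t => hle (Sum.inl t)⟩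
        exact ⟨Sum.inl t, by simpa using ht, he⟩
      · obtain ⟨t, ht, he⟩ := (b3 (ofLex p).2 (fun t => w (Sum.inr t))).1
          ⟨(ofLex q).2, hq2, fun t => hle (Sum.inr t)⟩
        exact ⟨Sum.inr t, by simpa using ht, he⟩
    · rintro ⟨t | t, ht, he⟩
      · obtain ⟨j, hj, hle⟩ := (a3 (ofLex p).1 (fun t => w (Sum.inl t))).2
          ⟨t, by simpa using ht, he⟩
        refine ⟨toLex (j, (ofLex p).2), ?_, ?_⟩
        · rw [Prod.Lex.lt_iff]; exact Or.inl hj
        · rintro (s | s)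
          · exact hle s
          · exact Nat.le_add_right _ _
      · obtain ⟨j, hj, hle⟩ := (b3 (ofLex p).2 (fun t => w (Sum.inr t))).2
          ⟨t, by simpa using ht, he⟩
        refine ⟨toLex ((ofLex p).1, j), ?_, ?_⟩
        · rw [Prod.Lex.lt_iff]; exact Or.inr ⟨rfl, hj⟩
        · rintro (s | s)
          · exact Nat.le_add_right _ _
          · exact hle s
  · intro p q F G hF hG hEq
    have l1 : F.toLeft ⊆ T₁ (ofLex p).1 := by
      intro t ht
      have := hF (Finset.mem_toLeft.1 ht)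
      simpa using this
    have l2 : G.toLeft ⊆ T₁ (ofLex q).1 := by
      intro t ht
      have := hG (Finset.mem_toLeft.1 ht)
      simpa using this
    have r1 : F.toRight ⊆ T₂ (ofLex p).2 := by
      intro t ht
      have := hF (Finset.mem_toRight.1 ht)
      simpa using this
    have r2 : G.toRight ⊆ T₂ (ofLex q).2 := by
      intro t ht
      have := hG (Finset.mem_toRight.1 ht)
      simpa using this
    have c1 := a4 _ _ _ _ l1 l2 (by
      funext t
      have := congrFun hEq (Sum.inl t)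
      simp only [Pi.add_apply, Sum.elim_inl, bump_inl] at this
      exact this)
    have c2 := b4 _ _ _ _ r1 r2 (by
      funext t
      have := congrFun hEq (Sum.inr t)
      simp only [Pi.add_apply, Sum.elim_inr, bump_inr] at this
      exact this)
    rw [← Finset.card_toLeft_add_card_toRight (u := F),
      ← Finset.card_toLeft_add_card_toRight (u := G), c1, c2]
  · intro p
    rw [Finset.card_disjSum]
    exact add_le_add (a5 _) (b5 _)
  · refine ⟨toLex (i5, j5), ?_⟩
    rw [Finset.card_disjSum]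
    exact congrArg₂ (· + ·) a6 b6
  · intro p
    have c1 := a7 (ofLex p).1
    have c2 := b7 (ofLex p).2
    rw [Fintype.sum_sum_type, Finset.sum_disjSum]
    simp only [Sum.elim_inl, Sum.elim_inr]
    omega
  · refine ⟨toLex (i7, j7), ?_⟩
    rw [Fintype.sum_sum_type, Finset.sum_disjSum]
    simp only [Sum.elim_inl, Sum.elim_inr, ofLex_toLex]
    omega

end Pool.Agent.T2H28.FS
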