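import Pool.Agent.T2H28.FS.Stm

/-! Package PRC of project FS -/

namespace Pool.Agent.T2H28.FS

open MvPolynomial

universe u

namespace PkgPRC

theorem pw_eq {σ τ : Type} (U : Set (σ → ℕ)) (V : Set (τ → ℕ)) :
    ∀ k, Pw (prodU U V) k = prodU (Pw U k) (Pw V k) := by
  intro k
  induction k with
  | zero => ext a; simp [Pw, prodU]
  | succ k ih =>
    ext a
    constructor
    · rintro ⟨b, ⟨hb1, hb2⟩, c, hc, rfl⟩
      rw [ih] at hc
      exact ⟨⟨_, hb1, _, hc.1, rfl⟩, ⟨_, hb2, _, hc.2, rfl⟩⟩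
    · rintro ⟨⟨b1, hb1, c1, hc1, h1⟩, ⟨b2, hb2, c2, hc2, h2⟩⟩
      refine ⟨Sum.elim b1 b2, ⟨hb1, hb2⟩, Sum.elim c1 c2, ?_, ?_⟩
      · rw [ih]; exact ⟨hc1, hc2⟩
      · funext t
        rcases t with t | t
        · exact congrFun h1 t
        · exact congrFun h2 t

theorem swap_iff {σ τ : Type} (U : Set (σ → ℕ)) (V : Set (τ → ℕ))
    (m : σ ⊕ τ → ℕ) (G : Finset σ) (hG : IsCol U (fun t => m (Sum.inl t)) G)
    (hV : IsUpperSet V) (hm : (fun t => m (Sum.inr t)) ∈ V) :
    IsCol (prodU U V) m (G.map ⟨Sum.inl, Sum.inl_injective⟩) := by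
  intro w
  constructor
  · rintro ⟨h1, _⟩
    obtain ⟨t, ht, h2⟩ := (hG (fun t => w (Sum.inl t))).1 h1
    exact ⟨Sum.inl t, by simpa using ht, h2⟩
  · rintro ⟨t, ht, h2⟩
    rw [Finset.mem_map] at ht
    obtain ⟨s, hs, rfl⟩ := ht
    exact ⟨(hG (fun t => w (Sum.inl t))).2 ⟨s, hs, h2⟩,
      hV (fun t => Nat.le_add_right _ _) hm⟩

theorem swap_iff' {σ τ : Type} (U : Set (σ → ℕ)) (V : Set (τ → ℕ))
    (m : σ ⊕ τ → ℕ) (G : Finset τ) (hG : IsCol V (fun t => m (Sum.inr t)) G)
    (hU : IsUpperSet U) (hm : (fun t => m (Sum.inl t)) ∈ U) :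
    IsCol (prodU U V) m (G.map ⟨Sum.inr, Sum.inr_injective⟩) := by
  intro w
  constructor
  · rintro ⟨_, h1⟩
    obtain ⟨t, ht, h2⟩ := (hG (fun t => w (Sum.inr t))).1 h1
    exact ⟨Sum.inr t, by simpa using ht, h2⟩
  · rintro ⟨t, ht, h2⟩
    rw [Finset.mem_map] at ht
    obtain ⟨s, hs, rfl⟩ := ht
    exact ⟨hU (fun t => Nat.le_add_right _ _) hm,
      (hG (fun t => w (Sum.inr t))).2 ⟨s, hs, h2⟩⟩

end PkgPRC

open PkgPRC in
theorem T_PRC : P_PRC := by
  classical
  intro σ τ _ _ U V
  refine ⟨pw_eq U V, fun hU hV hUn hVn => ?_⟩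
  have main : ∀ m F, IsCol (prodU U V) m F ↔
        (∃ G, F = G.map ⟨Sum.inl, Sum.inl_injective⟩ ∧ IsCol U (fun t => m (Sum.inl t)) G ∧
            (fun t => m (Sum.inr t)) ∈ V) ∨
        (∃ G, F = G.map ⟨Sum.inr, Sum.inr_injective⟩ ∧ IsCol V (fun t => m (Sum.inr t)) G ∧
            (fun t => m (Sum.inl t)) ∈ U) := by
    intro m F
    constructor
    · intro h
      obtain ⟨x, hx⟩ := hUn
      obtain ⟨y, hy⟩ := hVn
      have h0 : m ∉ prodU U V := by
        intro hm
        have : m + 0 ∈ prodU U V := by rw [add_zero]; exact hm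
        obtain ⟨t, _, ht⟩ := (h 0).1 this
        simp at ht
      by_cases h1 : (fun t => m (Sum.inl t)) ∈ U
      · have h2 : (fun t => m (Sum.inr t)) ∉ V := fun h2 => h0 ⟨h1, h2⟩
        -- `F` has no `inl`
        have h3 : ∀ s, Sum.inl s ∉ F := by
          intro s hs
          have h4 := (h (Pi.single (Sum.inl s) 1)).2 ⟨Sum.inl s, hs, by simp⟩
          apply h2
          have h5 := h4.2
          simpa using h5
        right
        set G : Finset τ := Finset.univ.filter (fun t => Sum.inr t ∈ F) with hG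
        have hGm : ∀ t, t ∈ G ↔ Sum.inr t ∈ F := by intro t; simp [hG]
        refine ⟨G, ?_, ?_, h1⟩
        · ext t
          rcases t with t | t
          · simp [h3 t]
          · simp [hGm]
        · intro w
          have h6 := h (Sum.elim (fun _ => 0) w)
          have h7 : (fun t => m (Sum.inr t)) + w ∈ V ↔ m + Sum.elim (fun _ => 0) w ∈ prodU U V := by
            constructor
            · intro h8
              exact ⟨by simpa using h1, h8⟩
            · intro h8; exact h8.2
          rw [h7, h6]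
          constructor
          · rintro ⟨t, ht, h8⟩
            rcases t with t | t
            · exact (h3 t ht).elim
            · exact ⟨t, (hGm t).2 ht, h8⟩
          · rintro ⟨t, ht, h8⟩
            exact ⟨Sum.inr t, (hGm t).1 ht, h8⟩
      · by_cases h2 : (fun t => m (Sum.inr t)) ∈ V
        · have h3 : ∀ s, Sum.inr s ∉ F := by
            intro s hs
            have h4 := (h (Pi.single (Sum.inr s) 1)).2 ⟨Sum.inr s, hs, by simp⟩
            apply h1
            have h5 := h4.1
            simpa using h5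
          left
          set G : Finset σ := Finset.univ.filter (fun t => Sum.inl t ∈ F) with hG
          have hGm : ∀ t, t ∈ G ↔ Sum.inl t ∈ F := by intro t; simp [hG]
          refine ⟨G, ?_, ?_, h2⟩
          · ext t
            rcases t with t | t
            · simp [hGm]
            · simp [h3 t]
          · intro w
            have h6 := h (Sum.elim w (fun _ => 0))
            have h7 : (fun t => m (Sum.inl t)) + w ∈ U ↔ m + Sum.elim w (fun _ => 0) ∈ prodU U V := by
              constructor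
              · intro h8
                exact ⟨h8, by simpa using h2⟩
              · intro h8; exact h8.1
            rw [h7, h6]
            constructor
            · rintro ⟨t, ht, h8⟩
              rcases t with t | t
              · exact ⟨t, (hGm t).2 ht, h8⟩
              · exact (h3 t ht).elim
            · rintro ⟨t, ht, h8⟩
              exact ⟨Sum.inl t, (hGm t).1 ht, h8⟩
        · exfalso
          have h3 : m + Sum.elim x y ∈ prodU U V :=
            ⟨hU (fun t => Nat.le_add_left _ _) hx, hV (fun t => Nat.le_add_left _ _) hy⟩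
          obtain ⟨t, ht, _⟩ := (h _).1 h3
          rcases t with t | t
          · have h4 := (h (Pi.single (Sum.inl t) 1)).2 ⟨Sum.inl t, ht, by simp⟩
            apply h2
            have h5 := h4.2
            simpa using h5
          · have h4 := (h (Pi.single (Sum.inr t) 1)).2 ⟨Sum.inr t, ht, by simp⟩
            apply h1
            have h5 := h4.1
            simpa using h5
    · rintro (⟨G, rfl, hG, hm⟩ | ⟨G, rfl, hG, hm⟩)
      · exact swap_iff U V m G hG hV hm
      · exact swap_iff' U V m G hG hU hm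
  refine ⟨main, ?_⟩
  ext F
  constructor
  · rintro ⟨m, hm⟩
    rcases (main m F).1 hm with ⟨G, h1, h2, _⟩ | ⟨G, h1, h2, _⟩
    · exact Or.inl ⟨G, ⟨_, h2⟩, h1⟩
    · exact Or.inr ⟨G, ⟨_, h2⟩, h1⟩
  · rintro (⟨G, ⟨m, hm⟩, rfl⟩ | ⟨G, ⟨m, hm⟩, rfl⟩)
    · obtain ⟨y, hy⟩ := hVn
      exact ⟨Sum.elim m y, (main _ _).2 (Or.inl ⟨G, rfl, hm, hy⟩)⟩
    · obtain ⟨x, hx⟩ := hUn
      exact ⟨Sum.elim x m, (main _ _).2 (Or.inr ⟨G, rfl, hm, hx⟩)⟩

end Pool.Agent.T2H28.FS
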