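import Pool.Agent.T2H28.FS.Stm

/-! Package PRM of project FS -/

namespace Pool.Agent.T2H28.FS

open MvPolynomial

universe u

namespace PkgPRM

open scoped Classical in
/-- the terms outside `U` -/
noncomputable def cut {σ : Type} {K : Type u} [Field K] (U : Set (σ → ℕ))
    (f : MvPolynomial σ K) : MvPolynomial σ K :=
  ∑ m ∈ f.support.filter (fun m : σ →₀ ℕ => (⇑m : σ → ℕ) ∉ U), monomial m (coeff m f)

variable {σ : Type} {K : Type u} [Field K] {U : Set (σ → ℕ)}

open scoped Classical in
lemma coeff_cut (f : MvPolynomial σ K) (n : σ →₀ ℕ) :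
    coeff n (cut U f) = if (⇑n : σ → ℕ) ∈ U then 0 else coeff n f := by
  unfold cut
  rw [coeff_sum]
  simp only [coeff_monomial]
  rw [Finset.sum_ite_eq']
  by_cases h : (⇑n : σ → ℕ) ∈ U
  · simp [h]
  · by_cases h2 : coeff n f = 0
    · simp [h, h2]
    · simp [h, h2]

lemma cut_iff (hm : ∀ f : MvPolynomial σ K, f ∈ Mon K U ↔ ∀ m ∈ f.support, (⇑m : σ → ℕ) ∈ U)
    (g f : MvPolynomial σ K) : g * f ∈ Mon K U ↔ g * cut U f ∈ Mon K U := by
  classical
  have h1 : f - cut U f ∈ Mon K U := by
    rw [hm]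
    intro m hmm
    by_contra h
    rw [mem_support_iff, coeff_sub, coeff_cut, if_neg h, sub_self] at hmm
    exact hmm rfl
  have h2 : g * f - g * cut U f ∈ Mon K U := by
    rw [← mul_sub]
    exact Ideal.mul_mem_left _ _ h1
  constructor
  · intro h
    have := Ideal.sub_mem _ h h2
    simpa using this
  · intro h
    have := Ideal.add_mem _ h2 h
    simpa using this

/-- annihilator data -/
def PP (U : Set (σ → ℕ)) (p : Ideal (MvPolynomial σ K)) (f : MvPolynomial σ K) : Prop :=
  (∀ g, g ∈ p ↔ g * f ∈ Mon K U) ∧ ∀ m ∈ f.support, (⇑m : σ → ℕ) ∉ U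

lemma PP_cut (hm : ∀ f : MvPolynomial σ K, f ∈ Mon K U ↔ ∀ m ∈ f.support, (⇑m : σ → ℕ) ∈ U)
    {p : Ideal (MvPolynomial σ K)} {f : MvPolynomial σ K}
    (h : ∀ g, g ∈ p ↔ g * f ∈ Mon K U) : PP U p (cut U f) := by
  classical
  refine ⟨fun g => (h g).trans (cut_iff hm g f), fun m hmm hU => ?_⟩
  rw [mem_support_iff, coeff_cut, if_pos hU] at hmm
  exact hmm rfl

/-- the leading monomial of a member of the prime is in it -/
lemma lead [LinearOrder σ] [Fintype σ]
    (hm : ∀ f : MvPolynomial σ K, f ∈ Mon K U ↔ ∀ m ∈ f.support, (⇑m : σ → ℕ) ∈ U)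
    {p : Ideal (MvPolynomial σ K)} (hp : p.IsPrime) {f : MvPolynomial σ K} (hf : PP U p f)
    (hmin : ∀ f', PP U p f' → f.support.card ≤ f'.support.card) {g : MvPolynomial σ K}
    (hg : g ∈ p) (hg0 : g ≠ 0) : monomial (MonomialOrder.lex.degree g) (1 : K) ∈ p := by
  classical
  by_contra hcon
  have hf0 : f ≠ 0 := by
    rintro rfl
    apply hp.ne_top
    rw [Ideal.eq_top_iff_one, hf.1]
    simp
  obtain ⟨w, hw⟩ : ∃ w, w = MonomialOrder.lex.degree g := ⟨_, rfl⟩
  obtain ⟨u₀, hu₀⟩ : ∃ u₀, u₀ = MonomialOrder.lex.degree f := ⟨_, rfl⟩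
  rw [← hw] at hcon
  have hwu : (⇑(w + u₀) : σ → ℕ) ∈ U := by
    refine (hm (g * f)).1 ((hf.1 g).1 hg) (w + u₀) ?_
    rw [mem_support_iff, hw, hu₀, MonomialOrder.coeff_mul_of_degree_add]
    exact mul_ne_zero (MonomialOrder.leadingCoeff_ne_zero_iff.2 hg0)
      (MonomialOrder.leadingCoeff_ne_zero_iff.2 hf0)
  have h1 : PP U p (cut U (monomial w 1 * f)) := by
    apply PP_cut hm
    intro h
    rw [← mul_assoc, ← hf.1]
    constructor
    · intro h2
      exact Ideal.mul_mem_right _ _ h2
    · intro h2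
      rcases hp.mem_or_mem h2 with h3 | h3
      · exact h3
      · exact absurd h3 hcon
  have h2 := hmin _ h1
  have hu : u₀ ∈ f.support := by rw [hu₀]; exact MonomialOrder.degree_mem_support hf0
  have h3 : (cut U (monomial w 1 * f)).support ⊆
      (f.support.erase u₀).image (fun m => w + m) := by
    intro n hn
    rw [mem_support_iff, coeff_cut] at hn
    split_ifs at hn with hnU
    · exact absurd rfl hn
    · rw [coeff_monomial_mul'] at hn
      split_ifs at hn with hwn
      · rw [one_mul] at hn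
        rw [Finset.mem_image]
        refine ⟨n - w, ?_, add_tsub_cancel_of_le hwn⟩
        rw [Finset.mem_erase, mem_support_iff]
        refine ⟨fun h => hnU ?_, hn⟩
        rw [← h, add_tsub_cancel_of_le hwn] at hwu
        exact hwu
      · exact absurd rfl hn
  have h4 := (Finset.card_le_card h3).trans Finset.card_image_le
  have h5 := Finset.card_erase_lt_of_mem hu
  omega

lemma exists_min {p : Ideal (MvPolynomial σ K)} {f : MvPolynomial σ K} (hf : PP U p f) :
    ∃ f₀, PP U p f₀ ∧ ∀ f', PP U p f' → f₀.support.card ≤ f'.support.card := by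
  obtain ⟨f₀, h1, h2⟩ := (measure (fun f : MvPolynomial σ K => f.support.card)).wf.has_min
    {f | PP U p f} ⟨f, hf⟩
  refine ⟨f₀, h1, fun f' hf' => ?_⟩
  have := h2 f' hf'
  exact not_lt.1 this

/-- the prime is a monomial ideal -/
lemma terms [LinearOrder σ] [Fintype σ]
    (hm : ∀ f : MvPolynomial σ K, f ∈ Mon K U ↔ ∀ m ∈ f.support, (⇑m : σ → ℕ) ∈ U)
    {p : Ideal (MvPolynomial σ K)} (hp : p.IsPrime) {f : MvPolynomial σ K} (hf : PP U p f) :
    ∀ (n : ℕ) (g : MvPolynomial σ K), g.support.card = n → g ∈ p → ∀ w ∈ g.support,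
      monomial w (1 : K) ∈ p := by
  classical
  obtain ⟨f₀, h1, h2⟩ := exists_min hf
  intro n
  induction n with
  | zero =>
    intro g hn _ w hw
    rw [Finset.card_eq_zero] at hn
    rw [hn] at hw
    exact absurd hw (Finset.notMem_empty w)
  | succ n ih =>
    intro g hn hg w hw
    have hg0 : g ≠ 0 := by
      rintro rfl
      simp at hn
    obtain ⟨w₀, hw₀⟩ : ∃ w₀, w₀ = MonomialOrder.lex.degree g := ⟨_, rfl⟩
    have h3 : monomial w₀ (1 : K) ∈ p := by
      rw [hw₀]
      exact lead hm hp h1 h2 hg hg0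
    have hw₀s : w₀ ∈ g.support := by rw [hw₀]; exact MonomialOrder.degree_mem_support hg0
    by_cases hww : w = w₀
    · rw [hww]; exact h3
    · have h4 : g - monomial w₀ (coeff w₀ g) ∈ p := by
        refine Ideal.sub_mem _ hg ?_
        have : monomial w₀ (coeff w₀ g) = C (coeff w₀ g) * monomial w₀ (1 : K) := by
          rw [C_mul_monomial, mul_one]
        rw [this]
        exact Ideal.mul_mem_left _ _ h3
      have h5 : (g - monomial w₀ (coeff w₀ g)).support = g.support.erase w₀ := by
        ext m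
        rw [Finset.mem_erase, mem_support_iff, mem_support_iff, coeff_sub, coeff_monomial]
        by_cases hmw : w₀ = m
        · subst hmw
          simp
        · rw [if_neg hmw, sub_zero]
          constructor
          · intro h
            exact ⟨fun h' => hmw h'.symm, h⟩
          · intro h
            exact h.2
      refine ih _ ?_ h4 w ?_
      · rw [h5, Finset.card_erase_of_mem hw₀s, hn, Nat.add_sub_cancel]
      · rw [h5, Finset.mem_erase]
        exact ⟨hww, hw⟩

end PkgPRM

open PkgPRM in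
theorem T_PRM : P_PRM.{u} := by
  classical
  intro σ _ _ K _ U hU hm p f hp hpf
  have hf1 : PP U p (cut U f) := PP_cut hm hpf
  have hterm : ∀ g ∈ p, ∀ w ∈ g.support, monomial w (1 : K) ∈ p := fun g hg w hw =>
    terms hm hp hf1 _ g rfl hg w hw
  have hsub : (cut U f).support ⊆ f.support := by
    intro n hn
    rw [mem_support_iff, coeff_cut] at hn
    split_ifs at hn
    · exact absurd rfl hn
    · rw [mem_support_iff]; exact hn
  -- members of `p` kill every term
  have hkill : ∀ g ∈ p, ∀ u ∈ (cut U f).support, g * monomial u (1 : K) ∈ Mon K U := by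
    intro g hg u hu
    rw [hm]
    intro n hn
    rw [mem_support_iff, coeff_mul_monomial'] at hn
    split_ifs at hn with hun
    · rw [mul_one] at hn
      have h1 := hterm g hg (n - u) (mem_support_iff.2 hn)
      have h2 := (hf1.1 _).1 h1
      have h3 := (hm _).1 h2 n
      apply h3
      rw [mem_support_iff, coeff_monomial_mul', if_pos tsub_le_self, one_mul,
        tsub_tsub_cancel_of_le hun]
      exact mem_support_iff.1 hu
    · exact absurd rfl hn
  -- one term decides
  have hex : ∃ u ∈ (cut U f).support, ∀ g, g * monomial u (1 : K) ∈ Mon K U → g ∈ p := by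
    by_contra hcon
    push Not at hcon
    choose! h hh1 hh2 using hcon
    have h3 : (∏ u ∈ (cut U f).support, h u) ∈ p := by
      rw [hf1.1]
      nth_rewrite 2 [(cut U f).as_sum]
      rw [Finset.mul_sum]
      refine Ideal.sum_mem _ fun u hu => ?_
      rw [← Finset.mul_prod_erase _ _ hu]
      have : h u * (∏ x ∈ (cut U f).support.erase u, h x) * monomial u (coeff u (cut U f)) =
          ((∏ x ∈ (cut U f).support.erase u, h x) * C (coeff u (cut U f))) *
            (h u * monomial u (1 : K)) := by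
        have e : monomial u (coeff u (cut U f)) = C (coeff u (cut U f)) * monomial u (1 : K) := by
          rw [C_mul_monomial, mul_one]
        rw [e]
        ring
      rw [this]
      exact Ideal.mul_mem_left _ _ (hh1 u hu)
    obtain ⟨u, hu, hu2⟩ := hp.prod_mem_iff.1 h3
    exact hh2 u hu hu2
  obtain ⟨u, hu, hu2⟩ := hex
  have hiff : ∀ g, g ∈ p ↔ g * monomial u (1 : K) ∈ Mon K U := fun g =>
    ⟨fun hg => hkill g hg u hu, hu2 g⟩
  have hmono : ∀ w : σ →₀ ℕ, monomial w (1 : K) ∈ p ↔ ∃ t, (X t : MvPolynomial σ K) ∈ p ∧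
      1 ≤ w t := by
    intro w
    constructor
    · intro hw
      rw [monomial_eq, C_1, one_mul, Finsupp.prod, hp.prod_mem_iff] at hw
      obtain ⟨t, ht, ht2⟩ := hw
      exact ⟨t, hp.mem_of_pow_mem _ ht2, Nat.one_le_iff_ne_zero.2 (Finsupp.mem_support_iff.1 ht)⟩
    · rintro ⟨t, ht, ht2⟩
      have e : monomial w (1 : K) = monomial (w - Finsupp.single t 1) 1 * X t := by
        rw [X, monomial_mul, one_mul, tsub_add_cancel_of_le]
        rw [Finsupp.single_le_iff]
        exact ht2
      rw [e]
      exact Ideal.mul_mem_left _ _ ht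
  refine ⟨u, hsub hu, Finset.univ.filter (fun t => (X t : MvPolynomial σ K) ∈ p), ?_, ?_⟩
  · intro w
    have h1 := hmono (Finsupp.equivFunOnFinite.symm w)
    rw [hiff, monomial_mul, one_mul, hm] at h1
    have h2 : (∀ m ∈ (monomial (Finsupp.equivFunOnFinite.symm w + u) (1 : K)).support,
        (⇑m : σ → ℕ) ∈ U) ↔ (⇑u + w : σ → ℕ) ∈ U := by
      rw [support_monomial, if_neg one_ne_zero]
      simp only [Finset.mem_singleton, forall_eq, Finsupp.coe_add]
      have e : ⇑(Finsupp.equivFunOnFinite.symm w) + ⇑u = (⇑u + w : σ → ℕ) := by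
        funext t
        simp only [Pi.add_apply, Finsupp.equivFunOnFinite_symm_apply_apply]
        omega
      rw [e]
    rw [← h2, h1]
    simp
  · apply le_antisymm
    · intro g hg
      unfold PF
      rw [mem_ideal_span_X_image]
      intro m hmm
      obtain ⟨t, ht, ht2⟩ := (hmono m).1 (hterm g hg m hmm)
      exact ⟨t, by simpa using ht, by omega⟩
    · unfold PF
      rw [Ideal.span_le]
      rintro _ ⟨t, ht, rfl⟩
      simpa using ht

end Pool.Agent.T2H28.FS
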