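import Pool.Agent.T2H28.FS.Stm

/-!
# Package PW2: the powers in two variables
-/

set_option autoImplicit false

namespace Pool.Agent.T2H28.FS

open MvPolynomial

theorem PW2_le (A : Set ℕ) (g : ℕ) (hA : ∀ e ∈ A, e ≤ g) : ∀ k, ∀ e ∈ kS A k, e ≤ g * k := by
  intro k
  induction k with
  | zero =>
    intro e he
    have : e = 0 := he
    omega
  | succ k ih =>
    rintro e ⟨a, ha, b, hb, rfl⟩
    have h1 := hA a ha
    have h2 := ih b hb
    rw [Nat.mul_succ]
    omega

theorem T_PW2 : P_PW2 := by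
  intro A g hA k
  induction k with
  | zero =>
    ext a
    constructor
    · intro _
      exact ⟨0, rfl, by omega, by omega⟩
    · intro _
      trivial
  | succ k ih =>
    ext a
    constructor
    · rintro ⟨b, ⟨e₁, he₁, h1, h2⟩, c, hc, rfl⟩
      rw [ih] at hc
      obtain ⟨e₂, he₂, h3, h4⟩ := hc
      refine ⟨e₁ + e₂, ⟨e₁, he₁, e₂, he₂, rfl⟩, ?_, ?_⟩
      · show g * (k + 1) - (e₁ + e₂) ≤ b 0 + c 0
        rw [Nat.mul_succ]
        omega
      · show e₁ + e₂ ≤ b 1 + c 1
        omega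
    · rintro ⟨e, ⟨e₁, he₁, e₂, he₂, rfl⟩, h1, h2⟩
      have h3 := hA e₁ he₁
      have h4 := PW2_le A g hA k e₂ he₂
      rw [Nat.mul_succ] at h1
      refine ⟨![g - e₁, e₁], ⟨e₁, he₁, ?_, ?_⟩, ![a 0 - (g - e₁), a 1 - e₁], ?_, ?_⟩
      · show g - e₁ ≤ g - e₁
        exact le_rfl
      · show e₁ ≤ e₁
        exact le_rfl
      · rw [ih]
        refine ⟨e₂, he₂, ?_, ?_⟩
        · show g * k - e₂ ≤ a 0 - (g - e₁)
          omega
        · show e₂ ≤ a 1 - e₁
          omega
      · funext t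
        fin_cases t
        · show a 0 = (g - e₁) + (a 0 - (g - e₁))
          omega
        · show a 1 = e₁ + (a 1 - e₁)
          omega

end Pool.Agent.T2H28.FS
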