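import Pool.Agent.T2H28.FS.Stm

/-! Package PWD of project FS -/

namespace Pool.Agent.T2H28.FS

open MvPolynomial

universe u

theorem T_PWD : P_PWD := by
  classical
  intro d k
  induction k with
  | zero =>
    ext a
    simp [Pw]
  | succ k ih =>
    ext a
    unfold Pw
    rw [ih]
    simp only [Set.mem_ofPred_eq]
    constructor
    · rintro ⟨b, ⟨i, hi, hb1, hb2⟩, c, hc, rfl⟩ s t hst
      have h := hc s t hst
      simp only [Pi.add_apply]
      rcases Nat.lt_or_ge s.val i with h1 | h1
      · have := hb1 s h1
        omega
      · have := hb2 t (le_trans h1 (Fin.le_def.1 hst))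
        omega
    · intro ha
      have hex : ∃ i, i = d ∨ ∃ h : i < d, a (Sum.inl ⟨i, h⟩) ≤ k := ⟨d, Or.inl rfl⟩
      obtain ⟨i, hi, hmin⟩ : ∃ i, (i = d ∨ ∃ h : i < d, a (Sum.inl ⟨i, h⟩) ≤ k) ∧
          ∀ j < i, ¬ (j = d ∨ ∃ h : j < d, a (Sum.inl ⟨j, h⟩) ≤ k) :=
        ⟨Nat.find hex, Nat.find_spec hex, fun j hj => Nat.find_min hex hj⟩
      have hid : i ≤ d := by
        rcases hi with h | ⟨h, -⟩
        · exact h.le
        · exact h.le
      have h1 : ∀ t : Fin d, t.val < i → k + 1 ≤ a (Sum.inl t) := by
        intro t ht
        have := hmin t.val ht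
        push Not at this
        have := this.2 t.isLt
        exact this
      have h2 : ∀ t : Fin d, i ≤ t.val → 2 ≤ a (Sum.inr t) := by
        intro t ht
        rcases hi with h | ⟨h, hk⟩
        · have := t.isLt
          omega
        · have := ha ⟨i, h⟩ t (Fin.le_def.2 ht)
          omega
      let b : Fin d ⊕ Fin d → ℕ := Sum.elim (fun t => if t.val < i then 1 else 0)
        (fun t => if i ≤ t.val then 2 else 0)
      have hbl : ∀ t : Fin d, b (Sum.inl t) = if t.val < i then 1 else 0 := fun _ => rfl
      have hbr : ∀ t : Fin d, b (Sum.inr t) = if i ≤ t.val then 2 else 0 := fun _ => rfl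
      refine ⟨b, ⟨i, hid, fun t ht => ?_, fun t ht => ?_⟩, fun j => a j - b j,
        fun s t hst => ?_, ?_⟩
      · rw [hbl, if_pos ht]
      · rw [hbr, if_pos ht]
      · have h3 := ha s t hst
        have hst' := Fin.le_def.1 hst
        simp only [hbl, hbr]
        rcases Nat.lt_or_ge s.val i with h4 | h4
        · have h5 := h1 s h4
          rw [if_pos h4]
          rcases Nat.lt_or_ge t.val i with h6 | h6
          · rw [if_neg (by omega)]
            omega
          · rw [if_pos h6]
            omega
        · have h5 := h2 t (by omega)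
          rw [if_neg (by omega), if_pos (by omega)]
          omega
      · funext j
        simp only [Pi.add_apply]
        rcases j with t | t
        · rw [hbl]
          split_ifs with h
          · have := h1 t h
            omega
          · omega
        · rw [hbr]
          split_ifs with h
          · have := h2 t h
            omega
          · omega

end Pool.Agent.T2H28.FS
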