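import Pool.Agent.T2H28.FS.Stm

/-! Package RIX of project FS -/

namespace Pool.Agent.T2H28.FS

open MvPolynomial

universe u

namespace PkgRIX

/-- pulled back set -/
def pull {σ τ : Type} (f : σ ≃ τ) (U : Set (σ → ℕ)) : Set (τ → ℕ) :=
  {a : τ → ℕ | (fun t => a (f t)) ∈ U}

theorem pw_eq {σ τ : Type} (f : σ ≃ τ) (U : Set (σ → ℕ)) :
    ∀ k, Pw (pull f U) k = pull f (Pw U k) := by
  intro k
  induction k with
  | zero => ext a; simp [Pw, pull]
  | succ k ih =>
    ext a
    constructor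
    · rintro ⟨b, hb, c, hc, rfl⟩
      rw [ih] at hc
      exact ⟨_, hb, _, hc, rfl⟩
    · rintro ⟨b, hb, c, hc, h⟩
      refine ⟨fun t => b (f.symm t), ?_, fun t => c (f.symm t), ?_, ?_⟩
      · show (fun t => b (f.symm (f t))) ∈ U
        simpa using hb
      · rw [ih]
        show (fun t => c (f.symm (f t))) ∈ Pw U k
        simpa using hc
      · funext t
        have := congrFun h (f.symm t)
        simp only [Equiv.apply_symm_apply, Pi.add_apply] at this
        exact this

theorem col_iff {σ τ : Type} (f : σ ≃ τ) (U : Set (σ → ℕ)) (m : τ → ℕ) (F : Finset σ) :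
    IsCol (pull f U) m (F.map f.toEmbedding) ↔ IsCol U (fun t => m (f t)) F := by
  constructor
  · intro h w
    have h1 := h (fun t => w (f.symm t))
    have h2 : (fun t => m (f t)) + w ∈ U ↔ m + (fun t => w (f.symm t)) ∈ pull f U := by
      show _ ↔ (fun t => (m + fun t => w (f.symm t)) (f t)) ∈ U
      simp only [Pi.add_apply, Equiv.symm_apply_apply]
      rfl
    rw [h2, h1]
    constructor
    · rintro ⟨t, ht, h3⟩
      rw [Finset.mem_map] at ht
      obtain ⟨s, hs, rfl⟩ := ht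
      exact ⟨s, hs, by simpa using h3⟩
    · rintro ⟨s, hs, h3⟩
      exact ⟨f s, Finset.mem_map.2 ⟨s, hs, rfl⟩, by simpa using h3⟩
  · intro h w
    have h1 := h (fun t => w (f t))
    have h2 : m + w ∈ pull f U ↔ (fun t => m (f t)) + (fun t => w (f t)) ∈ U := Iff.rfl
    rw [h2, h1]
    constructor
    · rintro ⟨s, hs, h3⟩
      exact ⟨f s, Finset.mem_map.2 ⟨s, hs, rfl⟩, h3⟩
    · rintro ⟨t, ht, h3⟩
      rw [Finset.mem_map] at ht
      obtain ⟨s, hs, rfl⟩ := ht
      exact ⟨s, hs, h3⟩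

theorem exists_map {σ τ : Type} (f : σ ≃ τ) (F : Finset τ) :
    ∃ G : Finset σ, F = G.map f.toEmbedding := by
  refine ⟨F.map f.symm.toEmbedding, ?_⟩
  ext t
  simp

theorem ppq {σ τ : Type} [Fintype σ] [Fintype τ] (f : σ ≃ τ) (U : Set (σ → ℕ)) (P ρ : ℕ)
    (h : HasPPQ U P ρ) : HasPPQ (pull f U) P ρ := by
  classical
  obtain ⟨ι, i1, i2, u, T, e, h1, h2, h3, h4, h5, ⟨j5, h6⟩, h7, ⟨j7, h8⟩⟩ := h
  have mem : ∀ i t, t ∈ (T i).map f.toEmbedding ↔ f.symm t ∈ T i := by
    intro i t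
    rw [Finset.mem_map]
    constructor
    · rintro ⟨s, hs, rfl⟩; simpa using hs
    · intro h; exact ⟨f.symm t, h, by simp⟩
  have sumu : ∀ g : σ → ℕ, ∑ t : τ, g (f.symm t) = ∑ t : σ, g t := by
    intro g; exact Equiv.sum_comp f.symm g
  refine ⟨ι, i1, i2, fun i t => u i (f.symm t), fun i => (T i).map f.toEmbedding,
    fun i t => e i (f.symm t), ?_, ?_, ?_, ?_, ?_, ?_, ?_, ?_⟩
  · intro a
    show (fun t => a (f t)) ∈ U ↔ _
    rw [h1]
    constructor
    · rintro ⟨i, hi⟩
      refine ⟨i, fun t => ?_⟩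
      have := hi (f.symm t)
      simpa using this
    · rintro ⟨i, hi⟩
      refine ⟨i, fun t => ?_⟩
      have := hi (f t)
      simpa using this
  · intro i t ht
    exact h2 i _ ((mem i t).1 ht)
  · intro i w
    have h9 := h3 i (fun t => w (f t))
    constructor
    · rintro ⟨j, hj, hle⟩
      obtain ⟨t, ht, he⟩ := h9.1 ⟨j, hj, fun t => by
        have := hle (f t)
        simpa using this⟩
      exact ⟨f t, (mem i _).2 (by simpa using ht), by simpa using he⟩
    · rintro ⟨t, ht, he⟩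
      obtain ⟨j, hj, hle⟩ := h9.2 ⟨f.symm t, (mem i t).1 ht, by simpa using he⟩
      refine ⟨j, hj, fun s => ?_⟩
      have := hle (f.symm s)
      simpa using this
  · intro i j F G hF hG hEq
    obtain ⟨F', rfl⟩ := exists_map f F
    obtain ⟨G', rfl⟩ := exists_map f G
    rw [Finset.card_map, Finset.card_map]
    refine h4 i j F' G' (Finset.map_subset_map.1 hF) (Finset.map_subset_map.1 hG) ?_
    funext t
    have h9 := congrFun hEq (f t)
    have hb : ∀ (F : Finset σ) (g : σ → ℕ),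
        bump (F.map f.toEmbedding) (fun t => g (f.symm t)) (f t) = bump F g t := by
      intro F g
      unfold bump
      by_cases h : t ∈ F
      · rw [if_pos h, if_pos (by simpa using h)]; simp
      · rw [if_neg h, if_neg (by simpa using h)]
    simp only [Pi.add_apply, hb] at h9
    simpa using h9
  · intro i; rw [Finset.card_map]; exact h5 i
  · exact ⟨j5, by rw [Finset.card_map]; exact h6⟩
  · intro i
    rw [sumu (u i), Finset.sum_map]
    simpa using h7 i
  · refine ⟨j7, ?_⟩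
    rw [sumu (u j7), Finset.sum_map]
    simpa using h8

end PkgRIX

open PkgRIX in
theorem T_RIX : P_RIX := by
  classical
  intro σ τ _ _ f U α P ρ A lo hi h
  obtain ⟨up, hk⟩ := h
  have hpull : {a : τ → ℕ | (fun t => a (f t)) ∈ U} = pull f U := rfl
  rw [hpull]
  refine ⟨fun a b hab ha => up (fun t => hab _) ha, fun k hk1 => ?_⟩
  obtain ⟨a1, a2, a3, a4, a5⟩ := hk k hk1
  rw [pw_eq]
  have sumf : ∀ a : τ → ℕ, ∑ t : σ, a (f t) = ∑ t : τ, a t := fun a => Equiv.sum_comp f a
  have sumg : ∀ g : σ → ℕ, ∑ t : τ, g (f.symm t) = ∑ t : σ, g t :=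
    fun g => Equiv.sum_comp f.symm g
  refine ⟨ppq f _ _ _ a1, ?_, ?_, ?_, ?_⟩
  · ext F
    constructor
    · rintro ⟨m, hm⟩
      obtain ⟨G, rfl⟩ := exists_map f F
      rw [col_iff] at hm
      refine ⟨G, ?_, rfl⟩
      rw [← a2]; exact ⟨_, hm⟩
    · rintro ⟨G, hG, rfl⟩
      rw [← a2] at hG
      obtain ⟨m, hm⟩ := hG
      refine ⟨fun t => m (f.symm t), ?_⟩
      rw [col_iff]
      simpa using hm
  · constructor
    · obtain ⟨x, hx, hx2⟩ := a3.1
      refine ⟨fun t => x (f.symm t), ?_, ?_⟩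
      · show (fun t => x (f.symm (f t))) ∈ Pw U k
        simpa using hx
      · rw [sumg x]; exact hx2
    · rintro m ⟨x, hx, rfl⟩
      rw [← sumf x]
      exact a3.2 ⟨_, hx, rfl⟩
  · intro l m F hF
    obtain ⟨G, rfl⟩ := exists_map f F
    rw [col_iff] at hF
    rw [← sumf m]
    exact a4 l _ _ hF
  · intro l
    obtain ⟨m, F, hm, hs⟩ := a5 l
    refine ⟨fun t => m (f.symm t), F.map f.toEmbedding, ?_, ?_⟩
    · rw [col_iff]; simpa using hm
    · rw [sumg m]; exact hs

end Pool.Agent.T2H28.FS
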