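import Pool.Agent.T2H28.FS.Stm

/-! Package SGN of project FS -/

namespace Pool.Agent.T2H28.FS

open MvPolynomial

universe u

namespace PkgSGN

variable {σ : Type} [Fintype σ] [LinearOrder σ]

theorem sq (t : σ) (T : Finset σ) : sg t T * sg t T = 1 := by
  unfold sg
  rw [← mul_pow]; norm_num

theorem cnt_lt {s t : σ} {R : Finset σ} (h : s < t) (hs : s ∉ R) :
    ((insert s R).filter (fun x => x < t)).card = (R.filter (fun x => x < t)).card + 1 := by
  rw [Finset.filter_insert, if_pos h, Finset.card_insert_of_notMem]
  simp [hs]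

theorem cnt_ge {s t : σ} {R : Finset σ} (h : t < s) :
    ((insert s R).filter (fun x => x < t)).card = (R.filter (fun x => x < t)).card := by
  rw [Finset.filter_insert, if_neg (not_lt.2 h.le)]

theorem anti (s t : σ) (R : Finset σ) (h : s ≠ t) (hs : s ∉ R) (ht : t ∉ R) :
    sg t (insert s R) * sg s (insert t R) = - (sg t R * sg s R) := by
  unfold sg
  rcases lt_or_gt_of_ne h with h1 | h1
  · rw [cnt_lt h1 hs, cnt_ge h1]
    ring
  · rw [cnt_lt h1 ht, cnt_ge h1]
    ring

/-- the double sum cancels -/
theorem cancel {M : Type u} [AddCommGroup M] (T : Finset σ) (g : σ → σ → M)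
    (hg : ∀ t s, t ∉ T → s ∉ T → t ≠ s → g t s + g s t = 0) :
    ∑ t ∈ Finset.univ \ T, ∑ s ∈ Finset.univ \ (insert t T), g t s = 0 := by
  rw [Finset.sum_sigma']
  refine Finset.sum_involution (fun p _ => ⟨p.2, p.1⟩) ?_ ?_ ?_ ?_
  · rintro ⟨t, s⟩ h
    simp only [Finset.mem_sigma, Finset.mem_sdiff, Finset.mem_univ, true_and,
      Finset.mem_insert, not_or] at h
    exact hg t s h.1 h.2.2 (Ne.symm h.2.1)
  · rintro ⟨t, s⟩ h _ he
    simp only [Finset.mem_sigma, Finset.mem_sdiff, Finset.mem_univ, true_and,
      Finset.mem_insert, not_or] at h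
    have := congrArg Sigma.fst he
    exact h.2.1 this
  · rintro ⟨t, s⟩ h
    simp only [Finset.mem_sigma, Finset.mem_sdiff, Finset.mem_univ, true_and,
      Finset.mem_insert, not_or] at h ⊢
    exact ⟨h.2.2, fun e => h.2.1 e.symm, h.1⟩
  · rintro ⟨t, s⟩ _
    rfl

theorem sgn_pair {s t : σ} {T : Finset σ} (h : t ≠ s) (hs : s ∉ T) (ht : t ∉ T) :
    sg t T * sg s (insert t T) + sg s T * sg t (insert s T) = 0 := by
  have h1 := anti s t T (Ne.symm h) hs ht
  have h2 := sq t T
  have h3 := sq s T
  have h4 := sq t (insert s T)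
  -- multiply by sg t (insert s T) * sg s T
  have key : sg t (insert s T) * sg s T * (sg t T * sg s (insert t T) + sg s T * sg t (insert s T))
      = 0 := by
    have : sg t (insert s T) * sg s T * (sg t T * sg s (insert t T) + sg s T * sg t (insert s T))
      = (sg t (insert s T) * sg s (insert t T)) * (sg t T * sg s T) +
        (sg t (insert s T) * sg t (insert s T)) * (sg s T * sg s T) := by ring
    rw [this, h1, h4, h3]
    have : -(sg t T * sg s T) * (sg t T * sg s T) + 1 * 1 =
      - ((sg t T * sg t T) * (sg s T * sg s T)) + 1 := by ring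
    rw [this, h2, h3]; norm_num
  have h5 : sg t (insert s T) * sg s T ≠ 0 := by
    intro h0
    have : (sg t (insert s T) * sg s T) * (sg t (insert s T) * sg s T) = 1 := by
      calc (sg t (insert s T) * sg s T) * (sg t (insert s T) * sg s T) =
        (sg t (insert s T) * sg t (insert s T)) * (sg s T * sg s T) := by ring
      _ = 1 := by rw [h4, h3]; norm_num
    rw [h0] at this
    norm_num at this
  exact (mul_eq_zero.1 key).resolve_left h5

end PkgSGN

theorem T_SGN : P_SGN.{u} := by
  refine ⟨fun t T => PkgSGN.sq t T, fun s t R h hs ht => PkgSGN.anti s t R h hs ht, ?_, ?_⟩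
  · intro σ _ _ K _ c
    funext T
    show ∑ t ∈ Finset.univ \ T, sg t T • ∑ s ∈ Finset.univ \ (insert t T),
      sg s (insert t T) • c (insert s (insert t T)) = 0
    simp only [Finset.smul_sum]
    apply PkgSGN.cancel T (fun t s => sg t T • sg s (insert t T) • c (insert s (insert t T)))
    intro t s ht hs h
    have h1 := PkgSGN.sgn_pair h hs ht
    have h2 : insert t (insert s T) = insert s (insert t T) := Finset.insert_comm t s T
    simp only [h2, smul_smul]
    rw [← add_smul, h1, zero_smul]
  · intro σ _ _ K _ M _ _ c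
    funext T
    show ∑ t ∈ Finset.univ \ T, sg t T • ((X t : MvPolynomial σ K) •
      ∑ s ∈ Finset.univ \ (insert t T), sg s (insert t T) • ((X s : MvPolynomial σ K) •
        c (insert s (insert t T)))) = 0
    simp only [Finset.smul_sum]
    apply PkgSGN.cancel T (fun t s => sg t T • ((X t : MvPolynomial σ K) •
      sg s (insert t T) • ((X s : MvPolynomial σ K) • c (insert s (insert t T)))))
    intro t s ht hs h
    have h1 := PkgSGN.sgn_pair h hs ht
    have h2 : insert t (insert s T) = insert s (insert t T) := Finset.insert_comm t s T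
    have e1 : (X t : MvPolynomial σ K) • sg s (insert t T) • ((X s : MvPolynomial σ K) •
        c (insert s (insert t T))) = sg s (insert t T) • ((X t * X s : MvPolynomial σ K) •
        c (insert s (insert t T))) := by
      rw [smul_comm, smul_smul]
    have e2 : (X s : MvPolynomial σ K) • sg t (insert s T) • ((X t : MvPolynomial σ K) •
        c (insert t (insert s T))) = sg t (insert s T) • ((X t * X s : MvPolynomial σ K) •
        c (insert s (insert t T))) := by
      rw [smul_comm, smul_smul, h2, mul_comm]
    simp only [e1, e2, smul_smul]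
    rw [← add_smul, h1, zero_smul]

end Pool.Agent.T2H28.FS
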