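import Pool.Agent.T2H28.FS.Stm

/-! Package SSP of project FS: powers of strongly stable sets, truncation. -/

namespace Pool.Agent.T2H28.FS

open MvPolynomial

universe u

namespace SspAux

theorem mem_succ {σ : Type} {U : Set (σ → ℕ)} {k : ℕ} {a : σ → ℕ} :
    a ∈ Pw U (k + 1) ↔ ∃ b ∈ U, ∃ c ∈ Pw U k, a = b + c := Iff.rfl

theorem upper {σ : Type} {J : Set (σ → ℕ)} (hJ : IsUpperSet J) : ∀ k, IsUpperSet (Pw J k) := by
  intro k
  induction k with
  | zero => exact isUpperSet_univ
  | succ k _ =>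
    intro a a' haa ha
    obtain ⟨b, hb, c, hc, rfl⟩ := mem_succ.1 ha
    refine mem_succ.2 ⟨b + (a' - (b + c)), hJ (fun t => ?_) hb, c, hc, ?_⟩
    · rw [Pi.add_apply]
      exact Nat.le_add_right _ _
    · funext t
      have h1 : (b + c) t ≤ a' t := haa t
      rw [Pi.add_apply, Pi.add_apply, Pi.sub_apply]
      rw [Pi.add_apply] at h1 ⊢
      omega

theorem small {σ : Type} [Fintype σ] {J : Set (σ → ℕ)} {δ : ℕ}
    (h : ∀ m ∈ J, ∃ g ∈ J, g ≤ m ∧ ∑ t, g t ≤ δ) :
    ∀ k, ∀ m ∈ Pw J k, ∃ g ∈ Pw J k, g ≤ m ∧ ∑ t, g t ≤ δ * k := by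
  intro k
  induction k with
  | zero =>
    intro m _
    refine ⟨0, Set.mem_univ _, fun t => Nat.zero_le _, ?_⟩
    simp
  | succ k ih =>
    intro m hm
    obtain ⟨b, hb, c, hc, rfl⟩ := mem_succ.1 hm
    obtain ⟨b', hb', h1, h2⟩ := h b hb
    obtain ⟨c', hc', h3, h4⟩ := ih c hc
    refine ⟨b' + c', mem_succ.2 ⟨b', hb', c', hc', rfl⟩, add_le_add h1 h3, ?_⟩
    simp only [Pi.add_apply, Finset.sum_add_distrib]
    rw [Nat.mul_succ]
    omega

theorem exists_deg {σ : Type} [Fintype σ] (r : σ → ℕ) :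
    ∀ N, N ≤ ∑ t, r t → ∃ x : σ → ℕ, x ≤ r ∧ ∑ t, x t = N := by
  classical
  intro N
  induction N with
  | zero => intro _; exact ⟨0, fun t => Nat.zero_le _, by simp⟩
  | succ N ih =>
    intro hN
    obtain ⟨x, hx, hxN⟩ := ih (by omega)
    obtain ⟨t, _, ht⟩ : ∃ t ∈ Finset.univ, x t < r t := by
      by_contra hcon
      push Not at hcon
      have := Finset.sum_le_sum hcon
      omega
    refine ⟨x + Pi.single t 1, fun s => ?_, ?_⟩
    · show x s + (Pi.single t 1 : σ → ℕ) s ≤ r s
      by_cases hs : s = t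
      · subst hs
        rw [Pi.single_eq_same]
        omega
      · rw [Pi.single_eq_of_ne hs]
        exact hx s
    · simp only [Pi.add_apply, Finset.sum_add_distrib, hxN, Finset.sum_pi_single',
        Finset.mem_univ, if_true]

theorem sum_split {σ : Type} [Fintype σ] {x y : σ → ℕ} (h : x ≤ y) :
    ∑ t, (y - x) t + ∑ t, x t = ∑ t, y t := by
  rw [← Finset.sum_add_distrib]
  refine Finset.sum_congr rfl fun t _ => ?_
  have h1 : x t ≤ y t := h t
  rw [Pi.sub_apply]
  omega

theorem trunc {σ : Type} [Fintype σ] {J : Set (σ → ℕ)} {δ : ℕ} (hJ : IsUpperSet J)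
    (h : ∀ m ∈ J, ∃ g ∈ J, g ≤ m ∧ ∑ t, g t ≤ δ) :
    ∀ k, Pw {m | m ∈ J ∧ δ ≤ ∑ t, m t} k = {m | m ∈ Pw J k ∧ δ * k ≤ ∑ t, m t} := by
  intro k
  induction k with
  | zero =>
    apply Set.eq_of_subset_of_subset
    · intro m _
      exact ⟨Set.mem_univ _, by simp⟩
    · intro m _
      exact Set.mem_univ _
  | succ k ih =>
    apply Set.eq_of_subset_of_subset
    · intro m hm
      obtain ⟨b, hb, c, hc, rfl⟩ := mem_succ.1 hm
      rw [ih] at hc
      refine ⟨mem_succ.2 ⟨b, hb.1, c, hc.1, rfl⟩, ?_⟩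
      have h1 := hb.2
      have h2 := hc.2
      simp only [Pi.add_apply, Finset.sum_add_distrib]
      rw [Nat.mul_succ]
      omega
    · rintro m ⟨hm, hdeg⟩
      obtain ⟨b, hb, c, hc, hbc⟩ := mem_succ.1 hm
      obtain ⟨b', hb', h1, h2⟩ := h b hb
      obtain ⟨c', hc', h3, h4⟩ := small h k c hc
      have hle : b' + c' ≤ m := by
        rw [hbc]
        exact add_le_add h1 h3
      have hs := sum_split hle
      have hs2 : ∑ t, (b' + c') t = ∑ t, b' t + ∑ t, c' t := by
        simp only [Pi.add_apply, Finset.sum_add_distrib]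
      rw [Nat.mul_succ] at hdeg
      obtain ⟨x, hx, hxd⟩ := exists_deg (m - (b' + c')) (δ - ∑ t, b' t) (by omega)
      have hxm : ∀ t, b' t + x t + c' t ≤ m t := by
        intro t
        have e1 : x t ≤ (m - (b' + c')) t := hx t
        have e2 : (b' + c') t ≤ m t := hle t
        rw [Pi.sub_apply] at e1
        rw [Pi.add_apply] at e1 e2
        omega
      have hb'' : b' + x ≤ m := fun t => by
        have := hxm t
        show b' t + x t ≤ m t
        omega
      have hs3 := sum_split hb''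
      have hs4 : ∑ t, (b' + x) t = δ := by
        simp only [Pi.add_apply, Finset.sum_add_distrib, hxd]
        omega
      refine mem_succ.2 ⟨b' + x, ⟨hJ (fun t => ?_) hb', hs4.ge⟩, m - (b' + x), ?_, ?_⟩
      · rw [Pi.add_apply]
        exact Nat.le_add_right _ _
      · rw [ih]
        refine ⟨upper hJ k (fun t => ?_) hc', by omega⟩
        have := hxm t
        show c' t ≤ m t - (b' t + x t)
        omega
      · funext t
        have := hxm t
        rw [Pi.add_apply, Pi.sub_apply, Pi.add_apply]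
        omega

end SspAux

open SspAux in
theorem T_SSP : P_SSP := by
  classical
  refine ⟨?_, ?_⟩
  · intro n U _ hSS k
    induction k with
    | zero => exact fun m _ s t _ _ => Set.mem_univ _
    | succ k ih =>
      intro m hm s t hst hmt
      obtain ⟨b, hb, c, hc, rfl⟩ := mem_succ.1 hm
      rw [Pi.add_apply] at hmt
      rcases Nat.lt_or_ge 0 (b t) with h1 | h1
      · refine mem_succ.2 ⟨_, hSS b hb s t hst h1, c, hc, ?_⟩
        funext r
        simp only [Pi.add_apply, Pi.sub_apply]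
        by_cases hr : r = t
        · subst hr
          rw [Pi.single_eq_same]
          omega
        · rw [Pi.single_eq_of_ne hr]
          omega
      · refine mem_succ.2 ⟨b, hb, _, ih c hc s t hst (by omega), ?_⟩
        funext r
        simp only [Pi.add_apply, Pi.sub_apply]
        by_cases hr : r = t
        · subst hr
          rw [Pi.single_eq_same]
          omega
        · rw [Pi.single_eq_of_ne hr]
          omega
  · intro σ _ J δ hJ h k
    refine ⟨trunc hJ h k, fun m hm hdeg => ?_⟩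
    obtain ⟨c, hc, h1, h2⟩ := small h k m hm
    have hs := sum_split h1
    obtain ⟨x, hx, hxd⟩ := exists_deg (m - c) (δ * k - ∑ t, c t) (by omega)
    refine ⟨c + x, upper hJ k (fun t => ?_) hc, fun t => ?_, ?_⟩
    · rw [Pi.add_apply]
      exact Nat.le_add_right _ _
    · have e1 : x t ≤ (m - c) t := hx t
      have e2 : c t ≤ m t := h1 t
      rw [Pi.sub_apply] at e1
      show c t + x t ≤ m t
      omega
    · simp only [Pi.add_apply, Finset.sum_add_distrib, hxd]
      omega

end Pool.Agent.T2H28.FS
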