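import Pool.Agent.T2H28.FS.Stm

/-! Package STEP of project FS -/

namespace Pool.Agent.T2H28.FS

open MvPolynomial

universe u

namespace PkgSTEP

theorem ind_mem {σ : Type} {T : Finset σ} {t : σ} (h : t ∈ T) : ind T t = 1 := by
  classical
  unfold ind; exact if_pos h

theorem ind_not {σ : Type} {T : Finset σ} {t : σ} (h : t ∉ T) : ind T t = 0 := by
  classical
  unfold ind; exact if_neg h

theorem ind_mono {σ : Type} {T T' : Finset σ} (h : T ⊆ T') (t : σ) : ind T t ≤ ind T' t := by
  by_cases h1 : t ∈ T
  · rw [ind_mem h1, ind_mem (h h1)]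
  · rw [ind_not h1]; exact Nat.zero_le _

theorem dl_sub {σ : Type} {V : Set (σ → ℕ)} (hV : IsUpperSet V) {a : σ → ℕ} {R R' : Finset σ}
    (h : R' ⊆ R) (hR : Dl V a R) : Dl V a R' := by
  obtain ⟨b, hb, rfl⟩ := hR
  refine ⟨fun t => b t + (ind R t - ind R' t), hV (fun t => Nat.le_add_right _ _) hb, ?_⟩
  funext t
  have := ind_mono h t
  show b t + (ind R t - ind R' t) + ind R' t = b t + ind R t
  omega

theorem new_iff {σ : Type} {U' U : Set (σ → ℕ)} {m : σ → ℕ} {T : Finset σ} {e : σ → ℕ}
    (hcol : ∀ w, m + w ∈ U' ↔ ∃ t ∈ T, e t ≤ w t) (hU : ∀ a, a ∈ U ↔ a ∈ U' ∨ m ≤ a)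
    (a : σ → ℕ) (R : Finset σ) :
    (Dl U a R ∧ ¬ Dl U' a R) ↔
      ((∀ t, m t + ind R t ≤ a t) ∧ ∀ t ∈ T, a t < m t + e t + ind R t) := by
  constructor
  · rintro ⟨⟨b, hb, rfl⟩, h2⟩
    have h3 : b ∉ U' := fun h => h2 ⟨b, h, rfl⟩
    have h4 : m ≤ b := ((hU b).1 hb).resolve_left h3
    refine ⟨fun t => Nat.add_le_add_right (h4 t) _, fun t ht => ?_⟩
    by_contra hlt
    push Not at hlt
    apply h3
    have h5 : m + (b - m) = b := add_tsub_cancel_of_le h4
    rw [← h5, hcol]
    refine ⟨t, ht, ?_⟩
    have : m t + e t + ind R t ≤ b t + ind R t := hlt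
    show e t ≤ b t - m t
    omega
  · rintro ⟨h1, h2⟩
    have hb : (fun t => a t - ind R t) + ind R = a := by
      funext t
      have := h1 t
      show a t - ind R t + ind R t = a t
      omega
    have hm : m ≤ fun t => a t - ind R t := by
      intro t
      have := h1 t
      show m t ≤ a t - ind R t
      omega
    refine ⟨⟨_, (hU _).2 (Or.inr hm), hb⟩, ?_⟩
    rintro ⟨b, hb', hb2⟩
    have h5 : m ≤ b := by
      intro t
      have h6 := h1 t
      have h7 : b t + ind R t = a t := congrFun hb2 t
      show m t ≤ b t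
      omega
    have h8 : m + (b - m) = b := add_tsub_cancel_of_le h5
    rw [← h8, hcol] at hb'
    obtain ⟨t, ht, hte⟩ := hb'
    have h9 := h2 t ht
    have h7 : b t + ind R t = a t := congrFun hb2 t
    have h10 : e t ≤ b t - m t := hte
    have h11 : m t ≤ b t := h5 t
    omega

end PkgSTEP

open PkgSTEP in
theorem T_STEP (hSGN : P_SGN.{u}) : P_STEP.{u} := by
  classical
  intro σ _ _ K _ U' U m T e hU' he hcol hU a i c hc hbd hno
  obtain ⟨sq, anti, _, _⟩ := hSGN
  have hUU : IsUpperSet U := by
    intro x y hxy hx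
    rw [hU] at hx ⊢
    rcases hx with h | h
    · exact Or.inl (hU' hxy h)
    · exact Or.inr (h.trans hxy)
  have hni := new_iff hcol hU a
  -- if the chain vanishes on new faces, `b = 0` works
  have triv : (∀ R, (Dl U a R ∧ ¬ Dl U' a R) → c R = 0) →
      ∃ b : Finset σ → K, Adm U a (i + 1) b ∧ Adm U' a i (c - cd b) := by
    intro h
    refine ⟨0, fun R hR => (hR rfl).elim, fun R hR => ?_⟩
    have h0 : (cd (0 : Finset σ → K)) R = 0 := by simp [cd]
    have h1 : c R ≠ 0 := by
      intro h2
      apply hR
      rw [Pi.sub_apply, h2, h0, sub_zero]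
    obtain ⟨h3, h4⟩ := hc R h1
    refine ⟨?_, h4⟩
    by_contra h5
    exact h1 (h R ⟨h3, h5⟩)
  by_cases hnew : ∃ R, Dl U a R ∧ ¬ Dl U' a R
  swap
  · push Not at hnew
    exact triv (fun R hR => (hR.2 (hnew R hR.1)).elim)
  obtain ⟨R₀, hR₀⟩ := hnew
  rw [hni] at hR₀
  obtain ⟨r1, r2⟩ := hR₀
  have hma : ∀ t, m t ≤ a t := fun t => (Nat.le_add_right _ _).trans (r1 t)
  have hind1 : ∀ (R : Finset σ) t, ind R t ≤ 1 := by
    intro R t
    by_cases h : t ∈ R
    · rw [ind_mem h]
    · rw [ind_not h]; exact Nat.zero_le _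
  have hTle : ∀ t ∈ T, a t ≤ m t + e t := by
    intro t ht
    have h1 := r2 t ht
    have h2 := hind1 R₀ t
    omega
  set F₀ : Finset σ := T.filter (fun t => a t = m t + e t) with hF₀
  set S : Finset σ := Finset.univ.filter (fun t => m t < a t) with hS
  have memS : ∀ t, t ∈ S ↔ m t < a t := by intro t; simp [hS]
  have memF : ∀ t, t ∈ F₀ ↔ t ∈ T ∧ a t = m t + e t := by intro t; simp [hF₀]
  have hnew : ∀ R, (Dl U a R ∧ ¬ Dl U' a R) ↔ F₀ ⊆ R ∧ R ⊆ S := by
    intro R
    rw [hni]
    constructor
    · rintro ⟨h1, h2⟩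
      constructor
      · intro t ht
        rw [memF] at ht
        by_contra hR
        have h3 := h2 t ht.1
        rw [ind_not hR] at h3
        omega
      · intro t ht
        rw [memS]
        have h3 := h1 t
        rw [ind_mem ht] at h3
        omega
    · rintro ⟨h1, h2⟩
      constructor
      · intro t
        by_cases ht : t ∈ R
        · rw [ind_mem ht]
          have := (memS t).1 (h2 ht)
          omega
        · rw [ind_not ht]; exact hma t
      · intro t ht
        have h3 := hTle t ht
        by_cases h4 : a t = m t + e t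
        · rw [ind_mem (h1 ((memF t).2 ⟨ht, h4⟩))]; omega
        · omega
  have hFS : F₀ ⊆ S := by
    intro t ht
    rw [memF] at ht
    rw [memS]
    have := he t ht.1
    omega
  by_cases hFeq : F₀ = S
  · apply triv
    intro R hR
    rw [hnew] at hR
    have hRF : R = F₀ := Finset.Subset.antisymm (by rw [hFeq]; exact hR.2) hR.1
    by_contra hcR
    have hcard := (hc R hcR).2
    rw [hRF] at hcard
    refine hno F₀ (Finset.filter_subset _ _) hcard ?_
    funext t
    by_cases ht : t ∈ F₀
    · have h1 := (memF t).1 ht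
      show a t = m t + bump F₀ e t
      unfold bump
      rw [if_pos ht]; exact h1.2
    · show a t = m t + bump F₀ e t
      unfold bump
      rw [if_neg ht]
      rw [hFeq, memS] at ht
      have := hma t
      omega
  obtain ⟨t₀, ht₀S, ht₀F⟩ : ∃ t₀, t₀ ∈ S ∧ t₀ ∉ F₀ := by
    by_contra h
    push Not at h
    exact hFeq (Finset.Subset.antisymm hFS h)
  set b : Finset σ → K := fun R =>
    if (Dl U a R ∧ ¬ Dl U' a R) ∧ t₀ ∈ R then sg t₀ (R.erase t₀) • c (R.erase t₀) else 0 with hb
  have hbne : ∀ R, b R ≠ 0 → (Dl U a R ∧ ¬ Dl U' a R) ∧ t₀ ∈ R ∧ R.card = i + 1 := by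
    intro R hR
    by_cases h : (Dl U a R ∧ ¬ Dl U' a R) ∧ t₀ ∈ R
    · refine ⟨h.1, h.2, ?_⟩
      have h1 : c (R.erase t₀) ≠ 0 := by
        intro h0
        apply hR
        simp [hb, h0]
      have h2 := (hc _ h1).2
      rw [Finset.card_erase_of_mem h.2] at h2
      have h3 : 0 < R.card := Finset.card_pos.2 ⟨t₀, h.2⟩
      omega
    · exfalso
      apply hR
      simp only [hb, if_neg h]
  have key : ∀ R, (Dl U a R ∧ ¬ Dl U' a R) → cd b R = c R := by
    intro R hR
    by_cases ht : t₀ ∈ R
    · set Q := R.erase t₀ with hQ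
      have ht₀Q : t₀ ∉ Q := Finset.notMem_erase _ _
      have hRQ : insert t₀ Q = R := Finset.insert_erase ht
      have hRn := (hnew R).1 hR
      have hQn : Dl U a Q ∧ ¬ Dl U' a Q := by
        rw [hnew]
        refine ⟨fun t htF => ?_, (Finset.erase_subset _ _).trans hRn.2⟩
        rw [hQ, Finset.mem_erase]
        exact ⟨fun h => ht₀F (h ▸ htF), hRn.1 htF⟩
      have hcQ : cd c Q = 0 := by
        by_contra h
        exact hQn.2 (hbd Q h)
      have hsplit : Finset.univ \ Q = insert t₀ (Finset.univ \ R) := by
        ext t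
        simp only [Finset.mem_sdiff, Finset.mem_univ, true_and, Finset.mem_insert]
        rw [← hRQ, Finset.mem_insert]
        by_cases h : t = t₀
        · subst h; simp [ht₀Q]
        · simp [h]
      have h1 : sg t₀ Q • c R + ∑ t ∈ Finset.univ \ R, sg t Q • c (insert t Q) = 0 := by
        have h2 : cd c Q = ∑ t ∈ Finset.univ \ Q, sg t Q • c (insert t Q) := rfl
        rw [h2, hsplit, Finset.sum_insert (by simp [ht]), hRQ] at hcQ
        exact hcQ
      have h3 : ∀ t ∈ Finset.univ \ R, sg t R • b (insert t R) =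
          (- sg t₀ Q) • (sg t Q • c (insert t Q)) := by
        intro t htR
        simp only [Finset.mem_sdiff, Finset.mem_univ, true_and] at htR
        have htne : t ≠ t₀ := fun h => htR (h ▸ ht)
        have htQ : t ∉ Q := fun h => htR (Finset.mem_of_mem_erase h)
        have h4 : (insert t R).erase t₀ = insert t Q := by
          rw [Finset.erase_insert_of_ne htne]
        have h5 : b (insert t R) = sg t₀ (insert t Q) • c (insert t Q) := by
          by_cases hN : Dl U a (insert t R) ∧ ¬ Dl U' a (insert t R)
          · simp only [hb]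
            rw [if_pos ⟨hN, Finset.mem_insert_of_mem ht⟩, h4]
          · have h6 : t ∉ S := by
              intro hts
              apply hN
              rw [hnew]
              refine ⟨hRn.1.trans (Finset.subset_insert _ _), ?_⟩
              intro x hx
              rw [Finset.mem_insert] at hx
              rcases hx with rfl | hx
              · exact hts
              · exact hRn.2 hx
            have h7 : c (insert t Q) = 0 := by
              by_contra h8
              obtain ⟨⟨b', hb', hb2⟩, _⟩ := hc _ h8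
              rcases (hU b').1 hb' with h9 | h9
              · exact hQn.2 (dl_sub hU' (Finset.subset_insert t Q) ⟨b', h9, hb2⟩)
              · apply h6
                rw [memS]
                have h10 : b' t + ind (insert t Q) t = a t := congrFun hb2 t
                rw [ind_mem (Finset.mem_insert_self t Q)] at h10
                have h11 : m t ≤ b' t := h9 t
                omega
            rw [h7, smul_zero]
            simp only [hb]
            rw [if_neg (fun h => hN h.1)]
        rw [h5, smul_smul, smul_smul]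
        congr 1
        have h12 := anti t₀ t Q (Ne.symm htne) ht₀Q htQ
        rw [hRQ] at h12
        rw [h12]; ring
      have h13 : cd b R = ∑ t ∈ Finset.univ \ R, sg t R • b (insert t R) := rfl
      rw [h13, Finset.sum_congr rfl h3, ← Finset.smul_sum]
      have h14 : ∑ t ∈ Finset.univ \ R, sg t Q • c (insert t Q) = - (sg t₀ Q • c R) :=
        eq_neg_of_add_eq_zero_right h1
      rw [h14, neg_smul, smul_neg, neg_neg, smul_smul, sq, one_smul]
    · have hRn := (hnew R).1 hR
      have h1 : cd b R = ∑ t ∈ Finset.univ \ R, sg t R • b (insert t R) := rfl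
      rw [h1, Finset.sum_eq_single t₀]
      · have hN : Dl U a (insert t₀ R) ∧ ¬ Dl U' a (insert t₀ R) := by
          rw [hnew]
          refine ⟨hRn.1.trans (Finset.subset_insert _ _), ?_⟩
          intro x hx
          rw [Finset.mem_insert] at hx
          rcases hx with rfl | hx
          · exact ht₀S
          · exact hRn.2 hx
        simp only [hb]
        rw [if_pos ⟨hN, Finset.mem_insert_self _ _⟩, Finset.erase_insert ht, smul_smul, sq,
          one_smul]
      · intro t htR htne
        have : b (insert t R) = 0 := by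
          simp only [hb]
          apply if_neg
          rintro ⟨_, h⟩
          rw [Finset.mem_insert] at h
          rcases h with h | h
          · exact htne h.symm
          · exact ht h
        rw [this, smul_zero]
      · intro h
        exact (h (by simp [ht])).elim
  refine ⟨b, fun R hR => ⟨(hbne R hR).1.1, (hbne R hR).2.2⟩, fun R hR => ?_⟩
  have h1 : Dl U a R ∧ R.card = i := by
    by_cases hcR : c R = 0
    · have h2 : cd b R ≠ 0 := by
        intro h
        apply hR
        rw [Pi.sub_apply, hcR, h, sub_zero]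
      obtain ⟨t, ht, hbt⟩ := Finset.exists_ne_zero_of_sum_ne_zero h2
      simp only [Finset.mem_sdiff, Finset.mem_univ, true_and] at ht
      have h3 : b (insert t R) ≠ 0 := fun h => hbt (by rw [h, smul_zero])
      obtain ⟨h4, _, h5⟩ := hbne _ h3
      rw [Finset.card_insert_of_notMem ht] at h5
      exact ⟨dl_sub hUU (Finset.subset_insert _ _) h4.1, by omega⟩
    · exact hc R hcR
  refine ⟨?_, h1.2⟩
  by_contra h2
  apply hR
  rw [Pi.sub_apply, key R ⟨h1.1, h2⟩, sub_self]

end Pool.Agent.T2H28.FS
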