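import Pool.Agent.T2H28.FS.Stm

/-! Project FS: the blocks -/

namespace Pool.Agent.T2H28.FS

open MvPolynomial

universe u

theorem kS_zero_mem {A : Set ℕ} (h0 : 0 ∈ A) : ∀ k, 0 ∈ kS A k := by
  intro k
  induction k with
  | zero => simp [kS]
  | succ k ih => exact ⟨0, h0, 0, ih, rfl⟩

theorem kS_top_mem {A : Set ℕ} {g : ℕ} (h0 : g ∈ A) : ∀ k, g * k ∈ kS A k := by
  intro k
  induction k with
  | zero => simp [kS]
  | succ k ih => exact ⟨g, h0, g * k, ih, by ring⟩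

theorem kS_le {A : Set ℕ} {g : ℕ} (hle : ∀ e ∈ A, e ≤ g) : ∀ k, ∀ e ∈ kS A k, e ≤ g * k := by
  intro k
  induction k with
  | zero => intro e he; simp [kS] at he; simp [he]
  | succ k ih =>
    rintro e ⟨a, ha, b, hb, rfl⟩
    have h1 := hle a ha
    have h2 := ih b hb
    rw [mul_add]; omega

theorem U2_upper (A : Set ℕ) (g : ℕ) : IsUpperSet (U2 A g) := by
  rintro a b hab ⟨e, he, h0, h1⟩
  exact ⟨e, he, h0.trans (hab 0), h1.trans (hab 1)⟩

theorem blk2 (hPW2 : P_PW2) (hPPQ2 : P_PPQ2) (hCOL2 : P_COL2) (A : Set ℕ) (g : ℕ) (hg : 1 ≤ g)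
    (h0 : 0 ∈ A) (hgA : g ∈ A) (hle : ∀ e ∈ A, e ≤ g) (G : ℕ → ℕ) (hG : ∀ k, 1 ≤ G k)
    (gap : ∀ k, 1 ≤ k → ∀ e ∈ kS A k, e < g * k → ∃ e' ∈ kS A k, e < e' ∧ e' ≤ e + G k)
    (exa : ∀ k, 1 ≤ k → ∃ e ∈ kS A k, e + G k ∈ kS A k ∧
      ∀ e' ∈ kS A k, ¬ (e < e' ∧ e' < e + G k))
    (lo hi : ℕ → Prop)
    (hlo : ∀ k, 1 ≤ k → lo k → ∀ e ∈ kS A k, ∀ e' ∈ kS A k, e < e' → e + 2 ≤ e')
    (hhi : ∀ k, 1 ≤ k → hi k → ∃ e ∈ kS A k, e + 1 ∈ kS A k) :
    Blk (U2 A g) g (fun _ => 1) (fun k => g * k + (G k - 1)) (fun _ => {Finset.univ}) lo hi := by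
  refine ⟨U2_upper A g, fun k hk => ?_⟩
  rw [hPW2 A g hle k]
  have hN : 1 ≤ g * k := Nat.mul_pos hg hk
  obtain ⟨c1, c2, c3, c4⟩ := hCOL2 (kS A k) (g * k) hN (kS_zero_mem h0 k) (kS_top_mem hgA k)
    (kS_le hle k)
  have hp := hPPQ2 (kS A k) (g * k) (G k) hN (hG k) (kS_zero_mem h0 k) (kS_top_mem hgA k)
    (kS_le hle k) (gap k hk) (exa k hk)
  have e1 : g * k + G k - 1 = g * k + (G k - 1) := by have := hG k; omega
  rw [e1] at hp
  exact ⟨hp, c1, c2, fun h => c3 (hlo k hk h), fun h => c4 (hhi k hk h)⟩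

theorem kS01 (k : ℕ) : kS {0, 1} k = {e | e ≤ k} := by
  induction k with
  | zero => ext e; simp [kS]
  | succ k ih =>
    ext e
    constructor
    · rintro ⟨a, ha, b, hb, rfl⟩
      rw [ih] at hb
      simp only [Set.mem_insert_iff, Set.mem_singleton_iff, Set.mem_ofPred_eq] at ha hb ⊢
      omega
    · intro he
      simp only [Set.mem_ofPred_eq] at he
      rcases Nat.lt_or_ge k e with h | h
      · exact ⟨1, by simp, k, by rw [ih]; simp, by omega⟩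
      · exact ⟨0, by simp, e, by rw [ih]; exact h, by omega⟩

theorem bv (hPW2 : P_PW2) (hPPQ2 : P_PPQ2) (hCOL2 : P_COL2) (hNUMV : P_NUMV) : P_BV := by
  intro v hv
  rcases Nat.lt_or_ge v 2 with h1 | h2
  · obtain rfl : v = 1 := by omega
    refine ⟨U2 {0, 1} 1, 1, 1, 0, ?_⟩
    have := blk2 hPW2 hPPQ2 hCOL2 {0, 1} 1 le_rfl (by simp) (by simp)
      (by intro e he; simp at he; omega) (fun _ => 1) (fun _ => le_rfl)
      (by
        intro k hk e he hlt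
        rw [kS01] at he ⊢
        simp only [Set.mem_ofPred_eq] at he ⊢
        exact ⟨e + 1, by omega, by omega, by omega⟩)
      (by
        intro k hk
        rw [kS01]
        refine ⟨0, by simp, ?_, ?_⟩
        · simp only [Set.mem_ofPred_eq]; omega
        · intro e' _ h; omega)
      (fun k => k < 1) (fun k => 1 ≤ k)
      (by intro k hk h; omega)
      (by
        intro k hk h
        rw [kS01]
        exact ⟨0, by simp, by simp only [Set.mem_ofPred_eq]; omega⟩)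
    simpa using this
  · refine ⟨U2 {0, 3, 3 * v - 1} (3 * v - 1), 3 * v - 1, 3 * v - 1, max 3 (3 * v - 4) - 1, ?_⟩
    exact blk2 hPW2 hPPQ2 hCOL2 {0, 3, 3 * v - 1} (3 * v - 1) (by omega) (by simp) (by simp)
      (by intro e he; simp at he; omega) (fun _ => max 3 (3 * v - 4)) (fun _ => by omega)
      (fun k hk => (hNUMV v k h2 hk).1) (fun k hk => (hNUMV v k h2 hk).2.1)
      (fun k => k < v) (fun k => v ≤ k)
      (fun k hk => (hNUMV v k h2 hk).2.2.1) (fun k hk => (hNUMV v k h2 hk).2.2.2)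

theorem br (hPW2 : P_PW2) (hPPQ2 : P_PPQ2) (hCOL2 : P_COL2) (hNUMR : P_NUMR) : P_BR := by
  intro r hr
  refine ⟨U2 {0, 2, 2 * (r + 1), 2 * (r + 2)} (2 * (r + 2)), 2 * (r + 2), 2 * (r + 2), 1, ?_⟩
  have := blk2 hPW2 hPPQ2 hCOL2 {0, 2, 2 * (r + 1), 2 * (r + 2)} (2 * (r + 2)) (by omega)
      (by simp) (by simp) (by intro e he; simp at he; omega) (fun k => 2 * (1 + (r - k)))
      (fun _ => by omega)
      (fun k hk => (hNUMR r k hr hk).1) (fun k hk => (hNUMR r k hr hk).2.1)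
      (fun _ => True) (fun _ => False)
      (fun k hk _ => (hNUMR r k hr hk).2.2) (fun k hk h => h.elim)
  have e1 : (fun k => 2 * (r + 2) * k + 1 + 2 * (r - k)) =
      (fun k => 2 * (r + 2) * k + (2 * (1 + (r - k)) - 1)) := by
    funext k; omega
  rw [e1]
  exact this

theorem UD_upper (d : ℕ) : IsUpperSet (UD d) := by
  rintro a b hab ⟨i, hi, h1, h2⟩
  exact ⟨i, hi, fun t ht => (h1 t ht).trans (hab _), fun t ht => (h2 t ht).trans (hab _)⟩

theorem bd (hPWD : P_PWD) (hPPQD : P_PPQD) (hCOLD : P_COLD) : P_BD := by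
  intro d hd
  refine ⟨d, 2 * d, 0, {F | ∃ s t : Fin d, s ≤ t ∧ F = {Sum.inl s, Sum.inr t}}, UD_upper d,
    fun k hk => ?_⟩
  rw [hPWD d k]
  obtain ⟨c1, c2, c3⟩ := hCOLD d k hd hk
  exact ⟨hPPQD d k hd hk, c1, c2, fun _ => c3, fun h => h.elim⟩

theorem dbl_upper {σ : Type} (U : Set (σ → ℕ)) (h : IsUpperSet U) : IsUpperSet (dbl U) := by
  intro a b hab ha
  exact h (fun t => Nat.div_le_div_right (hab t)) ha

theorem ba (hDBL : P_DBL) (hEK2 : P_EK2) (hSSP : P_SSP) (hJA1 : P_JA1) (hJA2 : P_JA2)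
    (hCOLA : P_COLA) (hMPWu : ∀ (U : Set (Fin 4 → ℕ)), IsUpperSet U → ∀ k, IsUpperSet (Pw U k)) :
    P_BA := by
  intro a ha
  have hp : 3 ≤ a + 2 := by omega
  obtain ⟨j1, j2, j3, j4⟩ := hJA1 (a + 2) hp
  obtain ⟨s1, s2⟩ := hSSP
  set W1 : Set (Fin 4 → ℕ) := {m | m ∈ JA (a + 2) ∧ 2 * (a + 2) ≤ ∑ t, m t} with hW1
  have upW1 : IsUpperSet W1 := by
    rintro x y hxy ⟨h1, h2⟩
    exact ⟨j1 hxy h1, h2.trans (Finset.sum_le_sum fun t _ => hxy t)⟩
  have hsingle : ∀ (t : Fin 4), ∑ x, (Pi.single t 1 : Fin 4 → ℕ) x = 1 := by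
    intro t; simp [Finset.sum_pi_single']
  have ssW1 : SS W1 := by
    rintro m ⟨h1, h2⟩ s t hst ht
    refine ⟨j2 m h1 s t hst ht, h2.trans ?_⟩
    have e1 : ∑ x, m x = ∑ x, ((m - Pi.single t 1) + Pi.single s 1 : Fin 4 → ℕ) x := by
      have hle : (Pi.single t 1 : Fin 4 → ℕ) ≤ m := by
        intro x
        by_cases hx : x = t
        · subst hx; simpa using ht
        · simp [Pi.single_eq_of_ne hx]
      have h3 : m = (m - Pi.single t 1) + Pi.single t 1 := (tsub_add_cancel_of_le hle).symm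
      have h4 : ∑ x, m x = ∑ x, (m - Pi.single t 1 : Fin 4 → ℕ) x + 1 := by
        conv_lhs => rw [h3]
        simp only [Pi.add_apply, Finset.sum_add_distrib, hsingle]
      simp only [Pi.add_apply, Finset.sum_add_distrib, hsingle]
      exact h4
    exact e1.le
  have hPW : ∀ k, Pw W1 k = WA a k := by
    intro k
    have := (s2 (JA (a + 2)) (2 * (a + 2)) j1 j3 k).1
    rw [hW1, this]; rfl
  have upWA : ∀ k, IsUpperSet (WA a k) := fun k => by rw [← hPW]; exact hMPWu _ upW1 k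
  have ssWA : ∀ k, SS (WA a k) := fun k => by rw [← hPW]; exact s1 4 W1 upW1 ssW1 k
  refine ⟨dbl W1, 4 * (a + 2), 4 * (a + 2), 3, dbl_upper _ upW1, fun k hk => ?_⟩
  obtain ⟨a1, a2, a3, a4, a5, a6, a7⟩ := hJA2 a k ha hk
  have hd1 := (hDBL W1 upW1).1 k
  rw [hd1, hPW]
  obtain ⟨_, d2, d3⟩ := hDBL (WA a k) (upWA k)
  have hcol := hCOLA a k ha hk (upWA k) (ssWA k)
  refine ⟨?_, ?_, ?_, ?_, fun h => h.elim⟩
  · have h1 := hEK2 3 (2 * (a + 2) * k) (WA a k) (upWA k) (ssWA k) (by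
      rintro m ⟨hm1, hm2⟩
      obtain ⟨g, hg1, hg2, hg3⟩ := (s2 (JA (a + 2)) (2 * (a + 2)) j1 j3 k).2 m hm1 hm2
      exact ⟨g, ⟨hg1, hg3.ge⟩, hg2, hg3⟩) (by
      refine ⟨![(a + 2) * k, 0, 0, (a + 2) * k], ⟨?_, ?_⟩, ?_, ?_⟩
      · exact a4 _ (by simp)
      · simp [Fin.sum_univ_four]; nlinarith
      · simp [Fin.sum_univ_four]; ring
      · show 1 ≤ (a + 2) * k
        exact Nat.mul_pos (by omega) hk)
    have e1 : 2 * (2 * (a + 2) * k) + 3 = 4 * (a + 2) * k + 3 := by ring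
    rw [e1] at h1
    exact h1
  · rw [d2]; exact hcol
  · constructor
    · refine ⟨![4 * (a + 2) * k, 0, 0, 0], ?_, by simp [Fin.sum_univ_four]⟩
      refine ⟨a4 _ ?_, ?_⟩
      · have : (4 * (a + 2) * k) / 2 = 2 * (a + 2) * k := by
          rw [show 4 * (a + 2) * k = 2 * (2 * (a + 2) * k) by ring]; simp
        show (a + 2) * k ≤ (4 * (a + 2) * k) / 2
        rw [this]; nlinarith
      · have : (4 * (a + 2) * k) / 2 = 2 * (a + 2) * k := by
          rw [show 4 * (a + 2) * k = 2 * (2 * (a + 2) * k) by ring]; simp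
        simp [Fin.sum_univ_four, this]
    · rintro m ⟨x, hx, rfl⟩
      have h2 : 2 * (a + 2) * k ≤ ∑ t, x t / 2 := hx.2
      have h3 : 2 * ∑ t, x t / 2 ≤ ∑ t, x t := by
        rw [Finset.mul_sum]; exact Finset.sum_le_sum fun t _ => by omega
      nlinarith
  · intro _ m F hF
    obtain ⟨e1, e2⟩ := d3 m F hF
    have hmem : F ∈ AssU (WA a k) := ⟨_, e1⟩
    rw [hcol] at hmem
    have h0 : (0 : Fin 4) ∈ F := by
      rcases hmem with rfl | rfl | ⟨_, rfl⟩ <;> simp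
    have hcard : 2 ≤ F.card := by
      rcases hmem with rfl | rfl | ⟨_, rfl⟩ <;> decide
    have h1 : (fun t => m t / 2) + (Pi.single 0 1 : Fin 4 → ℕ) ∈ WA a k := by
      rw [e1]; exact ⟨0, h0, by simp⟩
    have h2 : 2 * (a + 2) * k ≤ ∑ t, m t / 2 + 1 := by
      have := h1.2
      simpa only [Pi.add_apply, Finset.sum_add_distrib, hsingle] using this
    nlinarith

end Pool.Agent.T2H28.FS
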