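import Mathlib

/-!
Four stability indices of the powers of a graded ideal: the definitions used by the statement.
-/

namespace Pool.Agent.T2H28.FS

open MvPolynomial

noncomputable section

universe u

variable {σ : Type} [Fintype σ] [LinearOrder σ]

/-- The sign of `t` relative to `T`: minus one to the number of elements of `T` below `t`. -/
def sg (t : σ) (T : Finset σ) : ℤ := (-1) ^ (T.filter (fun s => s < t)).card

/-- The Koszul differential of the variables on a module `M` over the polynomial ring; a chain is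
a function from the finite sets `T` of variables to `M`, living in homological degree `T.card`. -/
def kd (K : Type u) [Field K] {M : Type u} [AddCommGroup M] [Module (MvPolynomial σ K) M]
    (c : Finset σ → M) : Finset σ → M :=
  fun T => ∑ t ∈ Finset.univ \ T, sg t T • ((X t : MvPolynomial σ K) • c (insert t T))

/-- `KosNZ J i e`: the Koszul homology `H_i(x; J)`, i.e. `Tor_i(J, K)`, is nonzero in (internal)
degree `i + e`: some cycle with values in `J`, homogeneous of polynomial degree `e`, is not a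
boundary. -/
def KosNZ {K : Type u} [Field K] (J : Ideal (MvPolynomial σ K)) (i e : ℕ) : Prop :=
  ∃ c : Finset σ → MvPolynomial σ K,
    (∀ T, c T ∈ J) ∧ (∀ T, (c T).IsHomogeneous e) ∧ (∀ T, T.card ≠ i → c T = 0) ∧
      kd K c = 0 ∧
    ¬ ∃ b : Finset σ → MvPolynomial σ K,
        (∀ T, b T ∈ J) ∧ (∀ T, T.card ≠ i + 1 → b T = 0) ∧ kd K b = c

/-- `ρ` is the Castelnuovo-Mumford regularity of the graded ideal `J` (as a module):
the largest `j - i` with `Tor_i(J, K)_j ≠ 0`. -/
def IsReg {K : Type u} [Field K] (J : Ideal (MvPolynomial σ K)) (ρ : ℕ) : Prop :=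
  IsGreatest {e | ∃ i, KosNZ J i e} ρ

/-- `δ` is the depth of the ideal `J` as a module: the largest length of a `J`-regular sequence
of elements of the ideal generated by the variables. -/
def IsDepth {K : Type u} [Field K] (J : Ideal (MvPolynomial σ K)) (δ : ℕ) : Prop :=
  IsGreatest {l | ∃ rs : List (MvPolynomial σ K), rs.length = l ∧
    (∀ r ∈ rs, r ∈ Ideal.span (Set.range (X : σ → MvPolynomial σ K))) ∧
    RingTheory.Sequence.IsRegular J rs} δ

/-- `v` is the v-number of `J`: the least degree of a homogeneous `f` such that `(J : f)` is an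
associated prime of `J`. -/
def IsVnum {K : Type u} [Field K] (J : Ideal (MvPolynomial σ K)) (v : ℕ) : Prop :=
  IsLeast {e | ∃ p ∈ associatedPrimes (MvPolynomial σ K) (MvPolynomial σ K ⧸ J),
    ∃ f : MvPolynomial σ K, f.IsHomogeneous e ∧
      ∀ g : MvPolynomial σ K, g ∈ p ↔ g * f ∈ J} v

/-- `astab(I) = a`: from the power `a` on, and not earlier, the set of associated primes of
`S / I ^ k` is constant. -/
def IsAstab {K : Type u} [Field K] (I : Ideal (MvPolynomial σ K)) (a : ℕ) : Prop :=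
  IsLeast {t | 1 ≤ t ∧ ∀ k, t ≤ k →
    associatedPrimes (MvPolynomial σ K) (MvPolynomial σ K ⧸ I ^ k) =
      associatedPrimes (MvPolynomial σ K) (MvPolynomial σ K ⧸ I ^ t)} a

/-- `dstab(I) = d`: from the power `d` on, and not earlier, the depth of `I ^ k` is constant. -/
def IsDstab {K : Type u} [Field K] (I : Ideal (MvPolynomial σ K)) (d : ℕ) : Prop :=
  ∃ δ : ℕ → ℕ, (∀ k, 1 ≤ k → IsDepth (I ^ k) (δ k)) ∧
    IsLeast {t | 1 ≤ t ∧ ∀ k, t ≤ k → δ k = δ (k + 1)} d

/-- `rstab(I) = r`: the regularity of `I ^ k` is `c k + e` for all large `k`, and `r` is the least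
`t ≥ 1` such that this holds for all `k ≥ t`. -/
def IsRstab {K : Type u} [Field K] (I : Ideal (MvPolynomial σ K)) (r : ℕ) : Prop :=
  ∃ (ρ : ℕ → ℕ) (c e : ℤ), (∀ k, 1 ≤ k → IsReg (I ^ k) (ρ k)) ∧
    (∀ᶠ k in Filter.atTop, (ρ k : ℤ) = c * k + e) ∧
    IsLeast {t | 1 ≤ t ∧ ∀ k, t ≤ k → (ρ k : ℤ) = c * k + e} r

/-- `vstab(I) = v`: with `α` the least degree of a nonzero homogeneous element of `I`, the least
`t ≥ 1` such that, for some integer `b`, the v-number of `I ^ k` is `α k + b` for all `k ≥ t`,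
is `v`. -/
def IsVstab {K : Type u} [Field K] (I : Ideal (MvPolynomial σ K)) (v : ℕ) : Prop :=
  ∃ (w : ℕ → ℕ) (α : ℕ), (∀ k, 1 ≤ k → IsVnum (I ^ k) (w k)) ∧
    IsLeast {e | ∃ f ∈ I, f ≠ 0 ∧ f.IsHomogeneous e} α ∧
    IsLeast {t | 1 ≤ t ∧ ∃ b : ℤ, ∀ k, t ≤ k → (w k : ℤ) = α * k + b} v

/-- The ideal `I` is graded: with `f` it contains the homogeneous components of `f`. -/
def IsGraded {K : Type u} [Field K] (I : Ideal (MvPolynomial σ K)) : Prop :=
  ∀ f ∈ I, ∀ m : ℕ, homogeneousComponent m f ∈ I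

/-- The statement of the answer: all four indices can be prescribed. -/
def Answer (K : Type u) [Field K] : Prop :=
  ∀ a d r v : ℕ, 1 ≤ a → 1 ≤ d → 1 ≤ r → 1 ≤ v →
    ∃ (n : ℕ) (I : Ideal (MvPolynomial (Fin n) K)), I ≠ ⊥ ∧ I ≠ ⊤ ∧ IsGraded I ∧
      IsAstab I a ∧ IsDstab I d ∧ IsRstab I r ∧ IsVstab I v

end

end Pool.Agent.T2H28.FS
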