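import Pool.Agent.T2H28.FS.Defs

/-!
# Project FS: combinatorial definitions and the exact statements of the packages

Every package is a proposition `P_...` with its complete proof in the docstring.
Exponent vectors are functions `σ → ℕ`, a monomial ideal is given by an upper set of them.
-/

namespace Pool.Agent.T2H28.FS

open MvPolynomial

noncomputable section

universe u

/-- Exponents of the squarefree monomial of `T`. -/
def ind {σ : Type} (T : Finset σ) : σ → ℕ := by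
  classical exact fun t => if t ∈ T then 1 else 0

/-- `e` restricted to `F`. -/
def bump {σ : Type} (F : Finset σ) (e : σ → ℕ) : σ → ℕ := by
  classical exact fun t => if t ∈ F then e t else 0

/-- The monomial ideal of an upper set of exponents. -/
def Mon {σ : Type} (K : Type u) [Field K] (U : Set (σ → ℕ)) : Ideal (MvPolynomial σ K) :=
  Ideal.span {f | ∃ m : σ →₀ ℕ, (⇑m : σ → ℕ) ∈ U ∧ f = monomial m 1}

/-- The exponents of the powers. -/
def Pw {σ : Type} (U : Set (σ → ℕ)) : ℕ → Set (σ → ℕ)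
  | 0 => Set.univ
  | k + 1 => {a | ∃ b ∈ U, ∃ c ∈ Pw U k, a = b + c}

/-- `(U : u)` is the prime of the variables in `F`. -/
def IsCol {σ : Type} (U : Set (σ → ℕ)) (m : σ → ℕ) (F : Finset σ) : Prop :=
  ∀ w : σ → ℕ, m + w ∈ U ↔ ∃ t ∈ F, 1 ≤ w t

/-- The associated primes, as sets of variables. -/
def AssU {σ : Type} (U : Set (σ → ℕ)) : Set (Finset σ) := {F | ∃ m, IsCol U m F}

/-- `U` has generators `u i` (in a linear order) such that the colon ideal of the earlier ones by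
`u i` is generated by the pure powers `x_t ^ (e i t)`, `t ∈ T i`; multidegrees determine the
number of bumps; `P` and `ρ` are the projective dimension and the regularity read off. -/
def HasPPQ {σ : Type} [Fintype σ] (U : Set (σ → ℕ)) (P ρ : ℕ) : Prop :=
  ∃ (ι : Type) (_ : Fintype ι) (_ : LinearOrder ι) (u : ι → σ → ℕ) (T : ι → Finset σ)
    (e : ι → σ → ℕ),
    (∀ a, a ∈ U ↔ ∃ i, u i ≤ a) ∧
    (∀ i, ∀ t ∈ T i, 1 ≤ e i t) ∧
    (∀ i w, (∃ j < i, u j ≤ u i + w) ↔ ∃ t ∈ T i, e i t ≤ w t) ∧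
    (∀ i j F G, F ⊆ T i → G ⊆ T j → u i + bump F (e i) = u j + bump G (e j) →
      F.card = G.card) ∧
    (∀ i, (T i).card ≤ P) ∧ (∃ i, (T i).card = P) ∧
    (∀ i, ∑ t, u i t + ∑ t ∈ T i, (e i t - 1) ≤ ρ) ∧
    (∃ i, ∑ t, u i t + ∑ t ∈ T i, (e i t - 1) = ρ)

/-- `T` is a face of the upper Koszul complex of `U` in multidegree `a`. -/
def Dl {σ : Type} (U : Set (σ → ℕ)) (a : σ → ℕ) (T : Finset σ) : Prop :=
  ∃ b ∈ U, b + ind T = a

/-- Simplicial boundary. -/
def cd {σ : Type} [Fintype σ] [LinearOrder σ] {K : Type u} [Field K] (c : Finset σ → K) :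
    Finset σ → K :=
  fun T => ∑ t ∈ Finset.univ \ T, sg t T • c (insert t T)

/-- `c` is a chain of size `i` on the faces in multidegree `a`. -/
def Adm {σ : Type} {K : Type u} [Field K] (U : Set (σ → ℕ)) (a : σ → ℕ) (i : ℕ)
    (c : Finset σ → K) : Prop :=
  ∀ T, c T ≠ 0 → Dl U a T ∧ T.card = i

/-- The homology in multidegree `a` is nonzero. -/
def CNZ {σ : Type} [Fintype σ] [LinearOrder σ] (K : Type u) [Field K] (U : Set (σ → ℕ))
    (i : ℕ) (a : σ → ℕ) : Prop :=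
  ∃ c : Finset σ → K, Adm U a i c ∧ cd c = 0 ∧ ¬ ∃ b : Finset σ → K, Adm U a (i + 1) b ∧ cd b = c

/-- The Koszul homology of a module in degree `i` vanishes. -/
def KZ (σ : Type) [Fintype σ] [LinearOrder σ] (K : Type u) [Field K] (M : Type u)
    [AddCommGroup M] [Module (MvPolynomial σ K) M] (i : ℕ) : Prop :=
  ∀ c : Finset σ → M, (∀ T, T.card ≠ i → c T = 0) → kd K c = 0 →
    ∃ b : Finset σ → M, (∀ T, T.card ≠ i + 1 → b T = 0) ∧ kd K b = c

/-- The ideal of all variables. -/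
def mm (σ : Type) (K : Type u) [Field K] : Ideal (MvPolynomial σ K) :=
  Ideal.span (Set.range (X : σ → MvPolynomial σ K))

/-- The prime generated by the variables in `F`. -/
def PF {σ : Type} (K : Type u) [Field K] (F : Finset σ) : Ideal (MvPolynomial σ K) :=
  Ideal.span (X '' (F : Set σ))

/-- Numerical data of a block. `A k` are the associated primes of the `k`-th power. -/
def Blk {σ : Type} [Fintype σ] (U : Set (σ → ℕ)) (α : ℕ) (P ρ : ℕ → ℕ)
    (A : ℕ → Set (Finset σ)) (lo hi : ℕ → Prop) : Prop :=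
  IsUpperSet U ∧ ∀ k, 1 ≤ k → HasPPQ (Pw U k) (P k) (ρ k) ∧ AssU (Pw U k) = A k ∧
    IsLeast {m | ∃ a ∈ Pw U k, ∑ t, a t = m} (α * k) ∧
    (lo k → ∀ m F, IsCol (Pw U k) m F → α * k ≤ ∑ t, m t) ∧
    (hi k → ∃ m F, IsCol (Pw U k) m F ∧ ∑ t, m t + 1 = α * k)

/-! ## Base lemmas (SGN) -/

/-- (SGN) Signs. Put `N t T = #{x ∈ T | x < t}`. For `s ≠ t` outside `R`, one of
`N t (insert s R) = N t R + [s < t]`, `N s (insert t R) = N s R + [t < s]` changes, exactly one.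
Then `kd (kd c) = 0` and `cd (cd c) = 0`: expand the double sum over ordered pairs `(t, s)`,
`t ∉ T`, `s ∉ insert t T`, and pair `(t, s)` with `(s, t)` (`Finset.sum_involution`). -/
def P_SGN : Prop :=
  (∀ {σ : Type} [Fintype σ] [LinearOrder σ] (t : σ) (T : Finset σ), sg t T * sg t T = 1) ∧
  (∀ {σ : Type} [Fintype σ] [LinearOrder σ] (s t : σ) (R : Finset σ), s ≠ t → s ∉ R → t ∉ R →
    sg t (insert s R) * sg s (insert t R) = - (sg t R * sg s R)) ∧
  (∀ {σ : Type} [Fintype σ] [LinearOrder σ] (K : Type u) [Field K] (c : Finset σ → K),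
    cd (cd c) = 0) ∧
  (∀ {σ : Type} [Fintype σ] [LinearOrder σ] (K : Type u) [Field K] (M : Type u)
    [AddCommGroup M] [Module (MvPolynomial σ K) M] (c : Finset σ → M), kd K (kd K c) = 0)

/-! ## Monomial ideals -/

/-- (MPW) (a) `Mon K U` (for an upper set) consists of the polynomials whose exponents lie in `U`
(Mathlib: `MvPolynomial.mem_ideal_span_monomial_image`). (b) the powers: induction on `k`;
`Ideal.span_mul_span'` or by `pow_succ` and both inclusions on generators; `Pw U k` is an upper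
set; `k = 0`: both sides are everything. -/
def P_MPW : Prop :=
  ∀ {σ : Type} [Fintype σ] (K : Type u) [Field K] (U : Set (σ → ℕ)), IsUpperSet U →
    (∀ f : MvPolynomial σ K, f ∈ Mon K U ↔ ∀ m ∈ f.support, (⇑m : σ → ℕ) ∈ U) ∧
    (∀ k, IsUpperSet (Pw U k)) ∧ (∀ k, Mon K U ^ k = Mon K (Pw U k))

/-- (PRM) If `(Mon K U : f)` is prime then some exponent `m` of `f` has `(U : m)` = the prime of
the variables in some `F`, and `(Mon K U : f) = PF K F`.
PROOF. Let `p = (J : f)`, `J = Mon K U` (membership: all exponents in `U`, given as `hm`).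
(1) `p` contains with `g` all monomials `x ^ w`, `w ∈ supp g`. Choose among all `f'` with
`(J : f') = p` and `supp f' ∩ U = ∅` one with the smallest number of terms (`f` minus its terms
with exponents in `U` is one; it is not `0` as `p ≠ ⊤`). Fix a monomial order
(`MonomialOrder.lex`, needs a linear order on `σ`, which is assumed). Let `g ∈ p`, `g ≠ 0`, with
leading exponent `w`, and `u₀` that of `f'`. `g f' ∈ J` has a nonzero coefficient at `w + u₀`, so
`w + u₀ ∈ U`. If `x ^ w ∉ p` then `(J : x ^ w f') = p` (`p` prime), and dropping from `x ^ w f'`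
the terms in `U` (among them `w + u₀`) gives `f''` with fewer terms and `(J : f'') = p`: this
contradicts minimality. So `x ^ w ∈ p`; subtract the leading term of `g` and induct.
(2) So for every `u ∈ supp f'` and `g ∈ p`: `x ^ w ∈ p` for `w ∈ supp g`, `x ^ w f' ∈ J`, hence
`w + u ∈ U`: `p ≤ (J : x ^ u)`. (3) `∏_{u ∈ supp f'} (J : x ^ u) ≤ ⋂ (J : x ^ u) ≤ (J : f') = p`,
so `(J : x ^ u) ≤ p` for some `u` (`Ideal.IsPrime.prod_le`), thus `(J : x ^ u) = p`.
To get `u ∈ supp f` do (2), (3) with `f` minus its terms in `U` (any `f'` with the two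
properties works). (4) `F = {t | X t ∈ p}`: `x ^ w ∈ p` iff `w t ≥ 1` for some `t ∈ F` (prime),
so `IsCol U u F`, and `p = PF K F` (`p` is generated by its monomials). -/
def P_PRM : Prop :=
  ∀ {σ : Type} [Fintype σ] [LinearOrder σ] (K : Type u) [Field K] (U : Set (σ → ℕ)),
    IsUpperSet U →
    (∀ f : MvPolynomial σ K, f ∈ Mon K U ↔ ∀ m ∈ f.support, (⇑m : σ → ℕ) ∈ U) →
    ∀ (p : Ideal (MvPolynomial σ K)) (f : MvPolynomial σ K), p.IsPrime →
      (∀ g, g ∈ p ↔ g * f ∈ Mon K U) →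
      ∃ m ∈ f.support, ∃ F : Finset σ, IsCol U (⇑m) F ∧ p = PF K F

/-- (COLX) `(Mon K U : x ^ m) = PF K F` if `IsCol U m F`; `PF K F` is prime (the quotient by it is
a polynomial ring; e.g. it is the kernel of the algebra map sending `X t` to `0` for `t ∈ F` and
to `X t` otherwise; or find it in Mathlib) and `PF` is injective (`X t ∈ PF K F` iff `t ∈ F`;
`mem_ideal_span_X_image`). -/
def P_COLX : Prop :=
  ∀ {σ : Type} [Fintype σ] (K : Type u) [Field K],
    (∀ (U : Set (σ → ℕ)), IsUpperSet U →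
      (∀ f : MvPolynomial σ K, f ∈ Mon K U ↔ ∀ m ∈ f.support, (⇑m : σ → ℕ) ∈ U) →
      ∀ (m : σ →₀ ℕ) (F : Finset σ), IsCol U (⇑m) F →
        ∀ g : MvPolynomial σ K, g ∈ PF K F ↔ g * monomial m 1 ∈ Mon K U) ∧
    (∀ F : Finset σ, (PF K F).IsPrime) ∧
    (∀ F G : Finset σ, PF K F = PF K G → F = G)

/-- (ASS) From PRM and COLX: the associated primes and the v-number of a monomial ideal. A member
of `associatedPrimes S (S ⧸ J)` is a prime `p` that is the annihilator of the class of some `f`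
(check the exact Mathlib definition; `g` kills the class of `f` iff `g * f ∈ J`). For the
v-number: if `f` is homogeneous of degree `e` then every exponent of `f` has sum `e`. -/
def P_ASS : Prop :=
  ∀ {σ : Type} [Fintype σ] [LinearOrder σ] (K : Type u) [Field K] (U : Set (σ → ℕ)),
    IsUpperSet U →
    associatedPrimes (MvPolynomial σ K) (MvPolynomial σ K ⧸ Mon K U) =
        {p | ∃ F ∈ AssU U, p = PF K F} ∧
    (∀ v, IsLeast {e | ∃ m F, IsCol U m F ∧ ∑ t, m t = e} v → IsVnum (Mon K U) v)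

/-! ## Koszul homology of monomial ideals -/

/-- (POLY) Koszul homology of `Mon K U` multidegree by multidegree.
For a chain `c` with values in `S` and `a : σ → ℕ` put
`c_a T = coeff (a - ind T) (c T)` if `ind T ≤ a` and `0` otherwise. Then `(kd c)_a = cd (c_a)`
(the coefficient of `X t * c (insert t T)` at `a - ind T` is that of `c (insert t T)` at
`a - ind (insert t T)` if `1 ≤ a t`, and `0` otherwise), and `c_a` is admissible for `U`, `a` if
`c` has values in `Mon K U` (`hm`). Conversely an admissible `b` in multidegree `a` gives the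
chain `T ↦ monomial (a - ind T) (b T)`. Only finitely many `a` occur for a given `c`: so if all
`c_a` are boundaries `cd (b_a)` then `c = kd b` with `b T = ∑_a monomial (a - ind T) (b_a T)`
(finite sum over the `a` that occur). If `c` is homogeneous of degree `e` and size `i` then
`c_a ≠ 0` only for `∑ a = e + i`. -/
def P_POLY : Prop :=
  ∀ {σ : Type} [Fintype σ] [LinearOrder σ] (K : Type u) [Field K] (U : Set (σ → ℕ)),
    IsUpperSet U →
    (∀ f : MvPolynomial σ K, f ∈ Mon K U ↔ ∀ m ∈ f.support, (⇑m : σ → ℕ) ∈ U) →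
    (∀ i e, KosNZ (Mon K U) i e ↔ ∃ a : σ → ℕ, ∑ t, a t = e + i ∧ CNZ K U i a) ∧
    (∀ i, KZ σ K (Mon K U) i ↔ ∀ a : σ → ℕ, ¬ CNZ K U i a)

/-- (STEP) One step of the filtration. `U'` is an upper set, `U = U' ∪ (m + ℕ^σ)`, and the colon
of `U'` by `m` is generated by pure powers `e t`, `t ∈ T`. A chain `c` of size `i` on the faces
of `U` whose boundary lives on the faces of `U'` can be moved into `U'` by a boundary, unless
`a = m + bump F e` for some `F ⊆ T` with `F.card = i`.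
PROOF. If not `m ≤ a` there are no new faces: `b = 0`. Let `w = a - m`. A set `R` is a new face
(face of `U`, not of `U'`) iff `R ⊆ supp w` and, for all `t ∈ T`, `w t - [t ∈ R] < e t`; i.e.
`w t ≤ e t` for all `t ∈ T` and `F₀ ⊆ R ⊆ supp w` with `F₀ = {t ∈ T | w t = e t}`
(`F₀ ⊆ supp w` as `e t ≥ 1`). If `w t > e t` for some `t ∈ T` there is no new face: `b = 0`.
If `F₀ = supp w` then `a = m + bump F₀ e`, so `F₀.card ≠ i`, the only new face is `F₀` and
`c F₀ = 0`: `b = 0`. Otherwise choose `t₀ ∈ supp w \ F₀` and put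
`b R = sg t₀ (R.erase t₀) • c (R.erase t₀)` if `R` is a new face and `t₀ ∈ R`, else `0`.
For a new face `R ∌ t₀`: `cd b R = c R` (only `t = t₀` contributes). For a new face `R ∋ t₀`,
`Q = R.erase t₀` is a new face, so `cd c Q = 0`, i.e.
`sg t₀ Q • c R + ∑_{t ∉ R} sg t Q • c (insert t Q) = 0`, where the terms with `insert t Q` not a
new face vanish (if it were a face of `U'`, so would be `Q`); and
`cd b R = ∑_{t ∉ R} sg t R * sg t₀ (insert t Q) • c (insert t Q)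
= - sg t₀ Q • ∑_{t ∉ R} sg t Q • c (insert t Q) = c R` (SGN). So `c - cd b` vanishes on new faces;
it is a chain of size `i` on faces of `U` (faces are closed under subsets). -/
def P_STEP : Prop :=
  ∀ {σ : Type} [Fintype σ] [LinearOrder σ] (K : Type u) [Field K] (U' U : Set (σ → ℕ))
    (m : σ → ℕ) (T : Finset σ) (e : σ → ℕ), IsUpperSet U' → (∀ t ∈ T, 1 ≤ e t) →
    (∀ w, m + w ∈ U' ↔ ∃ t ∈ T, e t ≤ w t) → (∀ a, a ∈ U ↔ a ∈ U' ∨ m ≤ a) →
    ∀ (a : σ → ℕ) (i : ℕ) (c : Finset σ → K), Adm U a i c →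
      (∀ R, cd c R ≠ 0 → Dl U' a R) →
      (∀ F ⊆ T, F.card = i → a ≠ m + bump F e) →
      ∃ b : Finset σ → K, Adm U a (i + 1) b ∧ Adm U' a i (c - cd b)

/-- (VAN) Let `u`, `T`, `e` on a finite linear order `ι` satisfy the colon condition; for a set
`L ⊆ ι` that is an initial segment let `U_L` be generated by `u j`, `j ∈ L`. If the homology of
`U_L` at `(i, a)` is nonzero then `a = u j + bump F (e j)` for some `j ∈ L`, `F ⊆ T j`,
`F.card = i`. PROOF: induction on `L` (remove the largest element `j`) with STEP applied to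
`U' = U_{L \ {j}}`, `U = U_L`, `c` the cycle: if `(j, F)` does not give `a`, `c - cd b` is a cycle
for `U'` (SGN: `cd (cd b) = 0`), a boundary by induction. `L = ∅`: no faces. -/
def P_VAN : Prop :=
  ∀ {σ : Type} [Fintype σ] [LinearOrder σ] (K : Type u) [Field K] {ι : Type} [Fintype ι]
    [LinearOrder ι] (u : ι → σ → ℕ) (T : ι → Finset σ) (e : ι → σ → ℕ),
    (∀ i, ∀ t ∈ T i, 1 ≤ e i t) →
    (∀ i w, (∃ j < i, u j ≤ u i + w) ↔ ∃ t ∈ T i, e i t ≤ w t) →
    ∀ L : Finset ι, (∀ j ∈ L, ∀ j' < j, j' ∈ L) → ∀ (i : ℕ) (a : σ → ℕ),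
      CNZ K {b | ∃ j ∈ L, u j ≤ b} i a → ∃ j ∈ L, ∃ F ⊆ T j, F.card = i ∧ a = u j + bump F (e j)

/-- (NV) Nonvanishing. With the same data for all of `ι`: if `a = u j + bump F (e j)` with
`F ⊆ T j`, `F.card = i`, and any `(j', F')` giving `a` has `F'.card = i`, then the homology at
`(i, a)` is nonzero. PROOF. We may choose any such `(j, F)`. Let `U₁` be generated by the
`u j'`, `j' < j`, and `U₂` by `j' ≤ j`. `F` is a face of `U₂` in multidegree `a`
(`u j + (bump F e - ind F)`), not of `U₁` (colon condition), and it is the ONLY new face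
(see STEP: `w = bump F e`, `supp w = F = F₀`). Its proper subsets are faces of `U₁`. The
boundary `cd (single F)` is a cycle of size `i - 1` on faces of `U₁` (if `i = 0` it is `0`), and
by VAN (no `(j', F')` with `F'.card = i - 1`) it is `cd c₁`, `c₁` admissible of size `i` for
`U₁`. `z = single F - c₁` is a cycle of size `i` for `U₂` with `z F = 1`. CLAIM: for no initial
segment `L ∋ j` is `z = cd y`, `y` admissible of size `i + 1` for `U_L`: induct on `L` downwards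
to `{j' | j' ≤ j}`: if `L` has largest element `j'' > j`, STEP for `y` (its boundary `z` lives on
the faces of `U_{L \ {j''}}`; `a ≠ u j'' + bump F'' e` for `F''.card = i + 1`) gives `y - cd b`
admissible for the smaller `L` with the same boundary. For `L = {j' | j' ≤ j}`: `y` has size
`i + 1`, so its faces are different from `F`, hence faces of `U₁`, and `cd y F` would involve
`y (insert t F)`, with `insert t F` a face of `U₁`, so `F` would be a face of `U₁`: contradiction,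
so `cd y F = 0 ≠ 1`. -/
def P_NV : Prop :=
  ∀ {σ : Type} [Fintype σ] [LinearOrder σ] (K : Type u) [Field K] {ι : Type} [Fintype ι]
    [LinearOrder ι] (u : ι → σ → ℕ) (T : ι → Finset σ) (e : ι → σ → ℕ),
    (∀ i, ∀ t ∈ T i, 1 ≤ e i t) →
    (∀ i w, (∃ j < i, u j ≤ u i + w) ↔ ∃ t ∈ T i, e i t ≤ w t) →
    ∀ (j : ι) (F : Finset σ) (i : ℕ) (a : σ → ℕ), F ⊆ T j → F.card = i →
      a = u j + bump F (e j) →
      (∀ j' F', F' ⊆ T j' → a = u j' + bump F' (e j') → F'.card = i) →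
      CNZ K {b | ∃ j, u j ≤ b} i a

/-- (KOS) Consequence of VAN, NV for `HasPPQ`: `{e | ∃ i, homology at (i, a) with ∑ a = e + i
nonzero}` has greatest element `ρ`, and `P` is the largest `i` with nonzero homology.
PROOF: if nonzero at `(i, a)`, VAN with `L = univ` gives `j`, `F ⊆ T j`,
`∑ a = ∑ u j + ∑_F e = ∑ u j + ∑_F (e - 1) + i ≤ ρ + i`, `i = F.card ≤ P`. Conversely NV with
`F = T j` for the `j` attaining `P`, resp. `ρ` (the uniqueness of cards is in `HasPPQ`). -/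
def P_KOS : Prop :=
  ∀ {σ : Type} [Fintype σ] [LinearOrder σ] (K : Type u) [Field K] (U : Set (σ → ℕ)) (P ρ : ℕ),
    HasPPQ U P ρ →
    IsGreatest {i | ∃ a : σ → ℕ, CNZ K U i a} P ∧
    IsGreatest {e | ∃ (i : ℕ) (a : σ → ℕ), ∑ t, a t = e + i ∧ CNZ K U i a} ρ

/-! ## Depth -/

/-- (HTP) `y ∈ mm` kills the Koszul homology: for a cycle `c` of size `i` there is `b` of size
`i + 1` with `kd b = y • c`. For `y = X s`: `b T = sg s (T.erase s) • c (T.erase s)` if `s ∈ T`,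
else `0`; for `s ∉ T` only `t = s` contributes; for `s ∈ T` use `kd c (T.erase s) = 0` and SGN.
Then `Submodule.span_induction`. -/
def P_HTP : Prop :=
  ∀ {σ : Type} [Fintype σ] [LinearOrder σ] (K : Type u) [Field K] (M : Type u)
    [AddCommGroup M] [Module (MvPolynomial σ K) M] (i : ℕ) (c : Finset σ → M),
    (∀ T, T.card ≠ i → c T = 0) → kd K c = 0 → ∀ y ∈ mm σ K,
      ∃ b : Finset σ → M, (∀ T, T.card ≠ i + 1 → b T = 0) ∧ kd K b = fun T => y • c T

/-- (DU) If `rs` is weakly `M`-regular in `mm` of length `l` then `KZ M i` for `i + l > n`,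
`n = Fintype.card σ`. Induction on `rs` for all `M`: `rs = []`: no sets of size `i > n`.
`rs = r :: rs'`: let `c` be a cycle of size `i`; HTP: `r • c = kd b`, `b` of size `i + 1`. The
class of `b` in `M / r M` (`QuotSMulTop r M`) is a cycle of size `i + 1`,
`(i + 1) + (l - 1) > n`, so it is `kd` of a chain, lift it to `e`: `b - kd e = r • b'` (choose
`b'` of size `i + 1`), `r • c = kd (b - kd e) = r • kd b'`, and `c = kd b'`. -/
def P_DU : Prop :=
  ∀ {σ : Type} [Fintype σ] [LinearOrder σ] (K : Type u) [Field K] (M : Type u)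
    [AddCommGroup M] [Module (MvPolynomial σ K) M] (rs : List (MvPolynomial σ K)),
    (∀ r ∈ rs, r ∈ mm σ K) → RingTheory.Sequence.IsWeaklyRegular M rs →
      ∀ i, Fintype.card σ < i + rs.length → KZ σ K M i

/-- (DL) If `M` is finitely generated, `l ≤ n` and `KZ M i` for all `i + l > n` then there is a
weakly regular sequence of length `l` in `mm`. Induction on `l` for all `M`. Step `l → l + 1`:
`KZ M n` says: `x ∈ M` with `X t • x = 0` for all `t` is `0` (chain `univ ↦ x`; sets of size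
`n + 1` do not exist). So `mm` is not contained in an associated prime `p = ann x`, `x ≠ 0`;
`M` is noetherian, finitely many associated primes, prime avoidance
(`Ideal.subset_union_prime`) and `biUnion_associatedPrimes_eq_compl_regular`: there is `y ∈ mm`
with `IsSMulRegular M y`. `M' = QuotSMulTop y M` has `KZ M' i` for `i + l > n`: a cycle of
size `i` lifts to `c` with `kd c = y • c'`, `c'` of size `i - 1` (`i ≥ 1` since `l < n`),
`y • kd c' = kd (kd c) = 0` so `kd c' = 0`, `(i - 1) + (l + 1) > n` so `c' = kd e`,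
`kd (c - y • e) = 0`, `i + l + 1 > n` so `c - y • e = kd f`, and the class of `c` is `kd` of the
class of `f`. Then `RingTheory.Sequence.isWeaklyRegular_cons_iff`. -/
def P_DL : Prop :=
  ∀ {σ : Type} [Fintype σ] [LinearOrder σ] (K : Type u) [Field K] (M : Type u)
    [AddCommGroup M] [Module (MvPolynomial σ K) M], Module.Finite (MvPolynomial σ K) M →
    ∀ l, l ≤ Fintype.card σ → (∀ i, Fintype.card σ < i + l → KZ σ K M i) →
      ∃ rs : List (MvPolynomial σ K), rs.length = l ∧ (∀ r ∈ rs, r ∈ mm σ K) ∧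
        RingTheory.Sequence.IsWeaklyRegular M rs

/-- (DEP) Depth of a nonzero ideal `J`: if `P` is the largest `i` with `¬ KZ J i` then the depth
is `n - P`. Upper bound: a regular sequence of length `l` has `KZ J i` for `i + l > n` (DU), so
`P + l ≤ n`. Lower bound: DL with `l = n - P`. A weakly regular sequence `rs` in `mm` is regular:
`(rs) J = J` would give `J ≤ mm • J`, by Nakayama
(`Submodule.exists_sub_one_mem_and_smul_eq_zero_of_fg_of_le_smul`) some `r` with `r - 1 ∈ mm`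
kills `J`, so `r = 0` (domain), `1 ∈ mm`, false (constant coefficient). `mm` is written out in
`IsDepth`. If `σ` has `n` elements then `P ≤ n` follows from `¬ KZ J P`. -/
def P_DEP : Prop :=
  ∀ {σ : Type} [Fintype σ] [LinearOrder σ] (K : Type u) [Field K]
    (J : Ideal (MvPolynomial σ K)), J ≠ ⊥ → ∀ P : ℕ,
    IsGreatest {i | ¬ KZ σ K J i} P → IsDepth J (Fintype.card σ - P)

/-! ## Products and reindexing -/

/-- The product of two upper sets in disjoint variables. -/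
def prodU {σ τ : Type} (U : Set (σ → ℕ)) (V : Set (τ → ℕ)) : Set (σ ⊕ τ → ℕ) :=
  {a | (fun t => a (Sum.inl t)) ∈ U ∧ (fun t => a (Sum.inr t)) ∈ V}

/-- The union of the associated primes of the factors. -/
def prodA {σ τ : Type} (A : Set (Finset σ)) (B : Set (Finset τ)) : Set (Finset (σ ⊕ τ)) :=
  {F | (∃ G ∈ A, F = G.map ⟨Sum.inl, Sum.inl_injective⟩) ∨
    (∃ G ∈ B, F = G.map ⟨Sum.inr, Sum.inr_injective⟩)}

/-- (PPQP) Product of `HasPPQ`: index set `ι₁ ×ₗ ι₂` (lexicographic), `u (i, j) = (u₁ i, u₂ j)`,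
`T = T₁ i ⊔ T₂ j` (disjoint sum), `e` accordingly. Colon condition: if an earlier `(i', j')` has
`u ≤ u + w` then `i' < i` (so the first component is in the colon for `i`) or `i' = i`,
`j' < j`; conversely use `(i', j)` and `(i, j')`. -/
def P_PPQP : Prop :=
  ∀ {σ τ : Type} [Fintype σ] [Fintype τ] (U : Set (σ → ℕ)) (V : Set (τ → ℕ))
    (P₁ ρ₁ P₂ ρ₂ : ℕ), HasPPQ U P₁ ρ₁ → HasPPQ V P₂ ρ₂ →
    HasPPQ (prodU U V) (P₁ + P₂) (ρ₁ + ρ₂)

/-- (PRC) (a) `Pw (prodU U V) k = prodU (Pw U k) (Pw V k)`. (b) For nonempty upper sets: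
`IsCol (prodU U V) m F` iff (the inl-part of `m` is a col of `U` with `G`, `F = G.map inl`, and
the inr-part of `m` is in `V`) or the same with the roles exchanged. (`←` clear. `→`: `m` is not
in `prodU` (`w = 0`). If both parts are outside, then `m + w` is outside for `w` supported in one
factor, so `F = ∅`, but `m + w` is inside for large `w`. If the inr-part is in `V`, then
`m + w ∈ prodU` iff `m₁ + w₁ ∈ U` and `m₂ + w₂ ∈ V` (automatic), so no `inr t` is in `F` (take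
`w = ind {inr t}`), etc.) (c) So `AssU` of the product is `prodA`. -/
def P_PRC : Prop :=
  ∀ {σ τ : Type} [Fintype σ] [Fintype τ] (U : Set (σ → ℕ)) (V : Set (τ → ℕ)),
    (∀ k, Pw (prodU U V) k = prodU (Pw U k) (Pw V k)) ∧
    (IsUpperSet U → IsUpperSet V → U.Nonempty → V.Nonempty →
      (∀ m F, IsCol (prodU U V) m F ↔
        (∃ G, F = G.map ⟨Sum.inl, Sum.inl_injective⟩ ∧ IsCol U (fun t => m (Sum.inl t)) G ∧
            (fun t => m (Sum.inr t)) ∈ V) ∨
        (∃ G, F = G.map ⟨Sum.inr, Sum.inr_injective⟩ ∧ IsCol V (fun t => m (Sum.inr t)) G ∧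
            (fun t => m (Sum.inl t)) ∈ U)) ∧
      AssU (prodU U V) = prodA (AssU U) (AssU V))

/-- (RIX) Reindexing a block along an equivalence of the variables. -/
def P_RIX : Prop :=
  ∀ {σ τ : Type} [Fintype σ] [Fintype τ] (f : σ ≃ τ) (U : Set (σ → ℕ)) (α : ℕ)
    (P ρ : ℕ → ℕ) (A : ℕ → Set (Finset σ)) (lo hi : ℕ → Prop), Blk U α P ρ A lo hi →
    Blk {a : τ → ℕ | (fun t => a (f t)) ∈ U} α P ρ
      (fun k => {F | ∃ G ∈ A k, F = G.map f.toEmbedding}) lo hi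

/-! ## Blocks in two variables -/

/-- The monomials divisible by some `x ^ (N - e) y ^ e`, `e ∈ E`. -/
def U2 (E : Set ℕ) (N : ℕ) : Set (Fin 2 → ℕ) := {a | ∃ e ∈ E, N - e ≤ a 0 ∧ e ≤ a 1}

/-- The `k`-fold sumset. -/
def kS (A : Set ℕ) : ℕ → Set ℕ
  | 0 => {0}
  | k + 1 => {e | ∃ a ∈ A, ∃ b ∈ kS A k, e = a + b}

/-- (PW2) The powers in two variables; induction on `k`: given `a` with
`g (k+1) - (e₁ + e₂) ≤ a 0`, `e₁ + e₂ ≤ a 1` take `b = (g - e₁, e₁)`, `c = a - b`. -/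
def P_PW2 : Prop :=
  ∀ (A : Set ℕ) (g : ℕ), (∀ e ∈ A, e ≤ g) → ∀ k, Pw (U2 A g) k = U2 (kS A k) (g * k)

/-- (PPQ2) `U2 E N` with gap bound `G`: generators `x ^ (N - e) y ^ e` in the order of increasing
`e`; the colon of the earlier ones by the one of `e` is `(x ^ (e - pred e))` (empty for `e = 0`).
Index type: the subtype of `Fin (N + 1)` of values in `E`. `T i = {0}` for `e > 0`, `∅` for
`e = 0`. The `y`-exponent of `u + bump` is `e`, which gives the uniqueness of cards. Sums: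
`N + (gap - 1) ≤ N + G - 1`, equality for the gap `G`. -/
def P_PPQ2 : Prop :=
  ∀ (E : Set ℕ) (N G : ℕ), 1 ≤ N → 1 ≤ G → 0 ∈ E → N ∈ E → (∀ e ∈ E, e ≤ N) →
    (∀ e ∈ E, e < N → ∃ e' ∈ E, e < e' ∧ e' ≤ e + G) →
    (∃ e ∈ E, e + G ∈ E ∧ ∀ e' ∈ E, ¬ (e < e' ∧ e' < e + G)) →
    HasPPQ (U2 E N) 1 (N + G - 1)

/-- (COL2) Colons in two variables: `IsCol (U2 E N) u F` forces `F = univ` (`(N, 0)` and `(0, N)`
are in `U2`), and then some `e ∈ E` has `N - e = u 0 + 1`, `e ≤ u 1`, some `e' ∈ E` has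
`e' = u 1 + 1`, `N - e' ≤ u 0`, so `e < e'` and `u 0 + u 1 = N + (e' - e) - 2`. Conversely for
consecutive `e < e'` in `E` take `u = (N - e - 1, e' - 1)`. -/
def P_COL2 : Prop :=
  ∀ (E : Set ℕ) (N : ℕ), 1 ≤ N → 0 ∈ E → N ∈ E → (∀ e ∈ E, e ≤ N) →
    AssU (U2 E N) = {Finset.univ} ∧
    IsLeast {m | ∃ a ∈ U2 E N, ∑ t, a t = m} N ∧
    ((∀ e ∈ E, ∀ e' ∈ E, e < e' → e + 2 ≤ e') →
      ∀ m F, IsCol (U2 E N) m F → N ≤ ∑ t, m t) ∧
    ((∃ e ∈ E, e + 1 ∈ E) → ∃ m F, IsCol (U2 E N) m F ∧ ∑ t, m t + 1 = N)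

/-- (NUMV) Numbers of the V block, `v ≥ 2`, `g = 3 v - 1`, `A = {0, 3, g}`, `G = max 3 (g - 3)`.
`kS A k = {3 i + g j | i + j ≤ k}`. Gap bound: `e = 3 i + g j < g k`: if `i + j < k` use `e + 3`,
else (`i ≥ 1`) `e + g - 3`. Exact gap: if `g = 5` between `0` and `3`, if `g ≥ 6` between
`(k - 1) g + 3` and `k g` (an element with `j ≤ k - 1` is at most
`3 (k - j) + g j ≤ 3 + g (k - 1)`). Difference one: `3 i + g j + 1 = 3 i' + g j'` with
`i + j ≤ k`, `i' + j' ≤ k`: put `J = j - j'`, `I = i' - i` (integers), `3 I = 1 + g J`; modulo 3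
`J ≡ 1`, so `J ≥ 1` or `J ≤ -2`. `J = 1 + 3 t`, `t ≥ 0`: `I = v + g t ≥ v` so `i' ≥ v`. `J ≤ -2`,
`J = -2 - 3 t`: `-I = 2 v - 1 + g t ≥ v`, so `i ≥ v`. Hence `k ≥ v`. Conversely for `k ≥ v`:
`g = 3 v - 1` and `3 v`. -/
def P_NUMV : Prop :=
  ∀ v k : ℕ, 2 ≤ v → 1 ≤ k →
    (∀ e ∈ kS {0, 3, 3 * v - 1} k, e < (3 * v - 1) * k →
      ∃ e' ∈ kS {0, 3, 3 * v - 1} k, e < e' ∧ e' ≤ e + max 3 (3 * v - 4)) ∧
    (∃ e ∈ kS {0, 3, 3 * v - 1} k, e + max 3 (3 * v - 4) ∈ kS {0, 3, 3 * v - 1} k ∧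
      ∀ e' ∈ kS {0, 3, 3 * v - 1} k, ¬ (e < e' ∧ e' < e + max 3 (3 * v - 4))) ∧
    (k < v → ∀ e ∈ kS {0, 3, 3 * v - 1} k, ∀ e' ∈ kS {0, 3, 3 * v - 1} k, e < e' → e + 2 ≤ e') ∧
    (v ≤ k → ∃ e ∈ kS {0, 3, 3 * v - 1} k, e + 1 ∈ kS {0, 3, 3 * v - 1} k)

/-- (NUMR) Numbers of the R block: `A = {0, 2, 2 (r + 1), 2 (r + 2)}`,
`kS A k = {2 (s + m (r + 1)) | m ≤ k, s ≤ k}` (`i` summands `2`, `j` summands `2 (r+1)`, `l`
summands `2 (r + 2)`: `m = j + l`, `s = i + l`; conversely `l = min s m`, `i = s - l`).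
Gap bound `2 (1 + (r - k))` (natural subtraction), exact gap between `2 k` and `2 (r + 1)` if
`k ≤ r`, between `0` and `2` otherwise. All elements are even. -/
def P_NUMR : Prop :=
  ∀ r k : ℕ, 1 ≤ r → 1 ≤ k →
    (∀ e ∈ kS {0, 2, 2 * (r + 1), 2 * (r + 2)} k, e < (2 * (r + 2)) * k →
      ∃ e' ∈ kS {0, 2, 2 * (r + 1), 2 * (r + 2)} k, e < e' ∧ e' ≤ e + 2 * (1 + (r - k))) ∧
    (∃ e ∈ kS {0, 2, 2 * (r + 1), 2 * (r + 2)} k,
      e + 2 * (1 + (r - k)) ∈ kS {0, 2, 2 * (r + 1), 2 * (r + 2)} k ∧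
      ∀ e' ∈ kS {0, 2, 2 * (r + 1), 2 * (r + 2)} k, ¬ (e < e' ∧ e' < e + 2 * (1 + (r - k)))) ∧
    (∀ e ∈ kS {0, 2, 2 * (r + 1), 2 * (r + 2)} k,
      ∀ e' ∈ kS {0, 2, 2 * (r + 1), 2 * (r + 2)} k, e < e' → e + 2 ≤ e')

/-! ## Block D -/

/-- Generators `a_1 ⋯ a_i (b_{i+1} ⋯ b_d) ^ 2`, `0 ≤ i ≤ d` (`inl` are the `a`, `inr` the `b`). -/
def UD (d : ℕ) : Set (Fin d ⊕ Fin d → ℕ) :=
  {a | ∃ i ≤ d, (∀ t : Fin d, t.val < i → 1 ≤ a (Sum.inl t)) ∧
    (∀ t : Fin d, i ≤ t.val → 2 ≤ a (Sum.inr t))}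

/-- (PWD) The powers of block D. Induction on `k`. `⊆`: for `s ≤ t` an element `b ∈ UD` has
`1 ≤ b (inl s) + b (inr t) / 2`. `⊇` (for `k + 1`): given `a` with the condition for `k + 1`, let
`i` be the first index with `a (inl i) ≤ k` (`i = d` if there is none); the generator of `i`
divides: `a (inl t) ≥ k + 1 ≥ 1` for `t < i`, and for `t ≥ i` (pair `(i, t)`)
`a (inr t) / 2 ≥ 1`. Subtract it (1 from the `inl t`, `t < i`, 2 from the `inr t`, `t ≥ i`). For
`s ≤ t`: if `s < i ≤ t`, the new `a (inl s) ≥ k`; otherwise the sum drops by exactly one. -/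
def P_PWD : Prop :=
  ∀ (d k : ℕ), Pw (UD d) k =
    {a | ∀ s t : Fin d, s ≤ t → k ≤ a (Sum.inl s) + a (Sum.inr t) / 2}

/-- (PPQD) `HasPPQ` for the powers of block D (`k, d ≥ 1`). Index set: monotone `c : Fin d → ℕ`
with values `≤ k`, lexicographic order (`Lex (Fin d → Fin (k + 1))` subtype), `u_c (inl t) =
k - c t`, `u_c (inr t) = 2 c t`, `T_c = {inl t | 0 < c t ∧ ∀ s < t, c s < c t}`, `e = 1`.
Membership: for `a` in the set take `c t = sup_{s ≤ t} (k - a (inl s))`. Colon: if `c' < c`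
lexicographically and `u_c' ≤ u_c + w`, let `t` be the first index where they differ,
`c' t < c t`, and `c s = c' s ≤ c' t < c t` for `s < t`, so `t ∈ T_c`, and
`w (inl t) ≥ c t - c' t ≥ 1`. Conversely for `t ∈ T_c` lower `c t` by one. Cards: the
`inr`-part of `u_c + bump` is `2 c`, so `c` is determined. `T_c.card ≤ min k d` (the values
`c t`, `t ∈ T_c`, are distinct and in `[1, k]`), equality for `c t = min (t + 1) k`. Sums:
`∑ (k + c t) ≤ 2 d k`, equality for `c = k`. -/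
def P_PPQD : Prop :=
  ∀ (d k : ℕ), 1 ≤ d → 1 ≤ k →
    HasPPQ {a : Fin d ⊕ Fin d → ℕ | ∀ s t : Fin d, s ≤ t →
      k ≤ a (Sum.inl s) + a (Sum.inr t) / 2} (min k d) (2 * d * k)

/-- (COLD) Colons of the powers of block D. `IsCol m F`: let `V` be the set of the pairs `s ≤ t`
violated by `m` (nonempty). For `(s, t) ∈ V` a `w` that is large outside `inl s`, `inr t` keeps
`(s, t)` violated, so `F ⊆ {inl s, inr t}`. `w` large on all `inl` is in, so `F` contains some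
`inl`, so `inl s ∈ F`; same for `inr`. So `F = {inl s, inr t}` and `V = {(s, t)}`. Existence for
`s ≤ t`: `m (inl s) = k - 1`, `m (inl s') = k`, `m (inr t) = 1`, `m (inr t') = 2`.
Degree: adding one at `inr t` puts `m` in, so `m (inr t)` is odd and
`m (inl s) + m (inr t) / 2 = k - 1`. The pairs `(x, x) ≠ (s, t)` are satisfied, so
`m (inl x) + m (inr x) ≥ k`; if `s = t` also `m (inl s) + m (inr s) ≥ k - 1 + 1`. Least degree
`d k` of the set: `(inl = k, inr = 0)`. -/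
def P_COLD : Prop :=
  ∀ (d k : ℕ), 1 ≤ d → 1 ≤ k →
    AssU {a : Fin d ⊕ Fin d → ℕ | ∀ s t : Fin d, s ≤ t →
      k ≤ a (Sum.inl s) + a (Sum.inr t) / 2} =
        {F | ∃ s t : Fin d, s ≤ t ∧ F = {Sum.inl s, Sum.inr t}} ∧
    IsLeast {m | ∃ a ∈ {a : Fin d ⊕ Fin d → ℕ | ∀ s t : Fin d, s ≤ t →
      k ≤ a (Sum.inl s) + a (Sum.inr t) / 2}, ∑ t, a t = m} (d * k) ∧
    (∀ m F, IsCol {a : Fin d ⊕ Fin d → ℕ | ∀ s t : Fin d, s ≤ t →
      k ≤ a (Sum.inl s) + a (Sum.inr t) / 2} m F → d * k ≤ ∑ t, m t)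

/-! ## Block A -/

/-- Strongly stable: a variable may be replaced by an earlier one. -/
def SS {n : ℕ} (U : Set (Fin n → ℕ)) : Prop :=
  ∀ m ∈ U, ∀ s t : Fin n, s < t → 1 ≤ m t → (m - Pi.single t 1) + Pi.single s 1 ∈ U

/-- Squaring the variables. -/
def dbl {σ : Type} (U : Set (σ → ℕ)) : Set (σ → ℕ) := {a | (fun t => a t / 2) ∈ U}

/-- (DBL) Squaring the variables commutes with powers; colons. `(a)` `⊆`: `a = ∑ b`, `a / 2 ≥
∑ (b / 2)`; `⊇`: for `k + 1`: `a / 2 = b + c`, take `2 b + (a - 2 (a / 2))` and `2 c` (induction).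
(b) If `IsCol (dbl U) m F`: for `t ∈ F`, `m / 2 ∉ U` but `(m + 1_t) / 2 ∈ U`, so `m t` is odd;
`(m + 2 w) / 2 = m / 2 + w`, so `IsCol U (m / 2) F`, and `∑ m ≥ 2 ∑ (m / 2) + F.card`.
Conversely `IsCol U m F` gives `IsCol (dbl U) (2 m + ind F) F`. -/
def P_DBL : Prop :=
  ∀ {σ : Type} [Fintype σ] (U : Set (σ → ℕ)), IsUpperSet U →
    (∀ k, Pw (dbl U) k = dbl (Pw U k)) ∧ AssU (dbl U) = AssU U ∧
    (∀ m F, IsCol (dbl U) m F →
      IsCol U (fun t => m t / 2) F ∧ 2 * (∑ t, m t / 2) + F.card ≤ ∑ t, m t)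

/-- (EK2) Eliahou-Kervaire with squared variables. `W` is a strongly stable upper set in
`Fin (n + 1)`, generated in degree `N`, with a generator divisible by the last variable. Index
set: the `g ∈ W` of degree `N` (a subtype of `Lex (Fin (n+1) → Fin (N+1))`), in DECREASING
lexicographic order (use `OrderDual`), `u = 2 g`, `T = {t | ∃ s > t, 1 ≤ g s}`, `e = 2`. Colon:
if `g' > g` lexicographically, `2 g' ≤ 2 g + w`, `t` the first difference, `g' t > g t`, then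
`w t ≥ 2`, and as the degrees agree `g' s < g s` for some `s > t`, so `t ∈ T`. Conversely for
`t ∈ T`, `s > t` with `1 ≤ g s`: `g - 1_s + 1_t ∈ W`. `∑ (u + bump) = 2 N + 2 card F` gives the
uniqueness of cards. `T.card ≤ n` (`t` is not last), equality if `1 ≤ g (last)`. -/
def P_EK2 : Prop :=
  ∀ (n N : ℕ) (W : Set (Fin (n + 1) → ℕ)), IsUpperSet W → SS W →
    (∀ m ∈ W, ∃ g ∈ W, g ≤ m ∧ ∑ t, g t = N) →
    (∃ g ∈ W, ∑ t, g t = N ∧ 1 ≤ g (Fin.last n)) →
    HasPPQ (dbl W) n (2 * N + n)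

/-- (SSP) (a) Powers of strongly stable sets are strongly stable. (b) Truncation: if `J` is an
upper set and every `m ∈ J` has a `g ∈ J`, `g ≤ m`, of degree `≤ δ`, then
`Pw (J ∩ {deg ≥ δ}) k = Pw J k ∩ {deg ≥ δ k}`.
PROOF of `⊇`, induction on `k`, for `k + 1`: `m = b + c`, `b ∈ J`, `c ∈ Pw J k`. Choose `b' ≤ b` in
`J` of degree `≤ δ` and `c₀ ≤ c` in `Pw J k` of degree `≤ δ k` (same property for powers, easy
induction). The remainder `m - b' - c₀` has degree `≥ δ - deg b'`, so contains `x ≤ m - b' - c₀`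
of degree `δ - deg b'` exactly. `b'' = b' + x` has degree `δ`; `m - b'' ≥ c₀` is in `Pw J k`, of
degree `≥ δ k`. (c) `Pw J k` for `k ≥ 1`, and `Pw (J ∩ {deg ≥ δ}) k` is generated in degree
`δ k` exactly: every `m` in it has a `g ≤ m` in it with degree `δ k`. -/
def P_SSP : Prop :=
  (∀ (n : ℕ) (U : Set (Fin n → ℕ)), IsUpperSet U → SS U → ∀ k, SS (Pw U k)) ∧
  (∀ {σ : Type} [Fintype σ] (J : Set (σ → ℕ)) (δ : ℕ), IsUpperSet J →
    (∀ m ∈ J, ∃ g ∈ J, g ≤ m ∧ ∑ t, g t ≤ δ) → ∀ k,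
      Pw {m | m ∈ J ∧ δ ≤ ∑ t, m t} k = {m | m ∈ Pw J k ∧ δ * k ≤ ∑ t, m t} ∧
      (∀ m ∈ Pw J k, δ * k ≤ ∑ t, m t → ∃ g ∈ Pw J k, g ≤ m ∧ ∑ t, g t = δ * k))

/-- The set `J` of block A (`p = a + 2`), in the exponents `m 0, m 1, m 2` (`m 3` is free). -/
def JA (p : ℕ) : Set (Fin 4 → ℕ) :=
  {m | p ≤ m 0 ∨ 2 * p ≤ m 1 ∨ (p ≤ m 0 + 1 ∧ 2 ≤ m 1) ∨
    (1 ≤ m 0 ∧ p + 1 ≤ m 1 ∧ 2 * p ≤ m 0 + m 1 + 1) ∨
    (1 ≤ m 2 ∧ 2 ≤ m 0 ∧ 2 * p ≤ m 0 + m 1 + 2)}

/-- (JA1) Elementary facts on `JA p`, `p ≥ 3`: upper set, strongly stable, generated in degrees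
`≤ 2 p` (generators `x^p`, `y^{2p}`, `x^{p-1} y^2`, `x^i y^j` with `i ≥ 1`, `j ≥ p + 1`,
`i + j = 2 p - 1`, `x^i y^j z` with `i ≥ 2`, `i + j = 2 p - 2`), weight at least `2 p`.
Strong stability by cases (`omega`): moves `y → x`, `z → x`, `z → y` (`w → ...`: upper set).
E.g. `z → ·` from the last clause with `m 2 = 1`: `i ≥ 2`, `i + j ≥ 2 p - 1` gives: `i ≥ p`, or
`i = p - 1` and `j ≥ 2`, or `i ≤ p - 2` and `j ≥ p + 1`. -/
def P_JA1 : Prop :=
  ∀ p : ℕ, 3 ≤ p → IsUpperSet (JA p) ∧ SS (JA p) ∧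
    (∀ m ∈ JA p, ∃ g ∈ JA p, g ≤ m ∧ ∑ t, g t ≤ 2 * p) ∧
    (∀ m ∈ JA p, 2 * p ≤ 2 * m 0 + m 1)

/-- (JA2) Powers of `JA p`, `p = a + 2`, `k ≥ 1`. (i) every element of `Pw (JA p) k` has weight
`2 m 0 + m 1 ≥ 2 p k`. (ii) if `k ≥ a` the converse holds: given `m` with `2 m 0 + m 1 ≥ 2 p k`
let `e = min (m 1 / 2) (p k)`; then `p k - e ≤ m 0`. Write `e = s + q (p - 1)` with `s, q ≤ k`
(`q = e / (p - 1)`, or `q = k` if `e ≥ k (p - 1)`; `p - 2 ≤ k` is used), and `e` is a sum of `k`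
numbers from `{0, 1, p - 1, p}` (`l = min s q` times `p`, `q - l` times `p - 1`, `s - l` times
`1`, the rest `0`); `(p - e', 2 e', 0, 0) ∈ JA p` for these `e'`. (iii) if `k < a`:
`m₀ = (p (k - 1) + 2, 2 (p - 2), 0, *)` is not in `Pw (JA p) k`: its weight is `2 p k`, so in a
decomposition every factor has weight exactly `2 p` and `z`-exponent `0`, i.e. is
`(p, 0), (p - 1, 2), (1, 2 p - 2)` or `(0, 2 p)` in `x, y`; the `y`-exponents sum to
`2 (p - 2) < 2 p - 2`, so only `0` and `2` occur and `p - 2 ≤ k`, contradiction. But `m₀ + 1_x`,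
`m₀ + 1_y`, `m₀ + 1_z` are in it: `(k - 1)` times `(p, 0, 0)` plus `(3, 2p - 4, 0)`,
`(2, 2 p - 3, 0)`, `(2, 2 p - 4, 1)`. (iv) `(p k - 1, 1, 0, *)` plus `1_x` or `1_y` is in it, and
`m ∈ Pw` if `m 0 ≥ p k` or `m 1 ≥ 2 p k`. (v) membership does not depend on `m 3`. -/
def P_JA2 : Prop :=
  ∀ a k : ℕ, 1 ≤ a → 1 ≤ k →
    (∀ m ∈ Pw (JA (a + 2)) k, 2 * (a + 2) * k ≤ 2 * m 0 + m 1) ∧
    (a ≤ k → ∀ m : Fin 4 → ℕ, 2 * (a + 2) * k ≤ 2 * m 0 + m 1 → m ∈ Pw (JA (a + 2)) k) ∧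
    (k < a → ∀ w : ℕ, ![(a + 2) * (k - 1) + 2, 2 * a, 0, w] ∉ Pw (JA (a + 2)) k ∧
      ![(a + 2) * (k - 1) + 3, 2 * a, 0, w] ∈ Pw (JA (a + 2)) k ∧
      ![(a + 2) * (k - 1) + 2, 2 * a + 1, 0, w] ∈ Pw (JA (a + 2)) k ∧
      ![(a + 2) * (k - 1) + 2, 2 * a, 1, w] ∈ Pw (JA (a + 2)) k) ∧
    (∀ m : Fin 4 → ℕ, (a + 2) * k ≤ m 0 → m ∈ Pw (JA (a + 2)) k) ∧
    (∀ m : Fin 4 → ℕ, 2 * (a + 2) * k ≤ m 1 → m ∈ Pw (JA (a + 2)) k) ∧
    (∀ m : Fin 4 → ℕ, (a + 2) * k ≤ m 0 + 1 → 2 ≤ m 1 → m ∈ Pw (JA (a + 2)) k) ∧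
    (∀ m m' : Fin 4 → ℕ, m 0 = m' 0 → m 1 = m' 1 → m 2 = m' 2 →
      m ∈ Pw (JA (a + 2)) k → m' ∈ Pw (JA (a + 2)) k)

/-- The `k`-th power of the truncated ideal of block A. -/
def WA (a k : ℕ) : Set (Fin 4 → ℕ) :=
  {m | m ∈ Pw (JA (a + 2)) k ∧ 2 * (a + 2) * k ≤ ∑ t, m t}

/-- (COLA) The associated primes of `WA a k` (from JA2 and strong stability, SSP, JA1).
`IsCol W m F`: `F ≠ ∅`; if `t ∈ F`, `s < t` then `m + 1_t ∈ W`, so `m + 1_s ∈ W` (SS), so `s ∈ F`:
`F` is an initial segment. Not `{0}`: for `w = (0, 2 p k, 0, 0)`, `m + w ∈ W`. If `k ≥ a`, not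
`{0, 1, 2}`: `m + (0, 0, 1, N) ∈ W` for large `N` (say `N = 2 p k`), membership in `Pw` depends
only on the weight, so `m + (0, 0, 0, N + 1) ∈ W`. Existence: `univ`:
`m = (2 p k - 1, 0, 0, 0)` (`2 p k - 1 ≥ p k`); `{0, 1}`: `m = (p k - 1, 1, 0, 2 p k)` (its
weight `2 p k - 1` does not change with `z, w`); `{0, 1, 2}` for `k < a`:
`m = (p (k - 1) + 2, 2 (p - 2), 0, 2 p k)`. -/
def P_COLA : Prop :=
  ∀ a k : ℕ, 1 ≤ a → 1 ≤ k → IsUpperSet (WA a k) → SS (WA a k) →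
    AssU (WA a k) = {F | F = {0, 1} ∨ F = Finset.univ ∨ (k < a ∧ F = {0, 1, 2})}

/-! ## Assembly of the blocks (done by helper28) -/

/-- (BV) -/
def P_BV : Prop :=
  ∀ v : ℕ, 1 ≤ v → ∃ (U : Set (Fin 2 → ℕ)) (α c e : ℕ),
    Blk U α (fun _ => 1) (fun k => c * k + e) (fun _ => {Finset.univ}) (fun k => k < v)
      (fun k => v ≤ k)

/-- (BR) -/
def P_BR : Prop :=
  ∀ r : ℕ, 1 ≤ r → ∃ (U : Set (Fin 2 → ℕ)) (α c e : ℕ),
    Blk U α (fun _ => 1) (fun k => c * k + e + 2 * (r - k)) (fun _ => {Finset.univ})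
      (fun _ => True) (fun _ => False)

/-- (BD) -/
def P_BD : Prop :=
  ∀ d : ℕ, 1 ≤ d → ∃ (α c e : ℕ) (A : Set (Finset (Fin d ⊕ Fin d))),
    Blk (UD d) α (fun k => min k d) (fun k => c * k + e) (fun _ => A) (fun _ => True)
      (fun _ => False)

/-- (BA) -/
def P_BA : Prop :=
  ∀ a : ℕ, 1 ≤ a → ∃ (U : Set (Fin 4 → ℕ)) (α c e : ℕ),
    Blk U α (fun _ => 3) (fun k => c * k + e)
      (fun k => {F | F = {0, 1} ∨ F = Finset.univ ∨ (k < a ∧ F = {0, 1, 2})})
      (fun _ => True) (fun _ => False)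

end

end Pool.Agent.T2H28.FS
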