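import Pool.Agent.T2H28.FS.Stm

/-! Package DBL of project FS -/

namespace Pool.Agent.T2H28.FS

open MvPolynomial

universe u

namespace PkgDBL

theorem pw_up {σ : Type} {U : Set (σ → ℕ)} (h : IsUpperSet U) : ∀ k, IsUpperSet (Pw U k) := by
  intro k
  induction k with
  | zero => intro a b _ _; exact trivial
  | succ k ih =>
    rintro a a' haa ⟨b, hb, c, hc, rfl⟩
    refine ⟨b, hb, a' - b, ih ?_ hc, ?_⟩
    · intro t
      have h1 : b t + c t ≤ a' t := haa t
      show c t ≤ a' t - b t
      omega
    · funext t
      have h1 : b t + c t ≤ a' t := haa t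
      show a' t = b t + (a' t - b t)
      omega

theorem ind_mem {σ : Type} {T : Finset σ} {t : σ} (h : t ∈ T) : ind T t = 1 := by
  classical
  unfold ind; exact if_pos h

theorem ind_not {σ : Type} {T : Finset σ} {t : σ} (h : t ∉ T) : ind T t = 0 := by
  classical
  unfold ind; exact if_neg h

end PkgDBL

open PkgDBL in
theorem T_DBL : P_DBL := by
  classical
  intro σ _ U hU
  have hpw : ∀ k, Pw (dbl U) k = dbl (Pw U k) := by
    intro k
    induction k with
    | zero => ext a; simp [Pw, dbl]
    | succ k ih =>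
      ext a
      constructor
      · rintro ⟨b, hb, c, hc, rfl⟩
        rw [ih] at hc
        refine pw_up hU (k + 1) ?_ ⟨_, hb, _, hc, rfl⟩
        intro t
        show b t / 2 + c t / 2 ≤ (b t + c t) / 2
        omega
      · rintro ⟨b, hb, c, hc, h⟩
        have h' : ∀ t, a t / 2 = b t + c t := fun t => congrFun h t
        refine ⟨fun t => 2 * b t + a t % 2, ?_, fun t => 2 * c t, ?_, ?_⟩
        · show (fun t => (2 * b t + a t % 2) / 2) ∈ U
          have : (fun t => (2 * b t + a t % 2) / 2) = b := by funext t; omega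
          rw [this]; exact hb
        · rw [ih]
          show (fun t => (2 * c t) / 2) ∈ Pw U k
          have : (fun t => (2 * c t) / 2) = c := by funext t; omega
          rw [this]; exact hc
        · funext t
          have := h' t
          show a t = 2 * b t + a t % 2 + 2 * c t
          omega
  have hdn : ∀ m F, IsCol (dbl U) m F → IsCol U (fun t => m t / 2) F := by
    intro m F h w
    have h1 := h (fun t => 2 * w t)
    have h2 : (fun t => m t / 2) + w ∈ U ↔ m + (fun t => 2 * w t) ∈ dbl U := by
      show _ ↔ (fun t => (m t + 2 * w t) / 2) ∈ U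
      have : (fun t => (m t + 2 * w t) / 2) = (fun t => m t / 2) + w := by
        funext t; show (m t + 2 * w t) / 2 = m t / 2 + w t; omega
      rw [this]
    rw [h2, h1]
    constructor
    · rintro ⟨t, ht, h3⟩; exact ⟨t, ht, by omega⟩
    · rintro ⟨t, ht, h3⟩; exact ⟨t, ht, by show 1 ≤ 2 * w t; omega⟩
  have hodd : ∀ m F, IsCol (dbl U) m F → ∀ t ∈ F, m t % 2 = 1 := by
    intro m F h t ht
    by_contra hne
    have h0 : m ∉ dbl U := by
      intro hm
      have : m + 0 ∈ dbl U := by rw [add_zero]; exact hm
      obtain ⟨t, _, ht⟩ := (h 0).1 this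
      simp at ht
    have h1 : m + Pi.single t 1 ∈ dbl U := (h _).2 ⟨t, ht, by simp⟩
    apply h0
    have h2 : (fun x => (m + Pi.single t 1 : σ → ℕ) x / 2) = fun x => m x / 2 := by
      funext x
      by_cases hx : x = t
      · subst hx
        simp only [Pi.add_apply, Pi.single_eq_same]
        omega
      · simp only [Pi.add_apply, Pi.single_eq_of_ne hx, add_zero]
    show (fun x => m x / 2) ∈ U
    rw [← h2]; exact h1
  refine ⟨hpw, ?_, fun m F h => ⟨hdn m F h, ?_⟩⟩
  · ext F
    constructor
    · rintro ⟨m, hm⟩; exact ⟨_, hdn m F hm⟩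
    · rintro ⟨m, hm⟩
      refine ⟨fun t => 2 * m t + ind F t, fun w => ?_⟩
      have h1 := hm (fun t => (ind F t + w t) / 2)
      have h2 : (fun t => 2 * m t + ind F t) + w ∈ dbl U ↔
          m + (fun t => (ind F t + w t) / 2) ∈ U := by
        show (fun t => (2 * m t + ind F t + w t) / 2) ∈ U ↔ _
        have : (fun t => (2 * m t + ind F t + w t) / 2) = m + (fun t => (ind F t + w t) / 2) := by
          funext t; show (2 * m t + ind F t + w t) / 2 = m t + (ind F t + w t) / 2; omega
        rw [this]
      rw [h2, h1]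
      constructor
      · rintro ⟨t, ht, h3⟩
        rw [ind_mem ht] at h3
        exact ⟨t, ht, by omega⟩
      · rintro ⟨t, ht, h3⟩
        refine ⟨t, ht, ?_⟩
        rw [ind_mem ht]
        omega
  · have h1 : ∑ t, m t = ∑ t, (2 * (m t / 2) + m t % 2) :=
      Finset.sum_congr rfl (fun t _ => by omega)
    rw [h1, Finset.sum_add_distrib, ← Finset.mul_sum]
    have h2 : F.card ≤ ∑ t, m t % 2 := by
      rw [Finset.card_eq_sum_ones]
      calc ∑ t ∈ F, 1 = ∑ t ∈ F, m t % 2 :=
            Finset.sum_congr rfl (fun t ht => (hodd m F h t ht).symm)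
        _ ≤ ∑ t, m t % 2 := Finset.sum_le_sum_of_subset (Finset.subset_univ F)
    omega

end Pool.Agent.T2H28.FS
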