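import Pool.Agent.T2H28.FS.T_HTP

/-! Package DU of project FS -/

namespace Pool.Agent.T2H28.FS

open MvPolynomial Pointwise

universe u

namespace DUx

variable {σ : Type} [Fintype σ] [LinearOrder σ] (K : Type u) [Field K]
variable {M : Type u} [AddCommGroup M] [Module (MvPolynomial σ K) M]
variable {N : Type u} [AddCommGroup N] [Module (MvPolynomial σ K) N]

/-- `π` is the quotient map by `y M` -/
def IsQ (y : MvPolynomial σ K) (π : M →ₗ[MvPolynomial σ K] N) : Prop :=
  Function.Surjective π ∧ ∀ m, π m = 0 ↔ ∃ m', y • m' = m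

theorem exQ (y : MvPolynomial σ K) (M : Type u) [AddCommGroup M] [Module (MvPolynomial σ K) M] :
    ∃ π : M →ₗ[MvPolynomial σ K] QuotSMulTop y M, IsQ K y π := by
  refine ⟨Submodule.mkQ _, Submodule.mkQ_surjective _, fun m => ?_⟩
  rw [Submodule.mkQ_apply, Submodule.Quotient.mk_eq_zero, Submodule.mem_smul_pointwise_iff_exists]
  exact ⟨fun ⟨b, _, hb⟩ => ⟨b, hb⟩, fun ⟨b, hb⟩ => ⟨b, trivial, hb⟩⟩

/-- lifting a chain from the quotient -/
theorem lift (π : M →ₗ[MvPolynomial σ K] N) (hπ : Function.Surjective π) (c : Finset σ → N) (i : ℕ)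
    (hc : ∀ T, T.card ≠ i → c T = 0) :
    ∃ b : Finset σ → M, (∀ T, T.card ≠ i → b T = 0) ∧ ∀ T, π (b T) = c T := by
  classical
  choose f hf using fun T => hπ (c T)
  refine ⟨fun T => if T.card = i then f T else 0, fun T hT => if_neg hT, fun T => ?_⟩
  by_cases hT : T.card = i
  · simp only [hT, if_true]; exact hf T
  · simp only [hT, if_false, map_zero, hc T hT]

/-- a chain that vanishes in the quotient is divisible -/
theorem div (y : MvPolynomial σ K) (hy : IsSMulRegular M y) (π : M →ₗ[MvPolynomial σ K] N)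
    (hπ : IsQ K y π) (c : Finset σ → M) (i : ℕ)
    (hc : ∀ T, T.card ≠ i → c T = 0) (h0 : ∀ T, π (c T) = 0) :
    ∃ b : Finset σ → M, (∀ T, T.card ≠ i → b T = 0) ∧ ∀ T, c T = y • b T := by
  choose f hf using fun T => (hπ.2 (c T)).mp (h0 T)
  refine ⟨f, fun T hT => ?_, fun T => (hf T).symm⟩
  apply hy
  simp only [hf T, hc T hT, smul_zero]

theorem step (hSGN : P_SGN.{u}) (hHTP : P_HTP.{u}) (r : MvPolynomial σ K) (hr : IsSMulRegular M r)
    (hrm : r ∈ mm σ K) (π : M →ₗ[MvPolynomial σ K] N) (hπ : IsQ K r π) (i : ℕ)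
    (hKZ : KZ σ K N (i + 1)) : KZ σ K M i := by
  intro c hc hz
  obtain ⟨b, hb, hb'⟩ := hHTP K M i c hc hz r hrm
  have hcyc : kd K (fun T => π (b T)) = 0 := by
    rw [HTPx.kd_map K π b, hb']
    funext T
    exact (hπ.2 _).mpr ⟨_, rfl⟩
  obtain ⟨e', he', he''⟩ := hKZ (fun T => π (b T)) (fun T hT => by simp only [hb T hT, map_zero]) hcyc
  obtain ⟨e, he, hee⟩ := lift K π hπ.1 e' (i + 1 + 1) he'
  have hd : ∀ T, π ((fun T => b T - kd K e T) T) = 0 := by
    intro T
    simp only [map_sub]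
    have h1 : kd K (fun T => π (e T)) = fun T => π (kd K e T) := HTPx.kd_map K π e
    have h2 : (fun T => π (e T)) = e' := funext hee
    rw [h2, he''] at h1
    rw [← congrFun h1 T, sub_self]
  obtain ⟨b', hb1, hb2⟩ := div K r hr π hπ (fun T => b T - kd K e T) (i + 1)
    (fun T hT => by simp only [hb T hT, HTPx.kd_supp K e (i + 1) he T hT, sub_zero]) hd
  refine ⟨b', hb1, ?_⟩
  have h3 : kd K (fun T => b T - kd K e T) = fun T => kd K b T := by
    rw [HTPx.kd_sub, hSGN.2.2.2]
    funext T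
    simp
  have h4 : (fun T => b T - kd K e T) = fun T => r • b' T := funext hb2
  rw [h4, HTPx.kd_smul, hb'] at h3
  funext T
  exact hr (congrFun h3 T)

end DUx

theorem T_DU (hSGN : P_SGN.{u}) (hHTP : P_HTP.{u}) : P_DU.{u} := by
  intro σ _ _ K _ M _ _ rs
  induction rs generalizing M with
  | nil =>
    intro _ _ i hi c hc _
    refine ⟨fun _ => 0, fun _ _ => rfl, ?_⟩
    rw [HTPx.kd_zero]
    funext T
    rw [hc T (by have := Finset.card_le_univ T; simp at hi; omega)]
    rfl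
  | cons r rs ih =>
    intro hrs hreg i hi
    rw [RingTheory.Sequence.isWeaklyRegular_cons_iff] at hreg
    obtain ⟨hr, hreg'⟩ := hreg
    obtain ⟨π, hπ⟩ := DUx.exQ K r M
    have hi' : Fintype.card σ < i + 1 + rs.length := by
      rw [List.length_cons] at hi; omega
    have hKZ := ih (QuotSMulTop r M) (fun r' hr' => hrs r' (List.mem_cons_of_mem r hr')) hreg' (i + 1) hi'
    exact DUx.step K hSGN hHTP r hr (hrs r List.mem_cons_self) π hπ i hKZ

end Pool.Agent.T2H28.FS
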